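import Pool.Agent.Run7.h870.LI.Two

/-!
# The mean of the correction factor; the singular series on average
-/

set_option autoImplicit false
set_option linter.all false

namespace Run7.h870.LI

open Finset Filter
open Pool.Agent.Y882.SI Pool.Agent.Y882.PX
open scoped Classical

/-- the condition in `KK` -/
def Cd (a : ℤ) (p h : ℕ) : Prop := (p : ℤ) ∣ (h : ℤ) ∨ (p : ℤ) ∣ (h : ℤ) ^ 2 + 4 * a

theorem per_Cd (a : ℤ) : Per (Cd a) := by
  intro p h
  unfold Cd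
  have e1 : (p : ℤ) ∣ ((h + p : ℕ) : ℤ) ↔ (p : ℤ) ∣ (h : ℤ) := by
    push_cast
    exact dvd_add_self_right
  have e2 : (p : ℤ) ∣ ((h + p : ℕ) : ℤ) ^ 2 + 4 * a ↔ (p : ℤ) ∣ (h : ℤ) ^ 2 + 4 * a :=
    per_Q1 (4 * a) p h
  rw [e1, e2]

/-- divisibility, as a predicate -/
def Dz (p h : ℕ) : Prop := (p : ℤ) ∣ (h : ℤ)

theorem rr_Cd (a : ℤ) {p : ℕ} (hp : p.Prime) : rr (Cd a) p ≤ 3 := by
  have h1 : rr (Cd a) p ≤ rr Dz p + rr (Q1 (4 * a)) p :=
    (rr_or Dz (Q1 (4 * a)) p).le.trans (card_union_le _ _)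
  have h3 : rr Dz p ≤ 1 := by
    unfold rr
    rw [← card_singleton 0]
    refine card_le_card fun h hh => ?_
    rw [mem_filter, mem_range] at hh
    rw [mem_singleton]
    exact Nat.eq_zero_of_dvd_of_lt (Int.natCast_dvd_natCast.1 hh.2) hh.1
  have h4 := rr_Q1_le (4 * a) hp
  omega

theorem cnt_Cd (a : ℤ) {p : ℕ} (hp : p.Prime) {H : ℕ} (hH : p ≤ H) :
    (((Icc 1 H).filter fun h => Cd a p h).card : ℝ) ≤ 6 * (H : ℝ) / p := by
  have h1 := per_count (P := fun h => Cd a p h) hp.pos (fun n => per_Cd a p n) 1 H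
  have e : Ico 1 (1 + H) = Icc 1 H := by ext x; simp; omega
  rw [e] at h1
  have h2 : (((range p).filter fun h => Cd a p h).card : ℝ) ≤ 3 := by exact_mod_cast rr_Cd a hp
  have hp0 : (0 : ℝ) < p := by exact_mod_cast hp.pos
  have hHr : (p : ℝ) ≤ H := by exact_mod_cast hH
  have h3 := (abs_le.1 h1).2
  have h4 : (H : ℝ) * ((((range p).filter fun h => Cd a p h).card : ℝ) / p) ≤ H * (3 / p) := by
    apply mul_le_mul_of_nonneg_left _ (Nat.cast_nonneg _)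
    exact div_le_div_of_nonneg_right h2 hp0.le
  have h5 : (1 : ℝ) ≤ H / p := by rwa [one_le_div hp0]
  have h6 : (H : ℝ) * (3 / p) = 3 * (H / p) := by ring
  have h7 : 6 * (H : ℝ) / p = 6 * (H / p) := by ring
  rw [h7]
  linarith

theorem few_large {a : ℤ} (ha : ¬ IsSquare (-a)) {P : Finset ℕ} (hP : ∀ p ∈ P, p.Prime) {H h : ℕ}
    (hH : 1 + 4 * a.natAbs ≤ H) (h1 : 1 ≤ h) (h2 : h ≤ H) :
    (P.filter fun p => H < p ∧ Cd a p h).card ≤ 3 := by
  obtain ⟨m, hm⟩ : ∃ m : ℕ, m = ((h : ℤ) * ((h : ℤ) ^ 2 + 4 * a)).natAbs := ⟨_, rfl⟩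
  have hm0 : m ≠ 0 := by
    rw [hm, Int.natAbs_ne_zero]
    refine mul_ne_zero (by exact_mod_cast (by omega : h ≠ 0)) fun h0 => ha ?_
    have h3 : (2 : ℤ) ∣ (h : ℤ) ^ 2 := ⟨-2 * a, by linarith⟩
    obtain ⟨k, hk⟩ := Int.prime_two.dvd_of_dvd_pow h3
    refine ⟨k, ?_⟩
    rw [hk] at h0
    linarith
  have hmle : m ≤ H ^ 4 := by
    have h3 : m ≤ h * (h ^ 2 + 4 * a.natAbs) := by
      rw [hm, Int.natAbs_mul, Int.natAbs_natCast]
      apply Nat.mul_le_mul_left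
      refine (Int.natAbs_add_le _ _).trans ?_
      rw [Int.natAbs_pow, Int.natAbs_natCast, Int.natAbs_mul]
      exact le_rfl
    have h4 : h * (h ^ 2 + 4 * a.natAbs) ≤ H * (H ^ 2 * (1 + 4 * a.natAbs)) := by
      apply Nat.mul_le_mul h2
      have h5 : h ^ 2 ≤ H ^ 2 := Nat.pow_le_pow_left h2 2
      have h6 : 1 ≤ H ^ 2 := Nat.one_le_pow _ _ (by omega)
      have h7 := Nat.mul_le_mul_left (4 * a.natAbs) h6
      nlinarith
    have h5 : H * (H ^ 2 * (1 + 4 * a.natAbs)) ≤ H ^ 4 := by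
      calc H * (H ^ 2 * (1 + 4 * a.natAbs)) ≤ H * (H ^ 2 * H) := by gcongr
        _ = H ^ 4 := by ring
    omega
  obtain ⟨s, hs⟩ : ∃ s, s = P.filter fun p => H < p ∧ Cd a p h := ⟨_, rfl⟩
  rw [← hs]
  have hdvd : ∏ p ∈ s, p ∣ m := by
    apply Finset.prod_primes_dvd
    · intro p hp
      rw [hs, mem_filter] at hp
      exact (hP p hp.1).prime
    · intro p hp
      rw [hs, mem_filter] at hp
      rw [hm]
      rcases hp.2.2 with h3 | h3
      · exact Int.natCast_dvd.1 (h3.mul_right _)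
      · exact Int.natCast_dvd.1 (h3.mul_left _)
  have hle : (H + 1) ^ s.card ≤ H ^ 4 := by
    calc (H + 1) ^ s.card = ∏ p ∈ s, (H + 1) := by rw [prod_const]
      _ ≤ ∏ p ∈ s, p := by
          apply prod_le_prod'
          intro p hp
          rw [hs, mem_filter] at hp
          exact hp.2.1
      _ ≤ m := Nat.le_of_dvd (Nat.pos_of_ne_zero hm0) hdvd
      _ ≤ H ^ 4 := hmle
  by_contra hcon
  push Not at hcon
  have h5 : (H + 1) ^ 4 ≤ (H + 1) ^ s.card := Nat.pow_le_pow_right (by omega) hcon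
  have h6 : H ^ 4 < (H + 1) ^ 4 := Nat.pow_lt_pow_left (by omega) (by norm_num)
  omega

/-- a crude bound for the products over the primes -/
theorem prod_small : ∃ C : ℝ, 0 < C ∧ ∀ (p : ℕ) (s : Finset ℕ), 3 ≤ p → (∀ q ∈ s, q.Prime ∧ q < p) →
    ∏ q ∈ s, (1 + 4 / (q : ℝ)) ≤ C * (p : ℝ) ^ (1 / 4 : ℝ) := by
  obtain ⟨C0, hC0⟩ := Pool.Agent.Erdos456.Mert.mertens_inv
  have h1 : ∀ᶠ x : ℝ in atTop, Real.log x ^ (4 : ℝ) ≤ x ^ (1 / 4 : ℝ) := by
    have h := (isLittleO_log_rpow_rpow_atTop (4 : ℝ) (show (0 : ℝ) < 1 / 4 by norm_num)).bound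
      (show (0 : ℝ) < 1 by norm_num)
    filter_upwards [h, eventually_ge_atTop 1] with x hx hx1
    rw [Real.norm_of_nonneg (Real.rpow_nonneg (Real.log_nonneg hx1) _),
      Real.norm_of_nonneg (by positivity), one_mul] at hx
    exact hx
  obtain ⟨x0, hx0⟩ := eventually_atTop.1 h1
  obtain ⟨K, hK⟩ : ∃ K : ℝ, K = 1 + |Real.log (max x0 3)| ^ (4 : ℝ) := ⟨_, rfl⟩
  have hK1 : 1 ≤ K := by
    rw [hK]
    have : 0 ≤ |Real.log (max x0 3)| ^ (4 : ℝ) := by positivity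
    linarith
  refine ⟨Real.exp (4 * C0) * K, by positivity, ?_⟩
  intro p s hp hs
  have hpr : (3 : ℝ) ≤ p := by exact_mod_cast hp
  have hlp : 1 < Real.log p := by
    rw [Real.lt_log_iff_exp_lt (by linarith)]
    linarith [Real.exp_one_lt_d9]
  have h2 : ∏ q ∈ s, (1 + 4 / (q : ℝ)) ≤ Real.exp (4 * (Real.log (Real.log p) + C0)) := by
    calc ∏ q ∈ s, (1 + 4 / (q : ℝ)) ≤ ∏ q ∈ s, Real.exp (4 * (1 / (q : ℝ))) := by
          apply Finset.prod_le_prod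
          · intro q _
            positivity
          · intro q _
            have := Real.add_one_le_exp (4 * (1 / (q : ℝ)))
            have e : 4 / (q : ℝ) = 4 * (1 / (q : ℝ)) := by ring
            rw [e]
            linarith
      _ = Real.exp (4 * ∑ q ∈ s, 1 / (q : ℝ)) := by rw [← Real.exp_sum, mul_sum]
      _ ≤ Real.exp (4 * (Real.log (Real.log p) + C0)) := by
          apply Real.exp_le_exp.2
          apply mul_le_mul_of_nonneg_left _ (by norm_num)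
          have h3 : ∑ q ∈ s, 1 / (q : ℝ) ≤ ∑ q ∈ (Icc 1 p).filter Nat.Prime, 1 / (q : ℝ) := by
            apply sum_le_sum_of_subset_of_nonneg
            · intro q hq
              obtain ⟨h4, h5⟩ := hs q hq
              rw [mem_filter, mem_Icc]
              exact ⟨⟨h4.one_le, h5.le⟩, h4⟩
            · intro q _ _
              positivity
          have h4 := (abs_le.1 (hC0 p hp)).2
          linarith
  have h3 : Real.exp (4 * (Real.log (Real.log p) + C0)) =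
      Real.exp (4 * C0) * Real.log p ^ (4 : ℝ) := by
    rw [Real.rpow_def_of_pos (by linarith), ← Real.exp_add]
    congr 1
    ring
  rw [h3] at h2
  refine h2.trans ?_
  rw [mul_assoc]
  apply mul_le_mul_of_nonneg_left _ (Real.exp_pos _).le
  have hp1 : (1 : ℝ) ≤ (p : ℝ) ^ (1 / 4 : ℝ) := Real.one_le_rpow (by linarith) (by norm_num)
  by_cases hpx : x0 ≤ p
  · have h4 := hx0 p hpx
    nlinarith
  · push Not at hpx
    have h4 : Real.log p ≤ |Real.log (max x0 3)| := by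
      refine le_trans ?_ (le_abs_self _)
      exact Real.log_le_log (by linarith) (hpx.le.trans (le_max_left _ _))
    have h5 : Real.log p ^ (4 : ℝ) ≤ |Real.log (max x0 3)| ^ (4 : ℝ) :=
      Real.rpow_le_rpow (by linarith) h4 (by norm_num)
    nlinarith

/-- the mean of the correction factor -/
theorem KK_avg {a : ℤ} (ha : ¬ IsSquare (-a)) : ∃ C : ℝ, 0 < C ∧ ∀ (w H : ℕ) (P : Finset ℕ), 3 ≤ w →
    (∀ p ∈ P, p.Prime ∧ w < p) → 1 + 4 * a.natAbs ≤ H →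
    ∑ h ∈ Icc 1 H, (KK a P h - 1) ≤ C * (H * (w : ℝ) ^ (-(1 / 4 : ℝ)) + (H : ℝ) ^ (1 / 4 : ℝ)) := by
  obtain ⟨C1, hC1, HC⟩ := prod_small
  have hsum : Summable fun n : ℕ => 1 / (n : ℝ) ^ (3 / 2 : ℝ) :=
    Real.summable_one_div_nat_rpow.2 (by norm_num)
  obtain ⟨C2, hC2⟩ : ∃ C2 : ℝ, C2 = ∑' n : ℕ, 1 / (n : ℝ) ^ (3 / 2 : ℝ) := ⟨_, rfl⟩
  have hC20 : 0 ≤ C2 := by
    rw [hC2]
    exact tsum_nonneg fun n => by positivity
  refine ⟨4 * C1 * (6 * C2 + 3), by positivity, ?_⟩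
  intro w H P hw hP hH
  have hH1 : 1 ≤ H := by omega
  have hHr : (1 : ℝ) ≤ H := by exact_mod_cast hH1
  have hwr : (3 : ℝ) ≤ w := by exact_mod_cast hw
  -- pointwise
  have hpt : ∀ h, KK a P h - 1 ≤ 4 * C1 * ∑ p ∈ P.filter (fun p => Cd a p h),
      (p : ℝ) ^ (-(3 / 4) : ℝ) := by
    intro h
    unfold KK
    rw [prod_add_ordered, prod_const_one, add_sub_cancel_left, sum_filter, mul_sum]
    refine sum_le_sum fun p hp => ?_
    rw [prod_const_one, mul_one]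
    have hpp := (hP p hp).1
    have hp3 : 3 ≤ p := by have := (hP p hp).2; omega
    have hp0 : (0 : ℝ) < p := by exact_mod_cast hpp.pos
    by_cases hc : (p : ℤ) ∣ (h : ℤ) ∨ (p : ℤ) ∣ (h : ℤ) ^ 2 + 4 * a
    · rw [if_pos hc, if_pos (show Cd a p h from hc)]
      have h1 : ∏ j ∈ P.filter (fun j => j < p), (1 + if (j : ℤ) ∣ (h : ℤ) ∨
          (j : ℤ) ∣ (h : ℤ) ^ 2 + 4 * a then 4 / (j : ℝ) else 0) ≤ C1 * (p : ℝ) ^ (1 / 4 : ℝ) := by
        refine le_trans ?_ (HC p (P.filter (fun j => j < p)) hp3 fun q hq => ?_)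
        · apply Finset.prod_le_prod
          · intro q _
            split_ifs <;> positivity
          · intro q _
            split_ifs
            · exact le_rfl
            · have : (0 : ℝ) ≤ 4 / (q : ℝ) := by positivity
              linarith
        · rw [mem_filter] at hq
          exact ⟨(hP q hq.1).1, hq.2⟩
      calc 4 / (p : ℝ) * _ ≤ 4 / (p : ℝ) * (C1 * (p : ℝ) ^ (1 / 4 : ℝ)) :=
            mul_le_mul_of_nonneg_left h1 (by positivity)
        _ = 4 * C1 * (p : ℝ) ^ (-(3 / 4) : ℝ) := by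
            have e : (p : ℝ) ^ (-(3 / 4) : ℝ) = (p : ℝ) ^ (1 / 4 : ℝ) / p := by
              rw [show (-(3 / 4) : ℝ) = 1 / 4 - 1 by norm_num, Real.rpow_sub hp0, Real.rpow_one]
            rw [e]
            ring
    · rw [if_neg hc, if_neg (show ¬ Cd a p h from hc), zero_mul, mul_zero]
  have hsplit : ∀ h, ∑ p ∈ P.filter (fun p => Cd a p h), (p : ℝ) ^ (-(3 / 4) : ℝ) =
      ∑ p ∈ P.filter (fun p => p ≤ H), (if Cd a p h then (p : ℝ) ^ (-(3 / 4) : ℝ) else 0) +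
      ∑ p ∈ P.filter (fun p => H < p ∧ Cd a p h), (p : ℝ) ^ (-(3 / 4) : ℝ) := by
    intro h
    rw [← sum_filter, filter_filter]
    have e : P.filter (fun p => Cd a p h) = P.filter (fun p => p ≤ H ∧ Cd a p h) ∪
        P.filter (fun p => H < p ∧ Cd a p h) := by
      rw [← filter_or]
      refine filter_congr fun p _ => ?_
      constructor
      · intro h1
        rcases le_or_gt p H with h2 | h2
        · exact Or.inl ⟨h2, h1⟩
        · exact Or.inr ⟨h2, h1⟩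
      · rintro (h1 | h1)
        · exact h1.2
        · exact h1.2
    rw [e, sum_union]
    rw [disjoint_filter]
    intro p _ h1 h2
    omega
  -- the large primes
  have hlarge : ∀ h ∈ Icc 1 H, ∑ p ∈ P.filter (fun p => H < p ∧ Cd a p h),
      (p : ℝ) ^ (-(3 / 4) : ℝ) ≤ 3 * (H : ℝ) ^ (-(3 / 4) : ℝ) := by
    intro h hh
    rw [mem_Icc] at hh
    have h1 := few_large ha (fun p hp => (hP p hp).1) hH hh.1 hh.2
    calc ∑ p ∈ P.filter (fun p => H < p ∧ Cd a p h), (p : ℝ) ^ (-(3 / 4) : ℝ) ≤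
        ∑ p ∈ P.filter (fun p => H < p ∧ Cd a p h), (H : ℝ) ^ (-(3 / 4) : ℝ) := by
          refine sum_le_sum fun p hp => ?_
          rw [mem_filter] at hp
          apply Real.rpow_le_rpow_of_nonpos (by linarith) (by exact_mod_cast hp.2.1.le)
            (by norm_num)
      _ = ((P.filter (fun p => H < p ∧ Cd a p h)).card : ℝ) * (H : ℝ) ^ (-(3 / 4) : ℝ) := by
          rw [sum_const, nsmul_eq_mul]
      _ ≤ 3 * (H : ℝ) ^ (-(3 / 4) : ℝ) := by
          apply mul_le_mul_of_nonneg_right _ (by positivity)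
          exact_mod_cast h1
  -- the small primes
  have hsmall : ∑ h ∈ Icc 1 H, ∑ p ∈ P.filter (fun p => p ≤ H),
      (if Cd a p h then (p : ℝ) ^ (-(3 / 4) : ℝ) else 0) ≤
      6 * C2 * (H * (w : ℝ) ^ (-(1 / 4 : ℝ))) := by
    rw [sum_comm]
    have h1 : ∀ p ∈ P.filter (fun p => p ≤ H), ∑ h ∈ Icc 1 H,
        (if Cd a p h then (p : ℝ) ^ (-(3 / 4) : ℝ) else 0) ≤
        6 * H * (w : ℝ) ^ (-(1 / 4 : ℝ)) * (1 / (p : ℝ) ^ (3 / 2 : ℝ)) := by
      intro p hp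
      rw [mem_filter] at hp
      have hpp := (hP p hp.1).1
      have hp0 : (0 : ℝ) < p := by exact_mod_cast hpp.pos
      have hwp : (w : ℝ) ≤ p := by exact_mod_cast (hP p hp.1).2.le
      rw [← sum_filter, sum_const, nsmul_eq_mul]
      have h2 := cnt_Cd a hpp hp.2
      calc _ ≤ 6 * (H : ℝ) / p * (p : ℝ) ^ (-(3 / 4) : ℝ) :=
            mul_le_mul_of_nonneg_right h2 (by positivity)
        _ = 6 * H * ((p : ℝ) ^ (-(1 / 4 : ℝ)) * (1 / (p : ℝ) ^ (3 / 2 : ℝ))) := by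
            have e1 : 1 / (p : ℝ) ^ (3 / 2 : ℝ) = (p : ℝ) ^ (-(3 / 2) : ℝ) := by
              rw [Real.rpow_neg hp0.le, one_div]
            have e2 : (1 : ℝ) / p = (p : ℝ) ^ (-1 : ℝ) := by
              rw [Real.rpow_neg hp0.le, Real.rpow_one, one_div]
            have e3 : 6 * (H : ℝ) / p = 6 * H * (1 / p) := by ring
            rw [e1, e3, e2, mul_assoc, ← Real.rpow_add hp0, ← Real.rpow_add hp0]
            norm_num
        _ ≤ 6 * H * ((w : ℝ) ^ (-(1 / 4 : ℝ)) * (1 / (p : ℝ) ^ (3 / 2 : ℝ))) := by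
            apply mul_le_mul_of_nonneg_left _ (by positivity)
            apply mul_le_mul_of_nonneg_right _ (by positivity)
            exact Real.rpow_le_rpow_of_nonpos (by linarith) hwp (by norm_num)
        _ = _ := by ring
    refine (sum_le_sum h1).trans ?_
    rw [← mul_sum]
    have h2 : ∑ p ∈ P.filter (fun p => p ≤ H), 1 / (p : ℝ) ^ (3 / 2 : ℝ) ≤ C2 := by
      rw [hC2]
      exact hsum.sum_le_tsum _ fun n _ => by positivity
    calc _ ≤ 6 * H * (w : ℝ) ^ (-(1 / 4 : ℝ)) * C2 := mul_le_mul_of_nonneg_left h2 (by positivity)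
      _ = _ := by ring
  have hlarge2 : ∑ h ∈ Icc 1 H, ∑ p ∈ P.filter (fun p => H < p ∧ Cd a p h),
      (p : ℝ) ^ (-(3 / 4) : ℝ) ≤ 3 * (H : ℝ) ^ (1 / 4 : ℝ) := by
    refine (sum_le_sum hlarge).trans (le_of_eq ?_)
    rw [sum_const, nsmul_eq_mul, Nat.card_Icc, Nat.add_sub_cancel]
    have e : (H : ℝ) ^ (1 / 4 : ℝ) = H * (H : ℝ) ^ (-(3 / 4) : ℝ) := by
      rw [← Real.rpow_one_add' (by linarith) (by norm_num)]
      norm_num
    rw [e]
    ring
  calc ∑ h ∈ Icc 1 H, (KK a P h - 1) ≤ ∑ h ∈ Icc 1 H, 4 * C1 *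
        ∑ p ∈ P.filter (fun p => Cd a p h), (p : ℝ) ^ (-(3 / 4) : ℝ) :=
        sum_le_sum fun h _ => hpt h
    _ = 4 * C1 * (∑ h ∈ Icc 1 H, ∑ p ∈ P.filter (fun p => p ≤ H),
          (if Cd a p h then (p : ℝ) ^ (-(3 / 4) : ℝ) else 0) +
        ∑ h ∈ Icc 1 H, ∑ p ∈ P.filter (fun p => H < p ∧ Cd a p h), (p : ℝ) ^ (-(3 / 4) : ℝ)) := by
        rw [← mul_sum, ← sum_add_distrib]
        congr 1
        exact sum_congr rfl fun h _ => hsplit h
    _ ≤ 4 * C1 * (6 * C2 * (H * (w : ℝ) ^ (-(1 / 4 : ℝ))) + 3 * (H : ℝ) ^ (1 / 4 : ℝ)) := by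
        apply mul_le_mul_of_nonneg_left (add_le_add hsmall hlarge2) (by positivity)
    _ ≤ _ := by
        have h1 : 0 ≤ H * (w : ℝ) ^ (-(1 / 4 : ℝ)) := by positivity
        have h2 : 0 ≤ (H : ℝ) ^ (1 / 4 : ℝ) := by positivity
        have h3 : 6 * C2 * (H * (w : ℝ) ^ (-(1 / 4 : ℝ))) + 3 * (H : ℝ) ^ (1 / 4 : ℝ) ≤
            (6 * C2 + 3) * (H * (w : ℝ) ^ (-(1 / 4 : ℝ)) + (H : ℝ) ^ (1 / 4 : ℝ)) := by nlinarith
        calc _ ≤ 4 * C1 * ((6 * C2 + 3) * (H * (w : ℝ) ^ (-(1 / 4 : ℝ)) + (H : ℝ) ^ (1 / 4 : ℝ))) :=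
              mul_le_mul_of_nonneg_left h3 (by positivity)
          _ = _ := by ring

/-- **The singular series on average.** -/
theorem sing {a : ℤ} (ha : ¬ IsSquare (-a)) {η : ℝ} (hη : 0 < η) : ∃ w H0 : ℕ, ∀ H : ℕ, H0 ≤ H →
    ∀ P : Finset ℕ, (∀ p ∈ P, p.Prime) → (Icc 1 w).filter Nat.Prime ⊆ P → ∀ k ≤ H,
      ∑ h ∈ Icc 1 k, V2 a h P ≤ V1 a P ^ 2 * (k + η * H) := by
  obtain ⟨C, hC, HC⟩ := KK_avg ha
  obtain ⟨c, hc, Hc⟩ := lo_quad a ha
  -- the choice of `w`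
  have ev1 : ∀ᶠ x : ℝ in atTop, Real.log x ^ (2 : ℝ) * C / c ^ 2 * x ^ (-(1 / 4 : ℝ)) ≤ η / 3 := by
    have h := (isLittleO_log_rpow_rpow_atTop (2 : ℝ) (show (0 : ℝ) < 1 / 4 by norm_num)).bound
      (show (0 : ℝ) < η / 3 * c ^ 2 / C by positivity)
    filter_upwards [h, eventually_ge_atTop 1] with x hx hx1
    rw [Real.norm_of_nonneg (Real.rpow_nonneg (Real.log_nonneg hx1) _),
      Real.norm_of_nonneg (by positivity)] at hx
    have hx0 : (0 : ℝ) < x ^ (1 / 4 : ℝ) := by positivity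
    rw [Real.rpow_neg (by linarith), ← div_eq_mul_inv, div_le_iff₀ hx0]
    calc Real.log x ^ (2 : ℝ) * C / c ^ 2 ≤ (η / 3 * c ^ 2 / C * x ^ (1 / 4 : ℝ)) * C / c ^ 2 := by
          gcongr
      _ = _ := by field_simp
  obtain ⟨w0, hw0⟩ := eventually_atTop.1 (tendsto_natCast_atTop_atTop.eventually ev1)
  obtain ⟨w, hw⟩ : ∃ w, w = max w0 5 := ⟨_, rfl⟩
  have hw5 : 5 ≤ w := hw ▸ le_max_right _ _
  have hww := hw0 w (hw ▸ le_max_left _ _)
  obtain ⟨Pw, hPw⟩ : ∃ Pw, Pw = (Icc 1 w).filter Nat.Prime := ⟨_, rfl⟩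
  have hPwp : ∀ p ∈ Pw, p.Prime := fun p hp => by rw [hPw, mem_filter] at hp; exact hp.2
  have hVw := V1_pos a hPwp
  obtain ⟨q, hq⟩ : ∃ q, q = ∏ p ∈ Pw, p := ⟨_, rfl⟩
  have hwr : (5 : ℝ) ≤ w := by exact_mod_cast hw5
  have hlw : 0 < Real.log w := Real.log_pos (by linarith)
  have hVlow : c / Real.log w ≤ V1 a Pw := by
    refine (Hc w (by omega)).trans (le_of_eq ?_)
    unfold lo V1
    rw [← hPw]
    exact prod_congr rfl fun p _ => by rw [rr_Q1]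
  have hVinv : (V1 a Pw ^ 2)⁻¹ ≤ Real.log w ^ (2 : ℝ) / c ^ 2 := by
    rw [Real.rpow_two, ← div_pow, ← inv_pow]
    apply pow_le_pow_left₀ (by positivity)
    rw [inv_le_comm₀ hVw (by positivity), inv_div]
    exact hVlow
  obtain ⟨D, hD⟩ : ∃ D : ℝ, D = Real.log w ^ (2 : ℝ) / c ^ 2 * C := ⟨_, rfl⟩
  have hD0 : 0 ≤ D := by rw [hD]; positivity
  have ev2 : ∀ᶠ x : ℝ in atTop, D * x ^ (1 / 4 : ℝ) ≤ η / 3 * x := by
    have h : Tendsto (fun x : ℝ => x ^ (3 / 4 : ℝ)) atTop atTop := tendsto_rpow_atTop (by norm_num)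
    filter_upwards [h.eventually_ge_atTop (3 * D / η), eventually_gt_atTop 0] with x hx hx0
    have e : x = x ^ (3 / 4 : ℝ) * x ^ (1 / 4 : ℝ) := by
      rw [← Real.rpow_add hx0]
      norm_num
    have h1 : D ≤ η / 3 * x ^ (3 / 4 : ℝ) := by
      rw [div_le_iff₀ hη] at hx
      linarith
    calc D * x ^ (1 / 4 : ℝ) ≤ (η / 3 * x ^ (3 / 4 : ℝ)) * x ^ (1 / 4 : ℝ) :=
          mul_le_mul_of_nonneg_right h1 (by positivity)
      _ = η / 3 * (x ^ (3 / 4 : ℝ) * x ^ (1 / 4 : ℝ)) := by ring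
      _ = η / 3 * x := by rw [← e]
  have ev3 : ∀ᶠ x : ℝ in atTop, (q : ℝ) ≤ η / 3 * x := by
    filter_upwards [eventually_ge_atTop (3 * q / η)] with x hx
    rw [div_le_iff₀ hη] at hx
    linarith
  obtain ⟨H1, hH1⟩ := eventually_atTop.1 (tendsto_natCast_atTop_atTop.eventually (ev2.and ev3))
  refine ⟨w, max H1 (1 + 4 * a.natAbs), ?_⟩
  intro H hH P hP hwP k hk
  obtain ⟨e2, e3⟩ := hH1 H ((le_max_left _ _).trans hH)
  rw [← hPw] at hwP
  have hbig : ∀ p ∈ P \ Pw, p.Prime ∧ w < p := by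
    intro p hp
    rw [Finset.mem_sdiff, hPw, mem_filter, mem_Icc] at hp
    have hpp := hP p hp.1
    refine ⟨hpp, ?_⟩
    by_contra h
    push Not at h
    exact hp.2 ⟨⟨hpp.one_le, h⟩, hpp⟩
  have hKK1 : ∀ h, 1 ≤ KK a (P \ Pw) h := by
    intro h
    have h1 : ∏ p ∈ P \ Pw, (1 : ℝ) ≤ KK a (P \ Pw) h := by
      unfold KK
      apply Finset.prod_le_prod
      · intro _ _
        norm_num
      · intro p _
        split_ifs
        · have : (0 : ℝ) ≤ 4 / (p : ℝ) := by positivity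
          linarith
        · linarith
    rwa [prod_const_one] at h1
  have h1 := HC w H (P \ Pw) (by omega) hbig ((le_max_right _ _).trans hH)
  have h2 : ∑ h ∈ Icc 1 k, V2 a h Pw * KK a (P \ Pw) h ≤
      ((k : ℝ) + q) * V1 a Pw ^ 2 + C * (H * (w : ℝ) ^ (-(1 / 4 : ℝ)) + (H : ℝ) ^ (1 / 4 : ℝ)) := by
    have h3 : ∀ h ∈ Icc 1 k, V2 a h Pw * KK a (P \ Pw) h ≤ V2 a h Pw + (KK a (P \ Pw) h - 1) := by
      intro h _
      have h4 := V2_le_one a h hPwp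
      have h5 := V2_nonneg a h hPwp
      nlinarith [hKK1 h]
    refine (sum_le_sum h3).trans ?_
    rw [sum_add_distrib]
    apply add_le_add
    · rw [hq]
      exact V2_sum a hPwp k
    · refine le_trans ?_ h1
      apply sum_le_sum_of_subset_of_nonneg (Icc_subset_Icc_right hk)
      intro h _ _
      linarith [hKK1 h]
  have h3 : ∑ h ∈ Icc 1 k, V2 a h P ≤ (V1 a P / V1 a Pw) ^ 2 *
      ∑ h ∈ Icc 1 k, V2 a h Pw * KK a (P \ Pw) h := by
    rw [mul_sum]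
    exact sum_le_sum fun h _ => V2_le a h hP hwP fun p hp => by
      have := (hbig p hp).2
      omega
  refine h3.trans ?_
  calc (V1 a P / V1 a Pw) ^ 2 * ∑ h ∈ Icc 1 k, V2 a h Pw * KK a (P \ Pw) h ≤
      (V1 a P / V1 a Pw) ^ 2 * (((k : ℝ) + q) * V1 a Pw ^ 2 +
        C * (H * (w : ℝ) ^ (-(1 / 4 : ℝ)) + (H : ℝ) ^ (1 / 4 : ℝ))) :=
        mul_le_mul_of_nonneg_left h2 (sq_nonneg _)
    _ = V1 a P ^ 2 * (((k : ℝ) + q) + (V1 a Pw ^ 2)⁻¹ *
        (C * (H * (w : ℝ) ^ (-(1 / 4 : ℝ)) + (H : ℝ) ^ (1 / 4 : ℝ)))) := by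
        field_simp
    _ ≤ V1 a P ^ 2 * (k + η * H) := by
        apply mul_le_mul_of_nonneg_left _ (sq_nonneg _)
        have h4 : 0 ≤ C * (H * (w : ℝ) ^ (-(1 / 4 : ℝ)) + (H : ℝ) ^ (1 / 4 : ℝ)) := by positivity
        have h5 := mul_le_mul_of_nonneg_right hVinv h4
        have h6 : Real.log w ^ (2 : ℝ) / c ^ 2 *
            (C * (H * (w : ℝ) ^ (-(1 / 4 : ℝ)) + (H : ℝ) ^ (1 / 4 : ℝ))) =
            (Real.log w ^ (2 : ℝ) * C / c ^ 2 * (w : ℝ) ^ (-(1 / 4 : ℝ))) * H +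
            D * (H : ℝ) ^ (1 / 4 : ℝ) := by
          rw [hD]
          ring
        have h7 : (Real.log w ^ (2 : ℝ) * C / c ^ 2 * (w : ℝ) ^ (-(1 / 4 : ℝ))) * H ≤ η / 3 * H :=
          mul_le_mul_of_nonneg_right hww (Nat.cast_nonneg _)
        linarith

end Run7.h870.LI
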