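import Pool.Agent.Run7.h870.LI.Mom
import Pool.Agent.Run7.h870.LI.Avg

/-!
# The hypotheses on the counts, from the fundamental lemma
-/

set_option autoImplicit false
set_option linter.all false

namespace Run7.h870.LI

open Finset
open Pool.Agent.Y882
open scoped Classical

theorem rr_congr {Q Q' : ℕ → ℕ → Prop} {p : ℕ} (h : ∀ n, Q p n ↔ Q' p n) : rr Q p = rr Q' p := by
  unfold rr
  congr 1
  exact filter_congr fun n _ => h n

/-- the conditions modulo the primes for a pair -/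
def Q3 (a : ℤ) (T T' : Finset ℕ) (h p n : ℕ) : Prop :=
  if p ∈ T then Q1 a p n else if p ∈ T' then Q1 a p (n + h) else Q2 a h p n

theorem per_Q3 (a : ℤ) (T T' : Finset ℕ) (h : ℕ) : Per (Q3 a T T' h) := by
  intro p n
  unfold Q3
  split_ifs
  · exact per_Q1 a p n
  · exact per_shift (per_Q1 a) h p n
  · exact per_Q2 a h p n

theorem hyp_of : ∃ C : ℕ, 1 ≤ C ∧ ∀ (a : ℤ) (b J D : ℕ) (P P2 : Finset ℕ) (y : Finset ℕ → ℝ)
    (B0 Bt Dy : ℝ), C * 5 ≤ b → (∀ p ∈ P, p.Prime ∧ p ≤ 2 ^ 2 ^ J) →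
    (∏ p ∈ Icc 1 (C * 5), p) * (2 ^ 2 ^ J) ^ (C * b) ≤ D → (∀ p ∈ P2, p.Prime) →
    Disjoint P2 P → (∀ T, |y T| ≤ B0) →
    ((P2.powerset.filter fun T => y T ≠ 0).card : ℝ) ≤ Dy → 0 ≤ Bt →
    (∀ T ⊆ P2, y T ≠ 0 → ∏ p ∈ T, (rr (Q1 a) p : ℝ) ≤ Bt) →
    Hyp a P P2 y B0 ((1 / 2) ^ b) ((J + 1) * D ^ 2) Bt Dy := by
  obtain ⟨C, hC, HF⟩ := fll
  refine ⟨C, hC, ?_⟩
  intro a b J D P P2 y B0 Bt Dy hb hP hD hP2 hd hB hDy hBt0 hBt
  refine ⟨fun p hp => (hP p hp).1, hP2, hB, by positivity, by positivity, hDy, hBt0, hBt, ?_, ?_⟩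
  · intro T hT M L
    have h1 := HF 4 b J D P hb hP hD (Q1 a) (per_Q1 a)
      (fun p hp => (rr_Q1_le a (hP p hp).1).trans (by norm_num)) T (fun p hp => hP2 p (hT hp))
      (disjoint_of_subset_left hT hd) M L
    exact h1
  · intro T hT T' hT' hTT h M L
    have hdT : Disjoint T P := disjoint_of_subset_left hT hd
    have hdT' : Disjoint T' P := disjoint_of_subset_left hT' hd
    have r1 : ∀ p ∈ T, rr (Q3 a T T' h) p = rr (Q1 a) p := fun p hp =>
      rr_congr fun n => by unfold Q3; rw [if_pos hp]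
    have r2 : ∀ p ∈ T', rr (Q3 a T T' h) p = rr (Q1 a) p := fun p hp => by
      have hpT : p ∉ T := fun h' => (disjoint_left.1 hTT) h' hp
      rw [← rr_shift (per_Q1 a) p h]
      exact rr_congr fun n => by unfold Q3; rw [if_neg hpT, if_pos hp]
    have r3 : ∀ p ∈ P, rr (Q3 a T T' h) p = rr (Q2 a h) p := fun p hp =>
      rr_congr fun n => by
        unfold Q3
        rw [if_neg fun h' => (disjoint_left.1 hdT) h' hp,
          if_neg fun h' => (disjoint_left.1 hdT') h' hp]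
    have h1 := HF 4 b J D P hb hP hD (Q3 a T T' h) (per_Q3 a T T' h)
      (fun p hp => by
        rw [r3 p hp]
        have := rr_Q2_le a h p
        have := rr_Q1_le a (hP p hp).1
        omega) (T ∪ T') (fun p hp => by
          rcases mem_union.1 hp with hp | hp
          · exact hP2 p (hT hp)
          · exact hP2 p (hT' hp))
      (disjoint_union_left.2 ⟨hdT, hdT'⟩) M L
    have e1 : ∏ p ∈ T ∪ T', ((rr (Q3 a T T' h) p : ℝ) / p) =
        (∏ p ∈ T, gg a p) * ∏ p ∈ T', gg a p := by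
      rw [prod_union hTT]
      congr 1
      · exact prod_congr rfl fun p hp => by rw [r1 p hp, gg]
      · exact prod_congr rfl fun p hp => by rw [r2 p hp, gg]
    have e2 : ∏ p ∈ T ∪ T', (rr (Q3 a T T' h) p : ℝ) =
        (∏ p ∈ T, (rr (Q1 a) p : ℝ)) * ∏ p ∈ T', (rr (Q1 a) p : ℝ) := by
      rw [prod_union hTT]
      congr 1
      · exact prod_congr rfl fun p hp => by rw [r1 p hp]
      · exact prod_congr rfl fun p hp => by rw [r2 p hp]
    have e3 : ∏ p ∈ P, (1 - (rr (Q3 a T T' h) p : ℝ) / p) = V2 a h P :=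
      prod_congr rfl fun p hp => by rw [r3 p hp]
    have e4 : ((Ico M (M + L)).filter fun n => (∀ p ∈ T ∪ T', Q3 a T T' h p n) ∧
        ∀ p ∈ P, ¬ Q3 a T T' h p n).card = c2 a P T T' h M L := by
      rw [c2]
      congr 1
      refine filter_congr fun n _ => ?_
      have q1 : ∀ p ∈ T, (Q3 a T T' h p n ↔ Q1 a p n) := fun p hp => by
        unfold Q3
        rw [if_pos hp]
      have q2 : ∀ p ∈ T', (Q3 a T T' h p n ↔ Q1 a p (n + h)) := fun p hp => by
        have hpT : p ∉ T := fun h' => (disjoint_left.1 hTT) h' hp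
        unfold Q3
        rw [if_neg hpT, if_pos hp]
      have q3 : ∀ p ∈ P, (Q3 a T T' h p n ↔ Q2 a h p n) := fun p hp => by
        unfold Q3
        rw [if_neg fun h' => (disjoint_left.1 hdT) h' hp,
          if_neg fun h' => (disjoint_left.1 hdT') h' hp]
      constructor
      · rintro ⟨h2, h3⟩
        refine ⟨⟨fun p hp => (q1 p hp).1 (h2 p (mem_union_left _ hp)), fun p hp h4 => ?_⟩,
          fun p hp => (q2 p hp).1 (h2 p (mem_union_right _ hp)), fun p hp h4 => ?_⟩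
        · exact h3 p hp ((q3 p hp).2 (Or.inl h4))
        · exact h3 p hp ((q3 p hp).2 (Or.inr h4))
      · rintro ⟨⟨h2, h3⟩, h4, h5⟩
        refine ⟨fun p hp => ?_, fun p hp h6 => ?_⟩
        · rcases mem_union.1 hp with hp | hp
          · exact (q1 p hp).2 (h2 p hp)
          · exact (q2 p hp).2 (h4 p hp)
        · rcases (q3 p hp).1 h6 with h6 | h6
          · exact h3 p hp h6
          · exact h5 p hp h6
    rw [e1, e2, e3, e4] at h1
    exact h1

section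

variable {a : ℤ} {P P2 : Finset ℕ} {y : Finset ℕ → ℝ} {B0 δ E0 Bt Dy : ℝ}

/-- the weights in a short interval -/
noncomputable def AA (a : ℤ) (P P2 : Finset ℕ) (y : Finset ℕ → ℝ) (H n : ℕ) : ℝ :=
  ∑ j ∈ range H, ww a P P2 y (n + j)

theorem sq_expand (x : ℕ → ℝ) (H : ℕ) : (∑ j ∈ range H, x j) ^ 2 =
    ∑ j ∈ range H, x j ^ 2 + 2 * ∑ j ∈ range H, ∑ h ∈ Icc 1 j, x (j - h) * x j := by
  induction H with
  | zero => simp
  | succ H ih =>
    rw [sum_range_succ, add_sq, ih, sum_range_succ, sum_range_succ]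
    have e : ∑ h ∈ Icc 1 H, x (H - h) * x H = (∑ j ∈ range H, x j) * x H := by
      rw [← sum_mul]
      congr 1
      rw [← sum_range_reflect x H]
      refine sum_bij' (fun h _ => h - 1) (fun j _ => j + 1) ?_ ?_ ?_ ?_ ?_
      · intro h hh
        rw [mem_Icc] at hh
        rw [mem_range]
        omega
      · intro j hj
        rw [mem_range] at hj
        rw [mem_Icc]
        omega
      · intro h hh
        rw [mem_Icc] at hh
        omega
      · intro j _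
        omega
      · intro h hh
        rw [mem_Icc] at hh
        congr 1
        omega
    rw [e]
    ring

/-- **the second moment over short intervals** -/
theorem second (Hy : Hyp a P P2 y B0 δ E0 Bt Dy) {H M L : ℕ} {vm η : ℝ} (hη : 0 ≤ η)
    (hη1 : η ≤ 1 / 2)
    (hh : ∀ h ∈ Ico 1 H, ∀ p ∈ P2, ¬ ((p : ℤ) ∣ (h : ℤ) ∨ (p : ℤ) ∣ (h : ℤ) ^ 2 + 4 * a))
    (hs : ∀ k ≤ H, ∑ h ∈ Icc 1 k, V2 a h P ≤ V1 a P ^ 2 * (k + η * H))
    (hv : ∀ n ∈ Ico M (M + H + L), |vv a P2 y n| ≤ vm) (hM : 0 ≤ VV P2 y (gg a)) :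
    ∑ n ∈ Ico M (M + L), (AA a P P2 y H n - H * V1 a P * VV P2 y (gg a)) ^ 2 ≤
      L * V1 a P ^ 2 * H ^ 2 * (2 * η * VV P2 y (gg a) ^ 2 +
        4 * Sy a P2 B0 ^ 2 * (δ + ∑ p ∈ P2, gg a p ^ 2)) +
      H * (vm ^ 2 * ((1 + δ) * (L * V1 a P) + E0)) + H ^ 2 * (E0 * (B0 * Dy * Bt) ^ 2) +
      2 * H ^ 2 * V1 a P * VV P2 y (gg a) * (E0 * (B0 * Dy * Bt)) := by
  obtain ⟨V, hV⟩ : ∃ V, V = V1 a P := ⟨_, rfl⟩
  obtain ⟨My, hMy⟩ : ∃ My, My = VV P2 y (gg a) := ⟨_, rfl⟩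
  obtain ⟨S, hS⟩ : ∃ S, S = Sy a P2 B0 := ⟨_, rfl⟩
  obtain ⟨G2, hG2⟩ : ∃ G2, G2 = ∑ p ∈ P2, gg a p ^ 2 := ⟨_, rfl⟩
  obtain ⟨E2, hE2⟩ : ∃ E2, E2 = E0 * (B0 * Dy * Bt) ^ 2 := ⟨_, rfl⟩
  obtain ⟨E1, hE1⟩ : ∃ E1, E1 = E0 * (B0 * Dy * Bt) := ⟨_, rfl⟩
  obtain ⟨Dg, hDg⟩ : ∃ Dg, Dg = vm ^ 2 * ((1 + δ) * (L * V1 a P) + E0) := ⟨_, rfl⟩
  have hV0 : 0 < V := hV ▸ V1_pos a Hy.hP
  have hS0 : 0 ≤ S := hS ▸ Sy_nonneg Hy
  have hMS : My ≤ S := by
    rw [hMy, hS]
    exact (le_abs_self _).trans (My_abs Hy)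
  have hG20 : 0 ≤ G2 := hG2 ▸ sum_nonneg fun p _ => sq_nonneg _
  have hδ := Hy.hδ
  rw [← hMy] at hM
  have hL0 : (0 : ℝ) ≤ L := Nat.cast_nonneg _
  have hH0 : (0 : ℝ) ≤ H := Nat.cast_nonneg _
  obtain ⟨W, hW⟩ : ∃ W, W = My ^ 2 + S ^ 2 * (δ + G2) := ⟨_, rfl⟩
  have hW0 : 0 ≤ W := by rw [hW]; positivity
  -- the diagonal
  have d1 : ∑ j ∈ range H, ∑ n ∈ Ico M (M + L), ww a P P2 y (n + j) ^ 2 ≤ H * Dg := by
    have d2 : ∀ j ∈ range H, ∑ n ∈ Ico M (M + L), ww a P P2 y (n + j) ^ 2 ≤ Dg := by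
      intro j hj
      rw [mem_range] at hj
      rw [sum_Ico_add' (fun n => ww a P P2 y n ^ 2) M (M + L) j,
        show M + L + j = (M + j) + L by ring, hDg]
      refine diag Hy (M + j) L fun n hn => hv n ?_
      rw [mem_Ico] at hn ⊢
      omega
    refine (sum_le_sum d2).trans ?_
    rw [sum_const, nsmul_eq_mul, card_range]
  -- off the diagonal
  have o1 : ∑ j ∈ range H, ∑ h ∈ Icc 1 j, ∑ n ∈ Ico M (M + L),
      ww a P P2 y (n + (j - h)) * ww a P P2 y (n + j) ≤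
      L * V ^ 2 * (H ^ 2 * (1 / 2 + η)) * W + H ^ 2 / 2 * E2 := by
    have o2 : ∀ j ∈ range H, ∑ h ∈ Icc 1 j, ∑ n ∈ Ico M (M + L),
        ww a P P2 y (n + (j - h)) * ww a P P2 y (n + j) ≤
        L * (V ^ 2 * (j + η * H)) * W + j * E2 := by
      intro j hj
      rw [mem_range] at hj
      have o3 : ∀ h ∈ Icc 1 j, ∑ n ∈ Ico M (M + L),
          ww a P P2 y (n + (j - h)) * ww a P P2 y (n + j) ≤ L * V2 a h P * W + E2 := by
        intro h hh'
        rw [mem_Icc] at hh'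
        have e : ∀ n ∈ Ico M (M + L), ww a P P2 y (n + (j - h)) * ww a P P2 y (n + j) =
            ww a P P2 y (n + (j - h)) * ww a P P2 y (n + (j - h) + h) := by
          intro n _
          rw [show n + (j - h) + h = n + j by omega]
        rw [sum_congr rfl e,
          sum_Ico_add' (fun n => ww a P P2 y n * ww a P P2 y (n + h)) M (M + L) (j - h),
          show M + L + (j - h) = (M + (j - h)) + L by ring]
        have o4 := off Hy h (M + (j - h)) L (hh h (mem_Ico.2 ⟨hh'.1, by omega⟩))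
        rw [← hMy, ← hS, ← hG2, ← hE2, ← hW] at o4
        exact o4
      refine (sum_le_sum o3).trans ?_
      rw [sum_add_distrib, sum_const, nsmul_eq_mul, Nat.card_Icc, Nat.add_sub_cancel]
      have o5 := hs j hj.le
      have e2 : ∑ h ∈ Icc 1 j, (L : ℝ) * V2 a h P * W = L * (∑ h ∈ Icc 1 j, V2 a h P) * W := by
        rw [mul_sum, sum_mul]
      rw [e2]
      apply add_le_add _ le_rfl
      apply mul_le_mul_of_nonneg_right _ hW0
      apply mul_le_mul_of_nonneg_left _ hL0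
      rw [hV]
      exact o5
    refine (sum_le_sum o2).trans ?_
    have hsum : ∑ j ∈ range H, (j : ℝ) ≤ (H : ℝ) ^ 2 / 2 := by
      have h1 : ∀ m : ℕ, ∑ j ∈ range m, (j : ℝ) ≤ (m : ℝ) ^ 2 / 2 := by
        intro m
        induction m with
        | zero => simp
        | succ m ih =>
          rw [sum_range_succ]
          push_cast
          linarith
      exact h1 H
    have hE20 : 0 ≤ E2 := by rw [hE2]; exact mul_nonneg Hy.hE (sq_nonneg _)
    have e3 : ∑ j ∈ range H, ((L : ℝ) * (V ^ 2 * (j + η * H)) * W + j * E2) =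
        L * V ^ 2 * W * (∑ j ∈ range H, (j : ℝ)) + L * V ^ 2 * W * (H * (η * H)) +
          (∑ j ∈ range H, (j : ℝ)) * E2 := by
      rw [mul_sum, sum_mul]
      have : (L : ℝ) * V ^ 2 * W * (H * (η * H)) = ∑ j ∈ range H, L * V ^ 2 * W * (η * H) := by
        rw [sum_const, nsmul_eq_mul, card_range]
        ring
      rw [this, ← sum_add_distrib, ← sum_add_distrib]
      exact sum_congr rfl fun j _ => by ring
    rw [e3]
    have k1 := mul_le_mul_of_nonneg_left hsum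
      (show 0 ≤ (L : ℝ) * V ^ 2 * W by positivity)
    have k2 := mul_le_mul_of_nonneg_right hsum hE20
    linarith
  -- the first moment
  have f1 : H * (L * V * (My - δ * S) - E1) ≤ ∑ n ∈ Ico M (M + L), AA a P P2 y H n := by
    have f2 : ∀ j ∈ range H, L * V * (My - δ * S) - E1 ≤
        ∑ n ∈ Ico M (M + L), ww a P P2 y (n + j) := by
      intro j _
      rw [sum_Ico_add' (fun n => ww a P P2 y n) M (M + L) j,
        show M + L + j = (M + j) + L by ring, hV, hMy, hS, hE1]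
      exact first Hy (M + j) L
    unfold AA
    rw [sum_comm]
    refine le_trans (le_of_eq ?_) (sum_le_sum f2)
    rw [sum_const, nsmul_eq_mul, card_range]
  -- the square
  have s1 : ∑ n ∈ Ico M (M + L), AA a P P2 y H n ^ 2 ≤
      H * Dg + 2 * (L * V ^ 2 * (H ^ 2 * (1 / 2 + η)) * W + H ^ 2 / 2 * E2) := by
    have e : ∑ n ∈ Ico M (M + L), AA a P P2 y H n ^ 2 =
        ∑ j ∈ range H, ∑ n ∈ Ico M (M + L), ww a P P2 y (n + j) ^ 2 +
        2 * ∑ j ∈ range H, ∑ h ∈ Icc 1 j, ∑ n ∈ Ico M (M + L),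
          ww a P P2 y (n + (j - h)) * ww a P P2 y (n + j) := by
      unfold AA
      rw [sum_congr rfl fun n _ => sq_expand (fun j => ww a P P2 y (n + j)) H, sum_add_distrib,
        ← mul_sum, sum_comm]
      congr 2
      rw [sum_comm]
      refine sum_congr rfl fun j _ => ?_
      rw [sum_comm]
    rw [e]
    linarith
  have e5 : ∑ n ∈ Ico M (M + L), (AA a P P2 y H n - H * V * My) ^ 2 =
      ∑ n ∈ Ico M (M + L), AA a P P2 y H n ^ 2 -
        2 * (H * V * My) * ∑ n ∈ Ico M (M + L), AA a P P2 y H n + L * (H * V * My) ^ 2 := by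
    rw [mul_sum]
    have : (L : ℝ) * (H * V * My) ^ 2 = ∑ n ∈ Ico M (M + L), (H * V * My) ^ 2 := by
      rw [sum_const, nsmul_eq_mul, Nat.card_Ico, Nat.add_sub_cancel_left]
    rw [this, ← sum_sub_distrib, ← sum_add_distrib]
    exact sum_congr rfl fun n _ => by ring
  rw [← hV, ← hMy, ← hS, ← hG2, ← hE2, ← hE1]
  rw [← hV] at hDg
  rw [← hDg, e5]
  have k3 := mul_le_mul_of_nonneg_left f1 (show 0 ≤ 2 * (H * V * My) by positivity)
  have k4 : L * V ^ 2 * H ^ 2 * ((1 + 2 * η) * W - 2 * My * (My - δ * S) + My ^ 2) ≤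
      L * V ^ 2 * H ^ 2 * (2 * η * My ^ 2 + 4 * S ^ 2 * (δ + G2)) := by
    apply mul_le_mul_of_nonneg_left _ (by positivity)
    rw [hW]
    have k5 : My * (δ * S) ≤ S * (δ * S) := mul_le_mul_of_nonneg_right hMS (by positivity)
    have k6 : 2 * η * (S ^ 2 * (δ + G2)) ≤ 1 * (S ^ 2 * (δ + G2)) :=
      mul_le_mul_of_nonneg_right (by linarith) (by positivity)
    have k7 : 0 ≤ S ^ 2 * G2 := by positivity
    nlinarith
  linarith

end

end Run7.h870.LI
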