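import Pool.Agent.Run7.h870.LI.Par

/-!
# Many almost prime values in almost all very short intervals: the weights
-/

set_option autoImplicit false
set_option linter.all false

namespace Run7.h870.LI

open Finset Filter
open Pool.Agent.Y882
open Pool.Agent.W23.DC
open Pool.Agent.Y882.SI Pool.Agent.Y882.PX Pool.Agent.Y882.KW
open scoped Classical

theorem cheb (f : ℕ → ℝ) (s : Finset ℕ) {μ V : ℝ} (hμ : 0 < μ)
    (h : ∑ n ∈ s, (f n - μ) ^ 2 ≤ V) : ((s.filter fun n => f n ≤ μ / 2).card : ℝ) ≤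
      4 * V / μ ^ 2 := by
  have h1 : ((s.filter fun n => f n ≤ μ / 2).card : ℝ) * (μ / 2) ^ 2 ≤ V := by
    refine le_trans ?_ h
    calc ((s.filter fun n => f n ≤ μ / 2).card : ℝ) * (μ / 2) ^ 2 =
        ∑ n ∈ s.filter (fun n => f n ≤ μ / 2), (μ / 2) ^ 2 := by rw [sum_const, nsmul_eq_mul]
      _ ≤ ∑ n ∈ s.filter (fun n => f n ≤ μ / 2), (f n - μ) ^ 2 := by
          apply sum_le_sum
          intro n hn
          have h2 := (mem_filter.1 hn).2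
          nlinarith
      _ ≤ _ := sum_le_sum_of_subset_of_nonneg (filter_subset _ _) fun _ _ _ => sq_nonneg _
  rw [le_div_iff₀ (by positivity)]
  linarith

theorem evlog (C : ℝ) (k : ℕ) {s : ℝ} (hs : 0 < s) :
    ∀ᶠ X : ℕ in atTop, C * Real.log X ^ k ≤ (X : ℝ) ^ s := by
  have h1 : Tendsto (fun x : ℝ => Real.log x ^ (k : ℝ) / x ^ s) atTop (nhds 0) :=
    (isLittleO_log_rpow_rpow_atTop (k : ℝ) hs).tendsto_div_nhds_zero
  have h2 := h1.eventually_le_const (show (0 : ℝ) < 1 / (|C| + 1) by positivity)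
  have h3 := tendsto_natCast_atTop_atTop.eventually (h2.and (eventually_ge_atTop (1 : ℝ)))
  filter_upwards [h3] with X hX
  obtain ⟨h4, h5⟩ := hX
  have h6 : (0 : ℝ) < (X : ℝ) ^ s := by positivity
  rw [div_le_div_iff₀ h6 (by positivity), one_mul, Real.rpow_natCast] at h4
  have h7 : 0 ≤ Real.log X ^ k := pow_nonneg (Real.log_nonneg h5) k
  have h8 : C ≤ |C| + 1 := by linarith [le_abs_self C]
  nlinarith

/-- the main inequality -/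
theorem few_of {a : ℤ} {P P2 : Finset ℕ} {y : Finset ℕ → ℝ} {B0 δ E0 Bt Dy ε : ℝ}
    (Hy : Hyp a P P2 y B0 δ E0 Bt Dy) {H M L : ℕ} {vm η : ℝ} (hη : 0 ≤ η)
    (hη1 : η ≤ 1 / 2) (hH : 0 < H) (hL : 0 < L) (hε : 0 < ε)
    (hh : ∀ h ∈ Ico 1 H, ∀ p ∈ P2, ¬ ((p : ℤ) ∣ (h : ℤ) ∨ (p : ℤ) ∣ (h : ℤ) ^ 2 + 4 * a))
    (hs : ∀ k ≤ H, ∑ h ∈ Icc 1 k, V2 a h P ≤ V1 a P ^ 2 * (k + η * H))
    (hv : ∀ n ∈ Ico M (M + H + L), |vv a P2 y n| ≤ vm) (hM : 0 < VV P2 y (gg a))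
    (hδ1 : δ ≤ 1) (k1 : 64 * η ≤ ε)
    (k2 : Sy a P2 B0 ^ 2 * (δ + ∑ p ∈ P2, gg a p ^ 2) ≤ ε / 128 * VV P2 y (gg a) ^ 2)
    (k3 : 3 * vm ^ 2 ≤ ε / 32 * (H * V1 a P * VV P2 y (gg a) ^ 2)) (k4 : E0 ≤ L * V1 a P)
    (k5 : E0 * (B0 * Dy * Bt) ^ 2 ≤ ε / 32 * (L * (V1 a P * VV P2 y (gg a)) ^ 2))
    (k6 : 2 * (E0 * (B0 * Dy * Bt)) ≤ ε / 32 * (L * (V1 a P * VV P2 y (gg a)))) :
    (((Ico M (M + L)).filter fun n => AA a P P2 y H n ≤ H * V1 a P * VV P2 y (gg a) / 2).card : ℝ)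
      ≤ 5 * ε / 8 * L := by
  have h1 := second Hy hη hη1 hh hs hv hM.le
  obtain ⟨V, hV⟩ : ∃ V, V = V1 a P := ⟨_, rfl⟩
  obtain ⟨My, hMy⟩ : ∃ My, My = VV P2 y (gg a) := ⟨_, rfl⟩
  obtain ⟨S, hS⟩ : ∃ S, S = Sy a P2 B0 := ⟨_, rfl⟩
  obtain ⟨G2, hG2⟩ : ∃ G2, G2 = ∑ p ∈ P2, gg a p ^ 2 := ⟨_, rfl⟩
  obtain ⟨E2, hE2⟩ : ∃ E2, E2 = E0 * (B0 * Dy * Bt) ^ 2 := ⟨_, rfl⟩
  obtain ⟨E1, hE1⟩ : ∃ E1, E1 = E0 * (B0 * Dy * Bt) := ⟨_, rfl⟩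
  have hV0 : 0 < V := hV ▸ V1_pos a Hy.hP
  have hHr : (0 : ℝ) < H := by exact_mod_cast hH
  have hLr : (0 : ℝ) < L := by exact_mod_cast hL
  rw [← hMy] at hM
  rw [← hV, ← hMy, ← hS, ← hG2, ← hE2, ← hE1] at h1
  rw [← hS, ← hG2, ← hMy] at k2
  rw [← hV, ← hMy] at k3
  rw [← hV] at k4
  rw [← hV, ← hMy, ← hE2] at k5
  rw [← hV, ← hMy, ← hE1] at k6
  rw [← hV, ← hMy]
  have hμ : 0 < H * V * My := by positivity
  have h2 := cheb (fun n => AA a P P2 y H n) (Ico M (M + L)) hμ h1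
  refine h2.trans ?_
  rw [div_le_iff₀ (by positivity)]
  have t1 : L * V ^ 2 * H ^ 2 * (2 * η * My ^ 2) ≤ ε / 32 * (L * (H * V * My) ^ 2) := by
    have := mul_le_mul_of_nonneg_right k1 (show 0 ≤ L * V ^ 2 * H ^ 2 * My ^ 2 by positivity)
    linarith
  have t2 : L * V ^ 2 * H ^ 2 * (4 * S ^ 2 * (δ + G2)) ≤ ε / 32 * (L * (H * V * My) ^ 2) := by
    have := mul_le_mul_of_nonneg_left k2 (show 0 ≤ L * V ^ 2 * H ^ 2 by positivity)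
    linarith
  have t3 : H * (vm ^ 2 * ((1 + δ) * (L * V) + E0)) ≤ ε / 32 * (L * (H * V * My) ^ 2) := by
    have u1 : (1 + δ) * (L * V) + E0 ≤ 3 * (L * V) := by
      have := mul_le_mul_of_nonneg_right hδ1 (show 0 ≤ L * V by positivity)
      linarith
    have u2 := mul_le_mul_of_nonneg_left u1 (show 0 ≤ H * vm ^ 2 by positivity)
    have u3 := mul_le_mul_of_nonneg_left k3 (show 0 ≤ H * (L * V) by positivity)
    nlinarith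
  have t4 : H ^ 2 * E2 ≤ ε / 32 * (L * (H * V * My) ^ 2) := by
    have := mul_le_mul_of_nonneg_left k5 (show (0 : ℝ) ≤ H ^ 2 by positivity)
    nlinarith
  have t5 : 2 * H ^ 2 * V * My * E1 ≤ ε / 32 * (L * (H * V * My) ^ 2) := by
    have := mul_le_mul_of_nonneg_left k6 (show 0 ≤ H ^ 2 * V * My by positivity)
    nlinarith
  have t6 : L * V ^ 2 * H ^ 2 * (2 * η * My ^ 2 + 4 * S ^ 2 * (δ + G2)) =
    L * V ^ 2 * H ^ 2 * (2 * η * My ^ 2) + L * V ^ 2 * H ^ 2 * (4 * S ^ 2 * (δ + G2)) := by ring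
  rw [t6]
  linarith

end Run7.h870.LI
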