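import Pool.Agent.Run7.h870.LI.Main

/-!
# Many almost prime values in almost all very short intervals: the choice of the parameters
-/

set_option autoImplicit false
set_option linter.all false

namespace Run7.h870.LI

open Finset Filter
open Pool.Agent.Y882
open Pool.Agent.W23.DC
open Pool.Agent.Y882.SI Pool.Agent.Y882.PX Pool.Agent.Y882.KW
open scoped Classical

theorem choose_b (C : ℕ) (hC : 1 ≤ C) {κ ζ g A ε f0 : ℝ} (hκ : 0 < κ) (hζ : 0 < ζ) (hg : 0 < g)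
    (hA : 0 < A) (hε : 0 < ε) (hf : 0 < f0) : ∃ b : ℕ, C * 5 ≤ b ∧ κ / (8 * C * b) ≤ ζ ∧
      κ / (8 * C * b) ≤ g ∧ (3 * A / (κ / (8 * C * b))) ^ 2 * (1 / 2) ^ b ≤
        ε / 256 * (κ / (8 * C * b) * f0) ^ 2 := by
  have hCr : (1 : ℝ) ≤ C := by exact_mod_cast hC
  have t1 : Tendsto (fun b : ℕ => (b : ℝ) ^ 4 * (1 / 2 : ℝ) ^ b) atTop (nhds 0) :=
    tendsto_pow_const_mul_const_pow_of_abs_lt_one 4 (by rw [abs_of_pos] <;> norm_num)
  have ev1 := t1.eventually_le_const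
    (show (0 : ℝ) < ε / 256 * f0 ^ 2 * (κ / (8 * C)) ^ 4 / (9 * A ^ 2) by positivity)
  have ev2 : ∀ᶠ b : ℕ in atTop, κ / (8 * C) / ζ ≤ (b : ℝ) :=
    tendsto_natCast_atTop_atTop.eventually_ge_atTop _
  have ev3 : ∀ᶠ b : ℕ in atTop, κ / (8 * C) / g ≤ (b : ℝ) :=
    tendsto_natCast_atTop_atTop.eventually_ge_atTop _
  obtain ⟨b, h1, h2, h3, h4⟩ := (ev1.and (ev2.and (ev3.and (eventually_ge_atTop (C * 5))))).exists
  have hb : 0 < b := by omega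
  have hbr : (0 : ℝ) < b := by exact_mod_cast hb
  have e : κ / (8 * C * b) = κ / (8 * C) / b := by rw [div_div]
  refine ⟨b, h4, ?_, ?_, ?_⟩
  · rw [e, div_le_iff₀ hbr]
    rw [div_le_iff₀ hζ] at h2
    linarith
  · rw [e, div_le_iff₀ hbr]
    rw [div_le_iff₀ hg] at h3
    linarith
  · rw [e]
    obtain ⟨k, hk⟩ : ∃ k, k = κ / (8 * C) := ⟨_, rfl⟩
    have hk0 : 0 < k := by rw [hk]; positivity
    rw [← hk] at h1 ⊢
    rw [le_div_iff₀ (by positivity)] at h1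
    have h5 : (3 * A / (k / b)) ^ 2 * (1 / 2) ^ b = 9 * A ^ 2 * b ^ 2 / k ^ 2 * (1 / 2) ^ b := by
      field_simp
      ring
    rw [h5, div_mul_eq_mul_div, div_le_iff₀ (by positivity)]
    have h6 : ε / 256 * (k / b * f0) ^ 2 * k ^ 2 = (ε / 256 * f0 ^ 2 * k ^ 4) / b ^ 2 := by
      field_simp
    rw [h6, le_div_iff₀ (by positivity)]
    calc 9 * A ^ 2 * (b : ℝ) ^ 2 * (1 / 2) ^ b * b ^ 2 = b ^ 4 * (1 / 2) ^ b * (9 * A ^ 2) := by ring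
      _ ≤ _ := h1

/-- the size of the values -/
theorem size3 (a : ℤ) : ∃ X0 : ℕ, ∀ X : ℕ, X0 ≤ X → ∀ n : ℕ, n ≤ 3 * X →
    (((n : ℤ) ^ 2 + a).natAbs : ℝ) ≤ (X : ℝ) ^ (3 : ℝ) := by
  refine ⟨10 + a.natAbs, fun X hX n hn => ?_⟩
  have hXr : (10 : ℝ) + (a.natAbs : ℝ) ≤ X := by exact_mod_cast hX
  have ha0 : (0 : ℝ) ≤ (a.natAbs : ℝ) := Nat.cast_nonneg _
  have hnr : (n : ℝ) ≤ 3 * X := by exact_mod_cast hn
  have h1 : (((n : ℤ) ^ 2 + a).natAbs : ℝ) ≤ (n : ℝ) ^ 2 + a.natAbs := by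
    have h2 : ((n : ℤ) ^ 2 + a).natAbs ≤ n ^ 2 + a.natAbs := by
      refine (Int.natAbs_add_le _ _).trans (le_of_eq ?_)
      rw [Int.natAbs_pow, Int.natAbs_natCast]
    exact_mod_cast h2
  have h3 : (X : ℝ) ^ (3 : ℝ) = (X : ℝ) ^ 3 := by
    rw [← Real.rpow_natCast]
    norm_num
  rw [h3]
  refine h1.trans ?_
  have h4 : (n : ℝ) ^ 2 ≤ (3 * X) ^ 2 := pow_le_pow_left₀ (Nat.cast_nonneg _) hnr 2
  have hX2 : (1 : ℝ) ≤ (X : ℝ) ^ 2 := by nlinarith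
  have h5 : (a.natAbs : ℝ) ≤ a.natAbs * (X : ℝ) ^ 2 := le_mul_of_one_le_right ha0 hX2
  calc (n : ℝ) ^ 2 + a.natAbs ≤ (9 + a.natAbs) * (X : ℝ) ^ 2 := by nlinarith
    _ ≤ X * (X : ℝ) ^ 2 := mul_le_mul_of_nonneg_right (by linarith) (by positivity)
    _ = _ := by ring

theorem ne_zero_of {a : ℤ} (ha : ¬ IsSquare (-a)) (n : ℤ) : n ^ 2 + a ≠ 0 := by
  intro h
  exact ha ⟨n, by linarith⟩

theorem ne_zero_of4 {a : ℤ} (ha : ¬ IsSquare (-a)) (h : ℤ) : h ^ 2 + 4 * a ≠ 0 := by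
  intro h0
  have h2 : (2 : ℤ) ∣ h := by
    have h3 : (2 : ℤ) ∣ h ^ 2 := ⟨-2 * a, by linarith⟩
    exact Int.prime_two.dvd_of_dvd_pow h3
  obtain ⟨m, rfl⟩ := h2
  exact ha ⟨m, by linarith⟩

/-- no large prime divides `h` or `h ^ 2 + 4 a` -/
theorem no_common {a : ℤ} (ha : ¬ IsSquare (-a)) {ε₁ : ℝ} (hε : 0 < ε₁) : ∃ X0 : ℕ, ∀ X : ℕ,
    X0 ≤ X → ∀ υ : ℝ, ∀ H : ℕ, (H : ℝ) ≤ (X : ℝ) ^ (ε₁ / 4) → ∀ h ∈ Ico 1 H,
      ∀ p ∈ pr X ε₁ υ, ¬ ((p : ℤ) ∣ (h : ℤ) ∨ (p : ℤ) ∣ (h : ℤ) ^ 2 + 4 * a) := by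
  have ev1 : ∀ᶠ X : ℕ in atTop, 4 * (a.natAbs : ℝ) + 2 ≤ (X : ℝ) ^ (ε₁ / 4) :=
    ((tendsto_rpow_atTop (by positivity)).comp tendsto_natCast_atTop_atTop).eventually_ge_atTop _
  obtain ⟨X0, hX0⟩ := eventually_atTop.1 (ev1.and (eventually_ge_atTop 2))
  refine ⟨X0, fun X hX υ H hH h hh p hp => ?_⟩
  obtain ⟨e1, e2⟩ := hX0 X hX
  have hXr : (2 : ℝ) ≤ X := by exact_mod_cast e2
  obtain ⟨hpp, hp1, _⟩ := pr_mem X p ε₁ υ e2 hp
  rw [mem_Ico] at hh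
  have hhr : (h : ℝ) < H := by exact_mod_cast hh.2
  have hhr1 : (1 : ℝ) ≤ h := by exact_mod_cast hh.1
  obtain ⟨t, ht⟩ : ∃ t, t = (X : ℝ) ^ (ε₁ / 4) := ⟨_, rfl⟩
  have ht4 : (X : ℝ) ^ ε₁ = t ^ 4 := by
    rw [ht, ← Real.rpow_natCast, ← Real.rpow_mul (by linarith)]
    congr 1
    push_cast
    ring
  rw [← ht] at e1 hH
  rw [ht4] at hp1
  have ha0 : (0 : ℝ) ≤ (a.natAbs : ℝ) := Nat.cast_nonneg _
  have ht2 : 2 ≤ t := by linarith
  have htt : t ≤ t ^ 2 := by nlinarith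
  have htq : 4 * t ^ 2 ≤ t ^ 4 := by
    have h4 : 4 ≤ t ^ 2 := by nlinarith
    calc 4 * t ^ 2 ≤ t ^ 2 * t ^ 2 := mul_le_mul_of_nonneg_right h4 (sq_nonneg t)
      _ = t ^ 4 := by ring
  rintro (h1 | h1)
  · have h2 := Nat.le_of_dvd (by omega) (Int.natCast_dvd_natCast.1 h1)
    have h3 : (p : ℝ) ≤ h := by exact_mod_cast h2
    nlinarith
  · have h2 := Nat.le_of_dvd (Int.natAbs_pos.2 (ne_zero_of4 ha h)) (Int.natCast_dvd.1 h1)
    have h3 : ((h : ℤ) ^ 2 + 4 * a).natAbs ≤ h ^ 2 + 4 * a.natAbs := by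
      refine (Int.natAbs_add_le _ _).trans (le_of_eq ?_)
      rw [Int.natAbs_pow, Int.natAbs_natCast, Int.natAbs_mul]
      rfl
    have h4 : (p : ℝ) ≤ (h : ℝ) ^ 2 + 4 * (a.natAbs : ℝ) := by exact_mod_cast h2.trans h3
    have h5 : (h : ℝ) ^ 2 < t ^ 2 := by nlinarith
    nlinarith

open Classical in
/-- **the weights** -/
theorem many (a : ℤ) (ha : ¬ IsSquare (-a)) (τ ζ υ lam : ℝ) (hζ : 0 < ζ)
    (h2 : 2 * ζ < τ) (h4 : τ ≤ 4 * ζ) (hτ : 2 * τ < 1) (hζυ : ζ ≤ υ) (hυτ : υ < τ)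
    (hlam : 0 < lam)
    (hJ0 : ∫ x in ζ..υ, (lam - lam / υ * x) / (τ - x) / x < Real.log (τ / ζ - 1) / τ) :
    ∃ δ : ℝ, 0 < δ ∧ ∀ ε : ℝ, 0 < ε → ∃ K σ : ℝ, 0 < K ∧ 0 < σ ∧ σ ≤ 1 ∧ ∃ X0 : ℕ, ∀ X : ℕ,
      X0 ≤ X → ∀ H : ℕ, K * Real.log X ≤ H → (H : ℝ) ≤ (X : ℝ) ^ σ →
      (((Icc 1 X).filter (fun N => ((pos (QF a) X ζ υ lam (lam / υ) H N).card : ℝ) <
        δ * H / Real.log X)).card : ℝ) ≤ ε * X := by
  have hυ0 : 0 < υ := by linarith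
  have hυ1 : υ ≤ 1 := by linarith
  obtain ⟨f0, F0, hf0, hF0, HL4⟩ := lsw4 τ ζ υ lam (lam / υ) hζ h2 h4 (by linarith) hζυ hυτ
    hlam.le (by positivity) (by rw [div_mul_cancel₀ _ hυ0.ne']) hJ0
  obtain ⟨c1, hc1, HV⟩ := V1_low ha
  obtain ⟨C, hC, HH⟩ := hyp_of
  have hCr : (1 : ℝ) ≤ C := by exact_mod_cast hC
  refine ⟨c1 * f0 / 2, by positivity, ?_⟩
  intro ε hε
  obtain ⟨κ, hκ⟩ : ∃ κ : ℝ, κ = (1 - 2 * τ) / 2 := ⟨_, rfl⟩
  have hκ0 : 0 < κ := by rw [hκ]; linarith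
  have hκ1 : κ ≤ 1 / 2 := by rw [hκ]; linarith
  obtain ⟨B0, hB0⟩ : ∃ B0 : ℝ, B0 = 1 + lam := ⟨_, rfl⟩
  have hB0p : 0 < B0 := by rw [hB0]; linarith
  obtain ⟨b, hb5, hb1, hb2, hb3⟩ := choose_b C hC (κ := κ) (ζ := ζ) (g := τ - υ) (A := B0) (ε := ε)
    (f0 := f0) hκ0 hζ (by linarith) hB0p hε hf0
  have hbpos : 0 < b := by omega
  have hbr : (0 : ℝ) < b := by exact_mod_cast hbpos
  obtain ⟨ε₁, hε₁⟩ : ∃ ε₁ : ℝ, ε₁ = κ / (8 * C * b) := ⟨_, rfl⟩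
  have hε₁0 : 0 < ε₁ := by rw [hε₁]; positivity
  rw [← hε₁] at hb1 hb2 hb3
  have hε₁υ : ε₁ ≤ υ := hb1.trans hζυ
  have hε₁1 : ε₁ ≤ 1 := hε₁υ.trans hυ1
  obtain ⟨η1, hη1, HW⟩ := HL4 ε₁ hε₁0 hb1 hb2
  obtain ⟨η, hη⟩ : ∃ η : ℝ, η = min (1 / 2) (ε / 64) := ⟨_, rfl⟩
  have hη0 : 0 < η := by rw [hη]; exact lt_min (by norm_num) (by positivity)
  have hηh : η ≤ 1 / 2 := by rw [hη]; exact min_le_left _ _
  have hηε : 64 * η ≤ ε := by
    have : η ≤ ε / 64 := by rw [hη]; exact min_le_right _ _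
    linarith
  obtain ⟨w, H0, HS⟩ := sing ha hη0
  obtain ⟨m, hm⟩ := exists_nat_ge (3 / ε₁)
  obtain ⟨vm, hvm⟩ : ∃ vm : ℝ, vm = B0 * 2 ^ m := ⟨_, rfl⟩
  have hvm0 : 0 < vm := by rw [hvm]; positivity
  obtain ⟨K, hK⟩ : ∃ K : ℝ, K = 96 * vm ^ 2 / (ε * c1 * ε₁ * f0 ^ 2) := ⟨_, rfl⟩
  have hK0 : 0 < K := by rw [hK]; positivity
  refine ⟨K, ε₁ / 4, hK0, by positivity, by linarith, ?_⟩
  -- the largeness of `X`
  obtain ⟨Y1, HM⟩ := mer_quad a ha ε₁ υ (min η1 1) hε₁0 hυ1 (lt_min hη1 one_pos)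
  obtain ⟨Y2, HV2⟩ := HV ε₁ hε₁0
  obtain ⟨Y3, HJ⟩ := exJ ε₁ hε₁0
  obtain ⟨Y4, HN⟩ := no_common ha hε₁0
  obtain ⟨Y5, HS3⟩ := size3 a
  obtain ⟨N0, hN0⟩ : ∃ N0 : ℕ, N0 = ∏ p ∈ Icc 1 (C * 5), p := ⟨_, rfl⟩
  have ev1 : ∀ᶠ X : ℕ in atTop, (3 * B0 / ε₁) ^ 2 * (2 * (1 / ε₁ + 1)) /
      (ε / 256 * (ε₁ * f0) ^ 2) ≤ (X : ℝ) ^ ε₁ :=
    ((tendsto_rpow_atTop hε₁0).comp tendsto_natCast_atTop_atTop).eventually_ge_atTop _
  have ev2 := evlog (4 * (N0 : ℝ) ^ 2) 1 (show 0 < κ / 4 by positivity)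
  have ev3 := evlog (ε₁ / c1) 1 (show 0 < 1 - 3 * κ / 4 by linarith)
  have ev4 := evlog ((B0 * 2 ^ m) ^ 2 * 32 / (ε * (c1 * f0) ^ 2)) 2
    (show 0 < 5 * κ / 4 by positivity)
  have ev5 := evlog (64 * (B0 * 2 ^ m) / (ε * (c1 * f0))) 1
    (show 0 < 1 - τ - 3 * κ / 4 by linarith)
  have ev6 : ∀ᶠ X : ℕ in atTop, (w : ℝ) + 1 ≤ (X : ℝ) ^ ε₁ :=
    ((tendsto_rpow_atTop hε₁0).comp tendsto_natCast_atTop_atTop).eventually_ge_atTop _
  have ev7 : ∀ᶠ X : ℕ in atTop, ((H0 : ℝ) + 1) / K ≤ Real.log X :=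
    (Real.tendsto_log_atTop.comp tendsto_natCast_atTop_atTop).eventually_ge_atTop _
  obtain ⟨Y6, hY6⟩ := eventually_atTop.1 (ev1.and (ev2.and (ev3.and (ev4.and (ev5.and
    (ev6.and (ev7.and (eventually_ge_atTop (max 3 w)))))))))
  refine ⟨max (max (max Y1 Y2) (max Y3 Y4)) (max Y5 Y6), ?_⟩
  intro X hX H hH1 hH2
  have hX1 : Y1 ≤ X := (((le_max_left _ _).trans (le_max_left _ _)).trans (le_max_left _ _)).trans hX
  have hX2 : Y2 ≤ X := (((le_max_right _ _).trans (le_max_left _ _)).trans (le_max_left _ _)).trans hX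
  have hX3 : Y3 ≤ X := (((le_max_left _ _).trans (le_max_right _ _)).trans (le_max_left _ _)).trans hX
  have hX4 : Y4 ≤ X := (((le_max_right _ _).trans (le_max_right _ _)).trans (le_max_left _ _)).trans hX
  have hX5 : Y5 ≤ X := ((le_max_left _ _).trans (le_max_right _ _)).trans hX
  obtain ⟨e1, e2, e3, e4, e5, e6, e7, e8⟩ := hY6 X (((le_max_right _ _).trans (le_max_right _ _)).trans hX)
  have hX3' : 3 ≤ X := (le_max_left _ _).trans e8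
  have hXw : w ≤ X := (le_max_right _ _).trans e8
  have hXr : (3 : ℝ) ≤ X := by exact_mod_cast hX3'
  have hX0 : (0 : ℝ) < X := by linarith
  have hX1r : (1 : ℝ) ≤ X := by linarith
  have hlX1 : 1 ≤ Real.log X := by
    rw [Real.le_log_iff_exp_le hX0]
    linarith [Real.exp_one_lt_d9]
  have hlX : 0 < Real.log X := by linarith
  have hpw : ∀ s : ℝ, 0 < (X : ℝ) ^ s := fun s => by positivity
  obtain ⟨J, hJ1, hJ2⟩ := HJ X hX3
  obtain ⟨cU, cL, hc, hsup, hpt, hval⟩ := HW X (by omega)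
  have hmer0 := HM X hX1
  have hmer : Mer (pr X ε₁ υ) (tt X) (gg a) ε₁ υ (min η1 1) := by
    rw [gg_eq]
    exact hmer0
  have hmer1 : Mer (pr X ε₁ υ) (tt X) (gg a) ε₁ υ 1 := fun x y hx hxy hy =>
    (hmer x y hx hxy hy).trans (min_le_right _ _)
  have hmer2 : Mer (pr X ε₁ υ) (tt X) (gg a) ε₁ υ η1 := fun x y hx hxy hy =>
    (hmer x y hx hxy hy).trans (min_le_left _ _)
  have hMy := (hval (gg a) (fun p _ => gg_nonneg a p) hmer2).1
  obtain ⟨My, hMyd⟩ : ∃ My, My = VV (pr X ε₁ υ) cL (gg a) := ⟨_, rfl⟩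
  rw [← hMyd] at hMy
  have hMy0 : 0 < My := lt_of_lt_of_le (by positivity) hMy
  have hP2p : ∀ p ∈ pr X ε₁ υ, p.Prime := fun p hp => (pr_mem X p ε₁ υ (by omega) hp).1
  have hPm : ∀ p ∈ PZ X ε₁, p.Prime ∧ (p : ℝ) < (X : ℝ) ^ ε₁ := by
    intro p hp
    unfold PZ at hp
    rw [mem_filter] at hp
    exact ⟨hp.2.1, (tt_lt X p ε₁ (by omega) hp.2.1.pos).1 hp.2.2⟩
  have hdis : Disjoint (pr X ε₁ υ) (PZ X ε₁) := by
    rw [disjoint_left]
    intro p hp hp'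
    have h1 := (pr_mem X p ε₁ υ (by omega) hp).2.1
    have h3 := (hPm p hp').2
    linarith
  -- the level
  obtain ⟨D, hD⟩ : ∃ D : ℕ, D = N0 * (2 ^ 2 ^ J) ^ (C * b) := ⟨_, rfl⟩
  have hDr : (D : ℝ) ≤ N0 * (X : ℝ) ^ (κ / 4) := by
    rw [hD]
    push_cast
    apply mul_le_mul_of_nonneg_left _ (Nat.cast_nonneg _)
    calc ((2 : ℝ) ^ 2 ^ J) ^ (C * b) ≤ ((X : ℝ) ^ (2 * ε₁)) ^ (C * b) :=
          pow_le_pow_left₀ (by positivity) hJ2 _
      _ = (X : ℝ) ^ (κ / 4) := by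
          rw [← Real.rpow_natCast, ← Real.rpow_mul hX0.le]
          congr 1
          rw [hε₁]
          push_cast
          field_simp
          norm_num
  have hJlog : (J : ℝ) + 1 ≤ 4 * Real.log X := by
    have h6 := Real.log_le_log (by positivity) hJ2
    rw [Real.log_rpow (by linarith), Real.log_pow] at h6
    push_cast at h6
    have h7 : 0.69 < Real.log 2 := by linarith [Real.log_two_gt_d9]
    have h8 : (2 : ℝ) ^ J * 0.69 ≤ (2 : ℝ) ^ J * Real.log 2 :=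
      mul_le_mul_of_nonneg_left h7.le (by positivity)
    have h9 : 2 * ε₁ * Real.log X ≤ 2 * Real.log X :=
      mul_le_mul_of_nonneg_right (by linarith) hlX.le
    have h10 : (J : ℝ) + 1 ≤ 2 ^ J := by
      have : J + 1 ≤ 2 ^ J := Nat.lt_two_pow_self
      exact_mod_cast this
    linarith
  obtain ⟨E0, hE0⟩ : ∃ E0 : ℝ, E0 = ((J : ℝ) + 1) * (D : ℝ) ^ 2 := ⟨_, rfl⟩
  have hE00 : 0 ≤ E0 := by rw [hE0]; positivity
  have hE0le : E0 ≤ (X : ℝ) ^ (3 * κ / 4) := by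
    rw [pow_one] at e2
    calc E0 ≤ (4 * Real.log X) * (N0 * (X : ℝ) ^ (κ / 4)) ^ 2 := by
          rw [hE0]
          exact mul_le_mul hJlog (pow_le_pow_left₀ (Nat.cast_nonneg _) hDr 2) (by positivity)
            (by positivity)
      _ = 4 * (N0 : ℝ) ^ 2 * Real.log X * ((X : ℝ) ^ (κ / 4) * (X : ℝ) ^ (κ / 4)) := by ring
      _ ≤ (X : ℝ) ^ (κ / 4) * ((X : ℝ) ^ (κ / 4) * (X : ℝ) ^ (κ / 4)) :=
          mul_le_mul_of_nonneg_right e2 (by positivity)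
      _ = _ := by
          rw [← Real.rpow_add hX0, ← Real.rpow_add hX0]
          congr 1
          ring
  -- the hypotheses
  have hHyp : Hyp a (PZ X ε₁) (pr X ε₁ υ) cL B0 ((1 / 2) ^ b) E0 (2 ^ m) ((X : ℝ) ^ τ) := by
    rw [hE0]
    refine HH a b J D (PZ X ε₁) (pr X ε₁ υ) cL B0 (2 ^ m) ((X : ℝ) ^ τ) hb5 ?_ ?_ hP2p hdis ?_ ?_
      (by positivity) ?_
    · intro p hp
      refine ⟨(hPm p hp).1, ?_⟩
      have := (hPm p hp).2.le.trans hJ1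
      exact_mod_cast this
    · rw [hD, hN0]
    · intro T
      rw [hB0]
      exact (hc T).2
    · exact few_supp hP2p (by positivity) fun T hT hy => hsup T hT (Or.inr hy)
    · intro T hT hy
      apply prod_rr_le a fun p hp => hP2p p (hT hp)
      apply card_le_of_prod (X := X) (by omega) hε₁0
        (fun p hp => (pr_mem X p ε₁ υ (by omega) (hT hp)).2.1) (hsup T hT (Or.inr hy))
      refine le_trans ?_ hm
      exact div_le_div_of_nonneg_right (by linarith) hε₁0.le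
  -- the densities
  have hV := HV2 X hX2
  obtain ⟨V, hVd⟩ : ∃ V, V = V1 a (PZ X ε₁) := ⟨_, rfl⟩
  rw [← hVd] at hV
  have hV0 : 0 < V := lt_of_lt_of_le (by positivity) hV
  have hVM : c1 * f0 / Real.log X ≤ V * My := by
    calc c1 * f0 / Real.log X = c1 / (ε₁ * Real.log X) * (ε₁ * f0) := by field_simp
      _ ≤ V * My := mul_le_mul hV hMy (by positivity) hV0.le
  have hVM0 : 0 < V * My := by positivity
  have hHr : (0 : ℝ) < H := lt_of_lt_of_le (by positivity) hH1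
  have hH0 : 0 < H := by exact_mod_cast hHr
  have hHX : H ≤ X := by
    have h1 : (H : ℝ) ≤ X := by
      refine hH2.trans ?_
      calc (X : ℝ) ^ (ε₁ / 4) ≤ (X : ℝ) ^ (1 : ℝ) :=
            Real.rpow_le_rpow_of_exponent_le hX1r (by linarith)
        _ = X := Real.rpow_one _
    exact_mod_cast h1
  have hmain := few_of hHyp (H := H) (M := 2) (L := X) (vm := vm) (η := η) (ε := ε) hη0.le hηh hH0
    (by omega) hε
    (HN X hX4 υ H hH2)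
    (HS H (by
      have h1 : (H0 : ℝ) + 1 ≤ H := by
        rw [div_le_iff₀ hK0] at e7
        linarith
      have h3 : (H0 : ℝ) ≤ H := by linarith
      exact_mod_cast h3) (PZ X ε₁) (fun p hp => (hPm p hp).1) (by
        intro p hp
        rw [mem_filter, mem_Icc] at hp
        unfold PZ
        rw [mem_filter, mem_Icc]
        refine ⟨⟨hp.1.1, hp.1.2.trans hXw⟩, hp.2, (tt_lt X p ε₁ (by omega) hp.2.pos).2 ?_⟩
        have : (p : ℝ) ≤ w := by exact_mod_cast hp.1.2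
        linarith))
    (by
      intro n hn
      rw [mem_Ico] at hn
      rw [hvm]
      refine vv_le a (fun T => by rw [hB0]; exact (hc T).2) ?_
      exact few_div (by omega) hε₁0 hm (ne_zero_of ha n) (HS3 X hX5 n (by omega)))
    (by rw [← hMyd]; exact hMy0)
    (pow_le_one₀ (by norm_num) (by norm_num)) hηε
    (by
      rw [← hMyd]
      have hSy := Sy_le hε₁0 hε₁υ hυ1 hB0p.le hmer1
      have hSy0 := Sy_nonneg hHyp
      have hG2 := gg2_le (by omega) hε₁0 hε₁υ hυ1 hmer1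
      have hG20 : 0 ≤ ∑ p ∈ pr X ε₁ υ, gg a p ^ 2 := sum_nonneg fun p _ => sq_nonneg _
      have hMsq : (ε₁ * f0) ^ 2 ≤ My ^ 2 := pow_le_pow_left₀ (by positivity) hMy 2
      have hSsq : Sy a (pr X ε₁ υ) B0 ^ 2 ≤ (3 * B0 / ε₁) ^ 2 := pow_le_pow_left₀ hSy0 hSy 2
      have w1 : Sy a (pr X ε₁ υ) B0 ^ 2 * (1 / 2) ^ b ≤ ε / 256 * My ^ 2 := by
        calc _ ≤ (3 * B0 / ε₁) ^ 2 * (1 / 2) ^ b :=
              mul_le_mul_of_nonneg_right hSsq (by positivity)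
          _ ≤ ε / 256 * (ε₁ * f0) ^ 2 := hb3
          _ ≤ _ := mul_le_mul_of_nonneg_left hMsq (by positivity)
      have w2 : Sy a (pr X ε₁ υ) B0 ^ 2 * ∑ p ∈ pr X ε₁ υ, gg a p ^ 2 ≤ ε / 256 * My ^ 2 := by
        calc _ ≤ (3 * B0 / ε₁) ^ 2 * (2 / (X : ℝ) ^ ε₁ * (1 / ε₁ + 1)) :=
              mul_le_mul hSsq hG2 hG20 (by positivity)
          _ = (3 * B0 / ε₁) ^ 2 * (2 * (1 / ε₁ + 1)) / (X : ℝ) ^ ε₁ := by ring
          _ ≤ ε / 256 * (ε₁ * f0) ^ 2 := by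
              rw [div_le_iff₀ (hpw ε₁)]
              rw [div_le_iff₀ (by positivity)] at e1
              linarith
          _ ≤ _ := mul_le_mul_of_nonneg_left hMsq (by positivity)
      linarith)
    (by
      rw [← hMyd, ← hVd]
      have w1 : K * c1 * ε₁ * f0 ^ 2 ≤ H * V * My ^ 2 := by
        calc K * c1 * ε₁ * f0 ^ 2 =
            (K * Real.log X) * (c1 * f0 / Real.log X) * (ε₁ * f0) := by field_simp
          _ ≤ H * (V * My) * My := by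
              apply mul_le_mul _ hMy (by positivity) (by positivity)
              exact mul_le_mul hH1 hVM (by positivity) hHr.le
          _ = _ := by ring
      have w2 : 3 * vm ^ 2 = ε / 32 * (K * c1 * ε₁ * f0 ^ 2) := by
        rw [hK]
        field_simp
        norm_num
      rw [w2]
      exact mul_le_mul_of_nonneg_left w1 (by positivity))
    (by
      rw [← hVd]
      refine hE0le.trans ?_
      rw [pow_one] at e3
      have w1 : (X : ℝ) ^ (3 * κ / 4) * (X : ℝ) ^ (1 - 3 * κ / 4) = X := by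
        rw [← Real.rpow_add hX0]
        conv_rhs => rw [← Real.rpow_one (X : ℝ)]
        congr 1
        ring
      have w3 : 1 ≤ (X : ℝ) ^ (1 - 3 * κ / 4) * V := by
        calc (1 : ℝ) = (ε₁ / c1 * Real.log X) * (c1 / (ε₁ * Real.log X)) := by field_simp
          _ ≤ _ := mul_le_mul e3 hV (by positivity) (hpw _).le
      calc (X : ℝ) ^ (3 * κ / 4) = (X : ℝ) ^ (3 * κ / 4) * 1 := (mul_one _).symm
        _ ≤ (X : ℝ) ^ (3 * κ / 4) * ((X : ℝ) ^ (1 - 3 * κ / 4) * V) :=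
            mul_le_mul_of_nonneg_left w3 (hpw _).le
        _ = ((X : ℝ) ^ (3 * κ / 4) * (X : ℝ) ^ (1 - 3 * κ / 4)) * V := by ring
        _ = _ := by rw [w1])
    (by
      rw [← hMyd, ← hVd]
      have w1 : (X : ℝ) ^ (3 * κ / 4) * ((X : ℝ) ^ τ) ^ 2 * (X : ℝ) ^ (5 * κ / 4) = X := by
        rw [← Real.rpow_natCast ((X : ℝ) ^ τ), ← Real.rpow_mul hX0.le, ← Real.rpow_add hX0,
          ← Real.rpow_add hX0]
        conv_rhs => rw [← Real.rpow_one (X : ℝ)]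
        congr 1
        rw [hκ]
        push_cast
        ring
      have w2 : (c1 * f0 / Real.log X) ^ 2 ≤ (V * My) ^ 2 :=
        pow_le_pow_left₀ (by positivity) hVM 2
      have w3 : (B0 * 2 ^ m) ^ 2 ≤ ε / 32 * (X : ℝ) ^ (5 * κ / 4) * (V * My) ^ 2 := by
        calc (B0 * 2 ^ m) ^ 2 = ε / 32 * ((B0 * 2 ^ m) ^ 2 * 32 / (ε * (c1 * f0) ^ 2) *
              Real.log X ^ 2) * (c1 * f0 / Real.log X) ^ 2 := by field_simp
          _ ≤ _ := by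
              apply mul_le_mul _ w2 (by positivity) (by positivity)
              exact mul_le_mul_of_nonneg_left e4 (by positivity)
      calc E0 * (B0 * (X : ℝ) ^ τ * 2 ^ m) ^ 2 ≤
          (X : ℝ) ^ (3 * κ / 4) * (B0 * (X : ℝ) ^ τ * 2 ^ m) ^ 2 :=
            mul_le_mul_of_nonneg_right hE0le (by positivity)
        _ = ((X : ℝ) ^ (3 * κ / 4) * ((X : ℝ) ^ τ) ^ 2) * (B0 * 2 ^ m) ^ 2 := by ring
        _ ≤ ((X : ℝ) ^ (3 * κ / 4) * ((X : ℝ) ^ τ) ^ 2) *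
            (ε / 32 * (X : ℝ) ^ (5 * κ / 4) * (V * My) ^ 2) :=
            mul_le_mul_of_nonneg_left w3 (by positivity)
        _ = ε / 32 * (((X : ℝ) ^ (3 * κ / 4) * ((X : ℝ) ^ τ) ^ 2 * (X : ℝ) ^ (5 * κ / 4)) *
            (V * My) ^ 2) := by ring
        _ = _ := by rw [w1])
    (by
      rw [← hMyd, ← hVd]
      rw [pow_one] at e5
      have w1 : (X : ℝ) ^ (3 * κ / 4) * (X : ℝ) ^ τ * (X : ℝ) ^ (1 - τ - 3 * κ / 4) = X := by
        rw [← Real.rpow_add hX0, ← Real.rpow_add hX0]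
        conv_rhs => rw [← Real.rpow_one (X : ℝ)]
        congr 1
        ring
      have w3 : 2 * (B0 * 2 ^ m) ≤ ε / 32 * (X : ℝ) ^ (1 - τ - 3 * κ / 4) * (V * My) := by
        calc 2 * (B0 * 2 ^ m) = ε / 32 * (64 * (B0 * 2 ^ m) / (ε * (c1 * f0)) *
              Real.log X) * (c1 * f0 / Real.log X) := by
                field_simp
                norm_num
          _ ≤ _ := by
              apply mul_le_mul _ hVM (by positivity) (by positivity)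
              exact mul_le_mul_of_nonneg_left e5 (by positivity)
      calc 2 * (E0 * (B0 * (X : ℝ) ^ τ * 2 ^ m)) ≤
          2 * ((X : ℝ) ^ (3 * κ / 4) * (B0 * (X : ℝ) ^ τ * 2 ^ m)) :=
            mul_le_mul_of_nonneg_left (mul_le_mul_of_nonneg_right hE0le (by positivity))
              (by norm_num)
        _ = ((X : ℝ) ^ (3 * κ / 4) * (X : ℝ) ^ τ) * (2 * (B0 * 2 ^ m)) := by ring
        _ ≤ ((X : ℝ) ^ (3 * κ / 4) * (X : ℝ) ^ τ) *
            (ε / 32 * (X : ℝ) ^ (1 - τ - 3 * κ / 4) * (V * My)) :=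
            mul_le_mul_of_nonneg_left w3 (by positivity)
        _ = ε / 32 * (((X : ℝ) ^ (3 * κ / 4) * (X : ℝ) ^ τ * (X : ℝ) ^ (1 - τ - 3 * κ / 4)) *
            (V * My)) := by ring
        _ = _ := by rw [w1])
  have hfin : (5 * ε / 8) * (X : ℝ) ≤ ε * X := mul_le_mul_of_nonneg_right (by linarith) hX0.le
  refine le_trans ?_ (hmain.trans hfin)
  have hcard : ((Icc 1 X).filter (fun N => ((pos (QF a) X ζ υ lam (lam / υ) H N).card : ℝ) <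
        c1 * f0 / 2 * H / Real.log X)).card ≤
      ((Ico 2 (2 + X)).filter fun n => AA a (PZ X ε₁) (pr X ε₁ υ) cL H n ≤
        H * V1 a (PZ X ε₁) * VV (pr X ε₁ υ) cL (gg a) / 2).card := by
    apply card_le_card_of_injOn (fun N => N + 1)
    · intro N hN
      rw [mem_coe, mem_filter, mem_Icc] at hN
      show N + 1 ∈ _
      rw [mem_coe, mem_filter, mem_Ico]
      refine ⟨⟨by omega, by omega⟩, ?_⟩
      have h1 := AA_le (a := a) (X := X) (ε₁ := ε₁) (ζ := ζ) (υ := υ) (aw := lam) (bw := lam / υ)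
        hb1 (by positivity) (by rw [div_mul_cancel₀ _ hυ0.ne']) (y := cL) (fun N => (hpt N).1) H N
      refine h1.trans (hN.2.le.trans ?_)
      rw [← hMyd, ← hVd]
      calc c1 * f0 / 2 * H / Real.log X = H / 2 * (c1 * f0 / Real.log X) := by ring
        _ ≤ H / 2 * (V * My) := mul_le_mul_of_nonneg_left hVM (by positivity)
        _ = _ := by ring
    · intro x _ y _ hxy
      simpa using hxy
  exact_mod_cast hcard

end Run7.h870.LI
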