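import Pool.Agent.Run7.h870.LI.Crt
import Pool.Agent.Y882.FLW
import Pool.Agent.Y882.LSW

/-!
# The fundamental lemma of the sieve as an asymptotic formula, with conditions modulo further primes
-/

set_option autoImplicit false
set_option linter.all false

namespace Run7.h870.LI

open Finset
open Pool.Agent.Y882
open scoped Classical

theorem VV_hcongr (P : Finset ℕ) (c : Finset ℕ → ℝ) {h h' : ℕ → ℝ} (hh : ∀ p ∈ P, h p = h' p) :
    VV P c h = VV P c h' := by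
  unfold VV
  refine sum_congr rfl fun T hT => ?_
  rw [prod_congr rfl fun p hp => hh p (mem_powerset.1 hT hp)]

theorem ind_prod (T : Finset ℕ) (q : ℕ → Prop) :
    ∏ p ∈ T, (if q p then (1 : ℝ) else 0) = if ∀ p ∈ T, q p then 1 else 0 := by
  rw [Finset.prod_ite_zero]
  simp

theorem compl_prod (T : Finset ℕ) (q : ℕ → Prop) :
    ∏ p ∈ T, (1 - (if q p then (1 : ℝ) else 0)) = if ∀ p ∈ T, ¬ q p then 1 else 0 := by
  by_cases h : ∀ p ∈ T, ¬ q p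
  · rw [if_pos h]
    refine prod_eq_one fun p hp => ?_
    rw [if_neg (h p hp), sub_zero]
  · rw [if_neg h]
    push Not at h
    obtain ⟨p, hp, hq⟩ := h
    refine prod_eq_zero hp ?_
    rw [if_pos hq, sub_self]

theorem few_sets (P : Finset ℕ) (hP : ∀ p ∈ P, p.Prime) (D : ℕ) :
    ((P.powerset.filter fun T => ∏ p ∈ T, p ≤ D).card : ℝ) ≤ D := by
  have h : (P.powerset.filter fun T => ∏ p ∈ T, p ≤ D).card ≤ (Icc 1 D).card := by
    refine card_le_card_of_injOn (fun T => ∏ p ∈ T, p) (fun T hT => ?_) (fun T hT T' hT' h => ?_)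
    · rw [mem_coe, mem_filter, mem_powerset] at hT
      rw [mem_coe, mem_Icc]
      exact ⟨prod_pos fun p hp => (hP p (hT.1 hp)).pos, hT.2⟩
    · rw [mem_coe, mem_filter, mem_powerset] at hT hT'
      exact prod_inj P hP hT.1 hT'.1 h
  rw [Nat.card_Icc, Nat.add_sub_cancel] at h
  exact_mod_cast h

/-- sums of sieve weights over an interval -/
theorem sum_VV {Q : ℕ → ℕ → Prop} (hQ : Per Q) (S P : Finset ℕ) (hS : ∀ p ∈ S, p.Prime)
    (hP : ∀ p ∈ P, p.Prime) (hd : Disjoint S P) (W : Finset ℕ → ℝ) (K : ℝ) (D : ℕ)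
    (hK : ∀ T, |W T| ≤ K) (hD : ∀ T ⊆ P, W T ≠ 0 → ∏ p ∈ T, p ≤ D) (M L : ℕ) :
    |(∑ n ∈ (Ico M (M + L)).filter (fun n => ∀ p ∈ S, Q p n),
        VV P W (fun p => if Q p n then 1 else 0)) -
      L * (∏ p ∈ S, ((rr Q p : ℝ) / p)) * VV P W (fun p => (rr Q p : ℝ) / p)| ≤
      K * D ^ 2 * ∏ p ∈ S, (rr Q p : ℝ) := by
  have hK0 : 0 ≤ K := (abs_nonneg _).trans (hK ∅)
  have e1 : (∑ n ∈ (Ico M (M + L)).filter (fun n => ∀ p ∈ S, Q p n),
        VV P W (fun p => if Q p n then 1 else 0)) =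
      ∑ T ∈ P.powerset, W T * (((Ico M (M + L)).filter fun n => ∀ p ∈ S ∪ T, Q p n).card : ℝ) := by
    unfold VV
    rw [sum_comm]
    refine sum_congr rfl fun T hT => ?_
    rw [← mul_sum]
    congr 1
    have e2 : (Ico M (M + L)).filter (fun n => ∀ p ∈ S ∪ T, Q p n) =
        ((Ico M (M + L)).filter (fun n => ∀ p ∈ S, Q p n)).filter (fun n => ∀ p ∈ T, Q p n) := by
      rw [filter_filter]
      refine filter_congr fun n _ => ?_
      constructor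
      · intro h
        exact ⟨fun p hp => h p (mem_union_left _ hp), fun p hp => h p (mem_union_right _ hp)⟩
      · rintro ⟨h1, h2⟩ p hp
        rcases mem_union.1 hp with hp | hp
        · exact h1 p hp
        · exact h2 p hp
    rw [e2, card_filter]
    push_cast
    exact sum_congr rfl fun n _ => ind_prod T fun p => Q p n
  have e3 : L * (∏ p ∈ S, ((rr Q p : ℝ) / p)) * VV P W (fun p => (rr Q p : ℝ) / p) =
      ∑ T ∈ P.powerset, W T * (L * ∏ p ∈ S ∪ T, ((rr Q p : ℝ) / p)) := by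
    unfold VV
    rw [mul_sum]
    refine sum_congr rfl fun T hT => ?_
    rw [prod_union (disjoint_of_subset_right (mem_powerset.1 hT) hd)]
    ring
  rw [e1, e3, ← sum_sub_distrib]
  have hcoef : ∀ T ∈ P.powerset, |W T * (((Ico M (M + L)).filter fun n =>
      ∀ p ∈ S ∪ T, Q p n).card : ℝ) - W T * (L * ∏ p ∈ S ∪ T, ((rr Q p : ℝ) / p))| ≤
      if ∏ p ∈ T, p ≤ D then K * (D * ∏ p ∈ S, (rr Q p : ℝ)) else 0 := by
    intro T hT
    rw [mem_powerset] at hT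
    rw [← mul_sub, abs_mul]
    by_cases h0 : W T = 0
    · rw [h0, abs_zero, zero_mul]
      split_ifs
      · exact mul_nonneg hK0 (mul_nonneg (Nat.cast_nonneg _) (prod_nonneg fun _ _ =>
          Nat.cast_nonneg _))
      · exact le_rfl
    · rw [if_pos (hD T hT h0)]
      have h1 := crt_count hQ (S ∪ T) (fun p hp => by
        rcases mem_union.1 hp with hp | hp
        · exact hS p hp
        · exact hP p (hT hp)) M L
      refine mul_le_mul (hK T) (h1.trans ?_) (abs_nonneg _) hK0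
      rw [prod_union (disjoint_of_subset_right hT hd), mul_comm]
      refine mul_le_mul_of_nonneg_right ?_ (prod_nonneg fun _ _ => Nat.cast_nonneg _)
      have h2 : ∏ p ∈ T, rr Q p ≤ D :=
        (prod_le_prod' fun p _ => rr_le Q p).trans (hD T hT h0)
      exact_mod_cast h2
  refine (abs_sum_le_sum_abs _ _).trans ((sum_le_sum hcoef).trans ?_)
  rw [← sum_filter, sum_const, nsmul_eq_mul]
  have h3 := few_sets P hP D
  have h4 : 0 ≤ K * (D * ∏ p ∈ S, (rr Q p : ℝ)) :=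
    mul_nonneg hK0 (mul_nonneg (Nat.cast_nonneg _) (prod_nonneg fun _ _ => Nat.cast_nonneg _))
  calc _ ≤ (D : ℝ) * (K * (D * ∏ p ∈ S, (rr Q p : ℝ))) := mul_le_mul_of_nonneg_right h3 h4
    _ = _ := by ring

/-- **The fundamental lemma.** -/
theorem fll : ∃ C : ℕ, 1 ≤ C ∧ ∀ (κ b J D : ℕ) (P : Finset ℕ), C * (κ + 1) ≤ b →
    (∀ p ∈ P, p.Prime ∧ p ≤ 2 ^ 2 ^ J) →
    (∏ p ∈ Icc 1 (C * (κ + 1)), p) * (2 ^ 2 ^ J) ^ (C * b) ≤ D →
    ∀ Q : ℕ → ℕ → Prop, Per Q → (∀ p ∈ P, rr Q p ≤ κ) → ∀ S : Finset ℕ, (∀ p ∈ S, p.Prime) →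
      Disjoint S P → ∀ M L : ℕ,
      |(((Ico M (M + L)).filter fun n => (∀ p ∈ S, Q p n) ∧ ∀ p ∈ P, ¬ Q p n).card : ℝ) -
        L * (∏ p ∈ S, ((rr Q p : ℝ) / p)) * ∏ p ∈ P, (1 - (rr Q p : ℝ) / p)| ≤
      (1 / 2) ^ b * (L * (∏ p ∈ S, ((rr Q p : ℝ) / p)) * ∏ p ∈ P, (1 - (rr Q p : ℝ) / p)) +
        (J + 1) * D ^ 2 * ∏ p ∈ S, (rr Q p : ℝ) := by
  obtain ⟨C, hC1, HF⟩ := flw
  refine ⟨C, hC1, ?_⟩
  intro κ b J D P hb hP hD Q hQ hκ S hS hd M L
  obtain ⟨z0, hz0⟩ : ∃ z0, z0 = C * (κ + 1) := ⟨_, rfl⟩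
  rw [← hz0] at hb hD
  obtain ⟨P0, hP0⟩ : ∃ P0, P0 = P.filter (fun p => p ≤ z0) := ⟨_, rfl⟩
  obtain ⟨P1, hP1⟩ : ∃ P1, P1 = P.filter (fun p => ¬ p ≤ z0) := ⟨_, rfl⟩
  have hU : P0 ∪ P1 = P := by rw [hP0, hP1]; exact filter_union_filter_not_eq _ _
  have hd01 : Disjoint P0 P1 := by rw [hP0, hP1]; exact disjoint_filter_filter_not _ _ _
  have hs1 : P1 ⊆ P := by rw [hP1]; exact filter_subset _ _
  have hs0 : P0 ⊆ P := by rw [hP0]; exact filter_subset _ _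
  obtain ⟨cU, cL, g1, g2, g3, g4⟩ := HF κ b J z0 P1 (hz0 ▸ hb) hz0.ge (by
    intro p hp
    rw [hP1, mem_filter] at hp
    exact ⟨(hP p hp.1).1, by omega, (hP p hp.1).2⟩)
  obtain ⟨W, hW⟩ : ∃ W : (Finset ℕ → ℝ) → Finset ℕ → ℝ,
    W = fun α T => (-1) ^ (T ∩ P0).card * α (T ∩ P1) := ⟨_, rfl⟩
  have hVW : ∀ (α : Finset ℕ → ℝ) (h : ℕ → ℝ), VV P (W α) h =
      (∏ p ∈ P0, (1 - h p)) * VV P1 α h := by
    intro α h
    have h7 := VV_union P0 P1 hd01 (fun U => (-1) ^ U.card) α h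
    rw [VV_mu, hU] at h7
    rw [hW]
    exact h7
  have hWK : ∀ α : Finset ℕ → ℝ, (∀ T, |α T| ≤ J + 1) → ∀ T, |W α T| ≤ (J : ℝ) + 1 := by
    intro α hα T
    rw [hW]
    simp only
    rw [abs_mul, abs_neg_one_pow, one_mul]
    exact hα _
  have hWD : ∀ α : Finset ℕ → ℝ, (∀ T ⊆ P1, α T ≠ 0 → ∏ p ∈ T, p ≤ (2 ^ 2 ^ J) ^ (C * b)) →
      ∀ T ⊆ P, W α T ≠ 0 → ∏ p ∈ T, p ≤ D := by
    intro α hα T hT hne
    have h6 : α (T ∩ P1) ≠ 0 := by
      intro h0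
      apply hne
      rw [hW]
      simp only
      rw [h0, mul_zero]
    have h7 := hα _ inter_subset_right h6
    have h8 : T = (T ∩ P0) ∪ (T ∩ P1) := by
      rw [← inter_union_distrib_left, hU]
      exact (inter_eq_left.2 hT).symm
    have h9 : Disjoint (T ∩ P0) (T ∩ P1) :=
      disjoint_of_subset_left inter_subset_right (disjoint_of_subset_right inter_subset_right hd01)
    have h10 : ∏ p ∈ T ∩ P0, p ≤ ∏ p ∈ Icc 1 z0, p := by
      apply prod_le_prod_of_subset_of_one_le'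
      · intro p hp
        have h11 := (mem_inter.1 hp).2
        rw [hP0, mem_filter] at h11
        exact mem_Icc.2 ⟨(hP p h11.1).1.pos, h11.2⟩
      · intro p hp _
        exact (mem_Icc.1 hp).1
    rw [h8, prod_union h9]
    exact (Nat.mul_le_mul h10 h7).trans hD
  -- the pointwise inequalities
  have hpt : ∀ n : ℕ, VV P (W cL) (fun p => if Q p n then 1 else 0) ≤
      (if ∀ p ∈ P, ¬ Q p n then 1 else 0) ∧ (if ∀ p ∈ P, ¬ Q p n then (1 : ℝ) else 0) ≤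
      VV P (W cU) (fun p => if Q p n then 1 else 0) := by
    intro n
    rw [hVW, hVW, compl_prod]
    obtain ⟨N, hN⟩ : ∃ N, N = ∏ p ∈ P1.filter (fun p => Q p n), p := ⟨_, rfl⟩
    have hdiv : ∀ p ∈ P1, (p ∣ N ↔ Q p n) := by
      intro p hp
      have hpp := (hP p (hs1 hp)).1
      constructor
      · intro h
        rw [hN] at h
        obtain ⟨q, hq, hpq⟩ := (Prime.dvd_finsetProd_iff hpp.prime _).1 h
        rw [mem_filter] at hq
        have : p = q := (Nat.prime_dvd_prime_iff_eq hpp (hP q (hs1 hq.1)).1).1 hpq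
        rw [this]
        exact hq.2
      · intro h
        rw [hN]
        exact dvd_prod_of_mem _ (mem_filter.2 ⟨hp, h⟩)
    have e1 : ∀ α : Finset ℕ → ℝ, VV P1 α (fun p => if Q p n then 1 else 0) =
        VV P1 α (fun p => if p ∣ N then 1 else 0) := fun α => VV_hcongr P1 α fun p hp => by
      by_cases h : Q p n
      · rw [if_pos h, if_pos ((hdiv p hp).2 h)]
      · rw [if_neg h, if_neg fun h' => h ((hdiv p hp).1 h')]
    obtain ⟨g5, g6⟩ := g3 N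
    have e2 : (∀ p ∈ P1, ¬ p ∣ N) ↔ ∀ p ∈ P1, ¬ Q p n := by
      refine forall₂_congr fun p hp => ?_
      rw [hdiv p hp]
    have e3 : (∀ p ∈ P, ¬ Q p n) ↔ (∀ p ∈ P0, ¬ Q p n) ∧ ∀ p ∈ P1, ¬ Q p n := by
      constructor
      · intro h
        exact ⟨fun p hp => h p (hs0 hp), fun p hp => h p (hs1 hp)⟩
      · rintro ⟨h1, h2⟩ p hp
        rw [← hU] at hp
        rcases mem_union.1 hp with hp | hp
        · exact h1 p hp
        · exact h2 p hp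
    rw [e1, e1]
    by_cases c0 : ∀ p ∈ P0, ¬ Q p n
    · rw [if_pos c0, one_mul, one_mul]
      by_cases c1 : ∀ p ∈ P1, ¬ Q p n
      · rw [if_pos (e2.2 c1)] at g5 g6
        rw [if_pos (e3.2 ⟨c0, c1⟩)]
        exact ⟨g5, g6⟩
      · rw [if_neg fun h => c1 (e2.1 h)] at g5 g6
        rw [if_neg fun h => c1 (e3.1 h).2]
        exact ⟨g5, g6⟩
    · rw [if_neg c0, if_neg fun h => c0 (e3.1 h).1, zero_mul, zero_mul]
      exact ⟨le_rfl, le_rfl⟩
  -- the densities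
  obtain ⟨g, hg⟩ : ∃ g : ℕ → ℝ, g = fun p => (rr Q p : ℝ) / p := ⟨_, rfl⟩
  have hg01 : ∀ p ∈ P, 0 ≤ 1 - g p := by
    intro p hp
    have hp0 : (0 : ℝ) < p := by exact_mod_cast (hP p hp).1.pos
    have h1 : (rr Q p : ℝ) ≤ p := by exact_mod_cast rr_le Q p
    rw [hg]
    simp only
    rw [sub_nonneg, div_le_one hp0]
    exact h1
  obtain ⟨a1, a2, a3, a4⟩ := g4 g (fun p hp => by
    have hp2 : (2 : ℝ) ≤ p := by exact_mod_cast (hP p (hs1 hp)).1.two_le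
    have h1 : (rr Q p : ℝ) ≤ κ := by exact_mod_cast hκ p (hs1 hp)
    rw [hg]
    refine ⟨by positivity, ?_⟩
    apply div_le_div₀ (Nat.cast_nonneg _) h1 (by linarith) (by linarith))
  obtain ⟨V0, hV0⟩ : ∃ V0, V0 = ∏ p ∈ P0, (1 - g p) := ⟨_, rfl⟩
  obtain ⟨V1, hV1⟩ : ∃ V1, V1 = ∏ p ∈ P1, (1 - g p) := ⟨_, rfl⟩
  have hV : ∏ p ∈ P, (1 - g p) = V0 * V1 := by rw [hV0, hV1, ← prod_union hd01, hU]
  have hV0n : 0 ≤ V0 := hV0 ▸ prod_nonneg fun p hp => hg01 p (hs0 hp)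
  rw [← hV1] at a1 a3 a4
  have key : ∀ (α : Finset ℕ → ℝ), (∀ T, |α T| ≤ J + 1) →
      (∀ T ⊆ P1, α T ≠ 0 → ∏ p ∈ T, p ≤ (2 ^ 2 ^ J) ^ (C * b)) →
      |(∑ n ∈ (Ico M (M + L)).filter (fun n => ∀ p ∈ S, Q p n),
        VV P (W α) (fun p => if Q p n then 1 else 0)) -
      L * (∏ p ∈ S, g p) * (V0 * VV P1 α g)| ≤ ((J : ℝ) + 1) * D ^ 2 * ∏ p ∈ S, (rr Q p : ℝ) := by
    intro α h1 h2
    have h3 := sum_VV hQ S P hS (fun p hp => (hP p hp).1) hd (W α) (J + 1) D (hWK α h1)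
      (hWD α h2) M L
    rw [hVW α (fun p => (rr Q p : ℝ) / p)] at h3
    rw [hV0, hg]
    exact h3
  have k1 := key cL (fun T => (g1 T).2) (fun T hT h => g2 T hT (Or.inr h))
  have k2 := key cU (fun T => ((g1 T).1).trans (by
    have : (0 : ℝ) ≤ J := Nat.cast_nonneg _
    linarith)) (fun T hT h => g2 T hT (Or.inl h))
  have hcnt : ((((Ico M (M + L)).filter fun n => (∀ p ∈ S, Q p n) ∧ ∀ p ∈ P, ¬ Q p n).card : ℕ) : ℝ) =
      ∑ n ∈ (Ico M (M + L)).filter (fun n => ∀ p ∈ S, Q p n),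
        (if ∀ p ∈ P, ¬ Q p n then (1 : ℝ) else 0) := by
    rw [← filter_filter, card_filter]
    push_cast
    rfl
  have l1 : (∑ n ∈ (Ico M (M + L)).filter (fun n => ∀ p ∈ S, Q p n),
        VV P (W cL) (fun p => if Q p n then 1 else 0)) ≤
      ((((Ico M (M + L)).filter fun n => (∀ p ∈ S, Q p n) ∧ ∀ p ∈ P, ¬ Q p n).card : ℕ) : ℝ) := by
    rw [hcnt]
    exact sum_le_sum fun n _ => (hpt n).1
  have l2 : ((((Ico M (M + L)).filter fun n => (∀ p ∈ S, Q p n) ∧ ∀ p ∈ P, ¬ Q p n).card : ℕ) : ℝ) ≤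
      ∑ n ∈ (Ico M (M + L)).filter (fun n => ∀ p ∈ S, Q p n),
        VV P (W cU) (fun p => if Q p n then 1 else 0) := by
    rw [hcnt]
    exact sum_le_sum fun n _ => (hpt n).2
  have hgs : ∏ p ∈ S, ((rr Q p : ℝ) / p) = ∏ p ∈ S, g p := by rw [hg]
  have hgp : ∏ p ∈ P, (1 - (rr Q p : ℝ) / p) = V0 * V1 := by rw [← hV, hg]
  rw [hgs, hgp]
  obtain ⟨Ls, hLs⟩ : ∃ Ls : ℝ, Ls = L * ∏ p ∈ S, g p := ⟨_, rfl⟩
  have hLs0 : 0 ≤ Ls * V0 := by
    rw [hLs]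
    refine mul_nonneg (mul_nonneg (Nat.cast_nonneg _) (prod_nonneg fun p _ => ?_)) hV0n
    rw [hg]
    positivity
  rw [← hLs] at k1 k2 ⊢
  have m1 : Ls * V0 * ((1 - (1 / 2) ^ b) * V1) ≤ Ls * V0 * VV P1 cL g :=
    mul_le_mul_of_nonneg_left a1 hLs0
  have m2 : Ls * V0 * VV P1 cU g ≤ Ls * V0 * ((1 + (1 / 2) ^ b) * V1) :=
    mul_le_mul_of_nonneg_left a4 hLs0
  rw [abs_le] at k1 k2 ⊢
  constructor
  · linarith [k1.1]
  · linarith [k2.2]

end Run7.h870.LI
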