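import Pool.Agent.Run7.h870.LI.Hyp
import Pool.Agent.Y882.SI.Fin

/-!
# The parameters
-/

set_option autoImplicit false
set_option linter.all false

namespace Run7.h870.LI

open Finset Filter
open Pool.Agent.Y882
open Pool.Agent.W23.DC
open Pool.Agent.Y882.SI Pool.Agent.Y882.PX Pool.Agent.Y882.KW
open scoped Classical

theorem gg_eq (a : ℤ) : gg a = fun p => (ro (QF a) 0 p : ℝ) / p := by
  funext p
  rw [gg, rr_Q1]

theorem gg_le (a : ℤ) {p : ℕ} (hp : p.Prime) : gg a p ≤ 2 / p := by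
  unfold gg
  have h : (rr (Q1 a) p : ℝ) ≤ 2 := by exact_mod_cast rr_Q1_le a hp
  exact div_le_div_of_nonneg_right h (Nat.cast_nonneg _)

theorem sum_gg {a : ℤ} {X : ℕ} {ε₁ υ : ℝ} (hε : 0 < ε₁) (hευ : ε₁ ≤ υ) (hυ : υ ≤ 1)
    (hM : Mer (pr X ε₁ υ) (tt X) (gg a) ε₁ υ 1) :
    ∑ p ∈ pr X ε₁ υ, gg a p ≤ Real.log (υ / ε₁) + 1 := by
  have h1 := hM ε₁ υ le_rfl hευ le_rfl
  have e : (pr X ε₁ υ).filter (fun p => ε₁ ≤ tt X p ∧ tt X p < υ) = pr X ε₁ υ := by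
    apply filter_true_of_mem
    intro p hp
    unfold pr at hp
    rw [mem_filter] at hp
    exact hp.2.2
  rw [e] at h1
  have h2 := (abs_le.1 h1).2
  linarith

theorem Sy_le {a : ℤ} {X : ℕ} {ε₁ υ B0 : ℝ} (hε : 0 < ε₁) (hευ : ε₁ ≤ υ) (hυ : υ ≤ 1)
    (hB : 0 ≤ B0) (hM : Mer (pr X ε₁ υ) (tt X) (gg a) ε₁ υ 1) :
    Sy a (pr X ε₁ υ) B0 ≤ 3 * B0 / ε₁ := by
  have h1 := sum_gg hε hευ hυ hM
  have h2 : ∏ p ∈ pr X ε₁ υ, (1 + gg a p) ≤ 3 / ε₁ := by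
    calc ∏ p ∈ pr X ε₁ υ, (1 + gg a p) ≤ ∏ p ∈ pr X ε₁ υ, Real.exp (gg a p) :=
          prod_le_prod (fun p _ => by have := gg_nonneg a p; linarith)
            (fun p _ => by have := Real.add_one_le_exp (gg a p); linarith)
      _ = Real.exp (∑ p ∈ pr X ε₁ υ, gg a p) := (Real.exp_sum _ _).symm
      _ ≤ Real.exp (Real.log (υ / ε₁) + 1) := Real.exp_le_exp.2 h1
      _ = υ / ε₁ * Real.exp 1 := by
          rw [Real.exp_add, Real.exp_log (by have : 0 < υ := by linarith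
                                             positivity)]
      _ ≤ 1 / ε₁ * 3 := by
          apply mul_le_mul _ _ (Real.exp_pos _).le (by positivity)
          · exact div_le_div_of_nonneg_right hυ hε.le
          · linarith [Real.exp_one_lt_d9]
      _ = 3 / ε₁ := by ring
  unfold Sy
  calc B0 * ∏ p ∈ pr X ε₁ υ, (1 + gg a p) ≤ B0 * (3 / ε₁) := mul_le_mul_of_nonneg_left h2 hB
    _ = _ := by ring

theorem gg2_le {a : ℤ} {X : ℕ} (hX : 2 ≤ X) {ε₁ υ : ℝ} (hε : 0 < ε₁) (hευ : ε₁ ≤ υ) (hυ : υ ≤ 1)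
    (hM : Mer (pr X ε₁ υ) (tt X) (gg a) ε₁ υ 1) :
    ∑ p ∈ pr X ε₁ υ, gg a p ^ 2 ≤ 2 / (X : ℝ) ^ ε₁ * (1 / ε₁ + 1) := by
  have hXr : (2 : ℝ) ≤ X := by exact_mod_cast hX
  have h1 := sum_gg hε hευ hυ hM
  have hυ0 : 0 < υ := by linarith
  have h2 : Real.log (υ / ε₁) ≤ 1 / ε₁ := by
    have h3 := Real.log_le_sub_one_of_pos (show 0 < υ / ε₁ by positivity)
    have h4 : υ / ε₁ ≤ 1 / ε₁ := div_le_div_of_nonneg_right hυ hε.le
    linarith
  calc ∑ p ∈ pr X ε₁ υ, gg a p ^ 2 ≤ ∑ p ∈ pr X ε₁ υ, 2 / (X : ℝ) ^ ε₁ * gg a p := by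
        apply sum_le_sum
        intro p hp
        obtain ⟨h5, h6, h7⟩ := pr_mem X p ε₁ υ hX hp
        rw [sq]
        apply mul_le_mul_of_nonneg_right _ (gg_nonneg a p)
        refine (gg_le a h5).trans ?_
        exact div_le_div_of_nonneg_left (by norm_num) (by positivity) h6
    _ = 2 / (X : ℝ) ^ ε₁ * ∑ p ∈ pr X ε₁ υ, gg a p := by rw [mul_sum]
    _ ≤ _ := by
        apply mul_le_mul_of_nonneg_left _ (by positivity)
        linarith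

/-- products of large primes have few factors -/
theorem card_le_of_prod {X : ℕ} (hX : 2 ≤ X) {T : Finset ℕ} {ε₁ σ : ℝ} (hε : 0 < ε₁)
    (hT : ∀ p ∈ T, (X : ℝ) ^ ε₁ ≤ p) (hprod : ((∏ p ∈ T, p : ℕ) : ℝ) ≤ (X : ℝ) ^ σ) {m : ℕ}
    (hm : σ / ε₁ ≤ m) : T.card ≤ m := by
  have hXr : (2 : ℝ) ≤ X := by exact_mod_cast hX
  have hX1 : (1 : ℝ) < X := by linarith
  have h1 : (X : ℝ) ^ (ε₁ * T.card) ≤ (X : ℝ) ^ σ := by
    calc (X : ℝ) ^ (ε₁ * T.card) = ∏ p ∈ T, (X : ℝ) ^ ε₁ := by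
          rw [prod_const, ← Real.rpow_natCast, ← Real.rpow_mul (by linarith)]
      _ ≤ ∏ p ∈ T, (p : ℝ) := prod_le_prod (fun _ _ => by positivity) hT
      _ = ((∏ p ∈ T, p : ℕ) : ℝ) := by push_cast; rfl
      _ ≤ _ := hprod
  have h2 : ε₁ * T.card ≤ σ := (Real.rpow_le_rpow_left_iff hX1).1 h1
  have h3 : (T.card : ℝ) ≤ m := by
    refine le_trans ?_ hm
    rw [le_div_iff₀ hε]
    linarith
  exact_mod_cast h3

theorem prod_rr_le (a : ℤ) {T : Finset ℕ} (hT : ∀ p ∈ T, p.Prime) {m : ℕ} (hm : T.card ≤ m) :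
    ∏ p ∈ T, (rr (Q1 a) p : ℝ) ≤ 2 ^ m := by
  calc ∏ p ∈ T, (rr (Q1 a) p : ℝ) ≤ ∏ p ∈ T, (2 : ℝ) :=
        prod_le_prod (fun _ _ => Nat.cast_nonneg _)
          (fun p hp => by exact_mod_cast rr_Q1_le a (hT p hp))
    _ = 2 ^ T.card := by rw [prod_const]
    _ ≤ 2 ^ m := pow_le_pow_right₀ (by norm_num) hm

/-- the divisor sum is bounded -/
theorem vv_le (a : ℤ) {P2 : Finset ℕ} {y : Finset ℕ → ℝ} {B0 : ℝ} (hB : ∀ T, |y T| ≤ B0) {n m : ℕ}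
    (hm : (P2.filter fun p => Q1 a p n).card ≤ m) : |vv a P2 y n| ≤ B0 * 2 ^ m := by
  have hB0 : 0 ≤ B0 := (abs_nonneg _).trans (hB ∅)
  unfold vv VV
  calc |∑ T ∈ P2.powerset, y T * ∏ p ∈ T, (if Q1 a p n then (1 : ℝ) else 0)| ≤
      ∑ T ∈ P2.powerset, (if ∀ p ∈ T, Q1 a p n then B0 else 0) := by
        refine (abs_sum_le_sum_abs _ _).trans (sum_le_sum fun T _ => ?_)
        rw [ind_prod]
        by_cases h : ∀ p ∈ T, Q1 a p n
        · rw [if_pos h, if_pos h, mul_one]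
          exact hB T
        · rw [if_neg h, if_neg h, mul_zero, abs_zero]
    _ = ((P2.powerset.filter fun T => ∀ p ∈ T, Q1 a p n).card : ℝ) * B0 := by
        rw [← sum_filter, sum_const, nsmul_eq_mul]
    _ = (2 : ℝ) ^ (P2.filter fun p => Q1 a p n).card * B0 := by
        have e : P2.powerset.filter (fun T => ∀ p ∈ T, Q1 a p n) =
            (P2.filter fun p => Q1 a p n).powerset := by
          ext T
          rw [mem_filter, mem_powerset, mem_powerset]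
          constructor
          · rintro ⟨h1, h2⟩ p hp
            exact mem_filter.2 ⟨h1 hp, h2 p hp⟩
          · intro h
            exact ⟨fun p hp => (mem_filter.1 (h hp)).1, fun p hp => (mem_filter.1 (h hp)).2⟩
        rw [e, card_powerset]
        push_cast
        rfl
    _ ≤ 2 ^ m * B0 := mul_le_mul_of_nonneg_right (pow_le_pow_right₀ (by norm_num) hm) hB0
    _ = _ := mul_comm _ _

theorem few_div {a : ℤ} {X : ℕ} (hX : 2 ≤ X) {ε₁ υ σ : ℝ} (hε : 0 < ε₁) {n m : ℕ}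
    (hm : σ / ε₁ ≤ m) (hne : (n : ℤ) ^ 2 + a ≠ 0)
    (hsz : (((n : ℤ) ^ 2 + a).natAbs : ℝ) ≤ (X : ℝ) ^ σ) :
    ((pr X ε₁ υ).filter fun p => Q1 a p n).card ≤ m := by
  apply card_le_of_prod hX hε (σ := σ) _ _ hm
  · intro p hp
    exact (pr_mem X p ε₁ υ hX (mem_filter.1 hp).1).2.1
  · refine le_trans ?_ hsz
    have h1 : ∏ p ∈ (pr X ε₁ υ).filter (fun p => Q1 a p n), p ∣ ((n : ℤ) ^ 2 + a).natAbs := by
      apply Finset.prod_primes_dvd
      · intro p hp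
        exact (pr_mem X p ε₁ υ hX (mem_filter.1 hp).1).1.prime
      · intro p hp
        exact Int.natCast_dvd.1 (mem_filter.1 hp).2
    have h2 := Nat.le_of_dvd (Int.natAbs_pos.2 hne) h1
    exact_mod_cast h2

theorem few_supp {P2 : Finset ℕ} (hP : ∀ p ∈ P2, p.Prime) {y : Finset ℕ → ℝ} {D : ℝ} (hD : 0 ≤ D)
    (hy : ∀ T ⊆ P2, y T ≠ 0 → ((∏ p ∈ T, p : ℕ) : ℝ) ≤ D) :
    ((P2.powerset.filter fun T => y T ≠ 0).card : ℝ) ≤ D := by
  have h1 := few_sets P2 hP ⌊D⌋₊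
  have h2 : (P2.powerset.filter fun T => y T ≠ 0).card ≤
      (P2.powerset.filter fun T => ∏ p ∈ T, p ≤ ⌊D⌋₊).card := by
    apply card_le_card
    intro T hT
    rw [mem_filter, mem_powerset] at hT ⊢
    exact ⟨hT.1, Nat.le_floor (hy T hT.1 hT.2)⟩
  have h3 : ((P2.powerset.filter fun T => y T ≠ 0).card : ℝ) ≤
      ((P2.powerset.filter fun T => ∏ p ∈ T, p ≤ ⌊D⌋₊).card : ℝ) := by exact_mod_cast h2
  exact (h3.trans h1).trans (Nat.floor_le hD)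

/-- the density of the small primes -/
theorem V1_low {a : ℤ} (ha : ¬ IsSquare (-a)) : ∃ c : ℝ, 0 < c ∧ ∀ ε₁ : ℝ, 0 < ε₁ →
    ∃ X0 : ℕ, ∀ X : ℕ, X0 ≤ X → c / (ε₁ * Real.log X) ≤ V1 a (PZ X ε₁) := by
  obtain ⟨c, hc, HL⟩ := lo_quad a ha
  refine ⟨c / 2, by positivity, fun ε₁ hε => ?_⟩
  have ev1 : ∀ᶠ X : ℕ in atTop, (3 : ℝ) ≤ (X : ℝ) ^ ε₁ :=
    ((tendsto_rpow_atTop hε).comp tendsto_natCast_atTop_atTop).eventually_ge_atTop _
  obtain ⟨X0, hX0⟩ := eventually_atTop.1 (ev1.and (eventually_ge_atTop 3))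
  refine ⟨X0, fun X hX => ?_⟩
  obtain ⟨e1, e2⟩ := hX0 X hX
  have hXr : (3 : ℝ) ≤ X := by exact_mod_cast e2
  have hX0 : (0 : ℝ) < X := by linarith
  have hlX : 0 < Real.log X := Real.log_pos (by linarith)
  obtain ⟨Z, hZ⟩ : ∃ Z, Z = ⌈(X : ℝ) ^ ε₁⌉₊ := ⟨_, rfl⟩
  have hZ1 : (X : ℝ) ^ ε₁ ≤ Z := hZ ▸ Nat.le_ceil _
  have hZ2 : (Z : ℝ) ≤ (X : ℝ) ^ (2 * ε₁) := by
    have h1 := Nat.ceil_lt_add_one (show 0 ≤ (X : ℝ) ^ ε₁ by positivity)
    rw [← hZ] at h1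
    have h2 : (X : ℝ) ^ (2 * ε₁) = (X : ℝ) ^ ε₁ * (X : ℝ) ^ ε₁ := by
      rw [← Real.rpow_add hX0]
      congr 1
      ring
    rw [h2]
    nlinarith
  have hZ3 : 3 ≤ Z := by
    have : (3 : ℝ) ≤ Z := e1.trans hZ1
    exact_mod_cast this
  have hZr : (3 : ℝ) ≤ Z := by exact_mod_cast hZ3
  have h1 := HL Z hZ3
  have h2 : lo (QF a) Z ≤ V1 a (PZ X ε₁) := by
    have hsub : PZ X ε₁ ⊆ (Icc 1 Z).filter Nat.Prime := by
      intro p hp
      unfold PZ at hp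
      rw [mem_filter, mem_Icc] at hp
      rw [mem_filter, mem_Icc]
      refine ⟨⟨hp.1.1, ?_⟩, hp.2.1⟩
      have h3 := (tt_lt X p ε₁ (by omega) hp.2.1.pos).1 hp.2.2
      exact_mod_cast (h3.le.trans hZ1)
    unfold lo V1
    rw [← prod_sdiff hsub]
    have h3 : ∏ p ∈ PZ X ε₁, (1 - (ro (QF a) 0 p : ℝ) / p) =
        ∏ p ∈ PZ X ε₁, (1 - (rr (Q1 a) p : ℝ) / p) := prod_congr rfl fun p _ => by rw [rr_Q1]
    rw [h3]
    have h4 : 0 ≤ ∏ p ∈ PZ X ε₁, (1 - (rr (Q1 a) p : ℝ) / p) :=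
      prod_nonneg fun p hp => fac_nonneg (Q1 a) (mem_filter.1 (hsub hp)).2
    calc _ ≤ 1 * ∏ p ∈ PZ X ε₁, (1 - (rr (Q1 a) p : ℝ) / p) := by
          apply mul_le_mul_of_nonneg_right _ h4
          apply prod_le_one
          · intro p hp
            rw [← rr_Q1]
            exact fac_nonneg (Q1 a) (mem_filter.1 (mem_sdiff.1 hp).1).2
          · intro p hp
            rw [← rr_Q1]
            exact fac_le_one (Q1 a) p
      _ = _ := one_mul _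
  refine le_trans ?_ (h1.trans h2)
  have h3 : Real.log Z ≤ 2 * ε₁ * Real.log X := by
    rw [← Real.log_rpow hX0]
    exact Real.log_le_log (by linarith) hZ2
  have h4 : 0 < Real.log Z := Real.log_pos (by linarith)
  calc c / 2 / (ε₁ * Real.log X) = c / (2 * ε₁ * Real.log X) := by
        rw [div_div]
        congr 1
        ring
    _ ≤ c / Real.log Z := div_le_div_of_nonneg_left hc.le h4 h3

/-- the weights and the weights of the almost primes -/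
theorem ww_le {a : ℤ} {X : ℕ} {ε₁ ζ υ aw bw : ℝ} (hεζ : ε₁ ≤ ζ) (hb : 0 ≤ bw) (hab : bw * υ ≤ aw)
    {y : Finset ℕ → ℝ} (hy : ∀ N : ℕ, VV (pr X ε₁ υ) y (fun p => if p ∣ N then 1 else 0) ≤
      WB X ε₁ ζ υ aw bw N) (n : ℕ) :
    ww a (PZ X ε₁) (pr X ε₁ υ) y n ≤
      if 0 < WW X ζ υ aw bw ((QF a).eval (n : ℤ)).natAbs then 1 else 0 := by
  by_cases h : ∀ p ∈ PZ X ε₁, ¬ Q1 a p n
  · unfold ww
    rw [if_pos h]
    obtain ⟨N, hN⟩ : ∃ N, N = ((QF a).eval (n : ℤ)).natAbs := ⟨_, rfl⟩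
    have hQ : ∀ p : ℕ, (Q1 a p n ↔ p ∣ N) := by
      intro p
      rw [hN, QF_eval]
      unfold Q1
      exact Int.natCast_dvd
    have h1 : vv a (pr X ε₁ υ) y n = VV (pr X ε₁ υ) y (fun p => if p ∣ N then 1 else 0) := by
      unfold vv
      refine VV_hcongr _ _ fun p _ => ?_
      by_cases h2 : p ∣ N
      · rw [if_pos h2, if_pos ((hQ p).2 h2)]
      · rw [if_neg h2, if_neg fun h3 => h2 ((hQ p).1 h3)]
    have h2 : WB X ε₁ ζ υ aw bw N = WW X ζ υ aw bw N := by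
      unfold WB WW
      congr 1
      have h3 : (∀ p ∈ pr X ε₁ ζ, ¬ p ∣ N) ↔ ∀ p ∈ PZ X ζ, ¬ p ∣ N := by
        constructor
        · intro h4 p hp
          unfold PZ at hp
          rw [mem_filter] at hp
          rcases lt_or_ge (tt X p) ε₁ with h5 | h5
          · intro h6
            exact h p (by unfold PZ; rw [mem_filter]; exact ⟨hp.1, hp.2.1, h5⟩) ((hQ p).2 h6)
          · exact h4 p (by unfold pr; rw [mem_filter]; exact ⟨hp.1, hp.2.1, h5, hp.2.2⟩)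
        · intro h4 p hp
          unfold pr at hp
          rw [mem_filter] at hp
          exact h4 p (by unfold PZ; rw [mem_filter]; exact ⟨hp.1, hp.2.1, hp.2.2.2⟩)
      by_cases h4 : ∀ p ∈ pr X ε₁ ζ, ¬ p ∣ N
      · rw [if_pos h4, if_pos (h3.1 h4)]
      · rw [if_neg h4, if_neg fun h5 => h4 (h3.2 h5)]
    rw [h1, ← hN]
    refine (hy N).trans ?_
    rw [h2]
    split_ifs with h3
    · exact WW_le_one X ζ υ aw bw hb hab N
    · exact not_lt.1 h3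
  · unfold ww
    rw [if_neg h]
    split_ifs <;> norm_num

theorem AA_le {a : ℤ} {X : ℕ} {ε₁ ζ υ aw bw : ℝ} (hεζ : ε₁ ≤ ζ) (hb : 0 ≤ bw)
    (hab : bw * υ ≤ aw)
    {y : Finset ℕ → ℝ} (hy : ∀ N : ℕ, VV (pr X ε₁ υ) y (fun p => if p ∣ N then 1 else 0) ≤
      WB X ε₁ ζ υ aw bw N) (H N : ℕ) :
    AA a (PZ X ε₁) (pr X ε₁ υ) y H (N + 1) ≤ ((pos (QF a) X ζ υ aw bw H N).card : ℝ) := by
  have h1 : ((pos (QF a) X ζ υ aw bw H N).card : ℝ) = ∑ j ∈ range H,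
      if 0 < WW X ζ υ aw bw ((QF a).eval ((N + 1 + j : ℕ) : ℤ)).natAbs then (1 : ℝ) else 0 := by
    unfold pos
    rw [card_filter, ← Finset.Ico_add_one_right_eq_Icc, sum_Ico_eq_sum_range]
    push_cast
    refine sum_congr rfl fun j _ => ?_
    rw [show (N : ℤ) + (1 + j) = N + 1 + j by ring]
  rw [h1]
  unfold AA
  exact sum_le_sum fun j _ => ww_le hεζ hb hab hy _

end Run7.h870.LI
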