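import Mathlib

/-!
# Counting integers in an interval with conditions modulo different primes
-/

set_option autoImplicit false
set_option linter.all false

namespace Run7.h870.LI

open Finset
open scoped Classical

/-- conditions modulo the primes -/
def Per (Q : ℕ → ℕ → Prop) : Prop := ∀ p n : ℕ, Q p (n + p) ↔ Q p n

/-- the number of the residue classes -/
noncomputable def rr (Q : ℕ → ℕ → Prop) (p : ℕ) : ℕ := ((range p).filter fun n => Q p n).card

theorem per_mul {Q : ℕ → ℕ → Prop} (hQ : Per Q) (p n k : ℕ) : Q p (n + p * k) ↔ Q p n := by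
  induction k with
  | zero => simp
  | succ k ih => rw [Nat.mul_succ, ← add_assoc, hQ, ih]

theorem per_mod {Q : ℕ → ℕ → Prop} (hQ : Per Q) (p n m : ℕ) (h : n ≡ m [MOD p]) :
    Q p n ↔ Q p m := by
  have h1 : Q p n ↔ Q p (n % p) := by
    conv_lhs => rw [← Nat.mod_add_div n p]
    exact per_mul hQ p _ _
  have h2 : Q p m ↔ Q p (m % p) := by
    conv_lhs => rw [← Nat.mod_add_div m p]
    exact per_mul hQ p _ _
  rw [h1, h2, h]

theorem rr_le (Q : ℕ → ℕ → Prop) (p : ℕ) : rr Q p ≤ p := by
  unfold rr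
  exact (card_filter_le _ _).trans (by rw [card_range])

/-- the count in a full period -/
theorem crt_range {Q : ℕ → ℕ → Prop} (hQ : Per Q) (S : Finset ℕ) (hS : ∀ p ∈ S, p.Prime) :
    ((range (∏ p ∈ S, p)).filter fun n => ∀ p ∈ S, Q p n).card = ∏ p ∈ S, rr Q p := by
  induction S using Finset.induction_on with
  | empty => simp
  | insert p S hp ih =>
    have hS' : ∀ p ∈ S, p.Prime := fun q hq => hS q (mem_insert_of_mem hq)
    have hpp : p.Prime := hS p (mem_insert_self _ _)
    have hcop : Nat.Coprime p (∏ q ∈ S, q) := by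
      apply Nat.Coprime.prod_right
      intro q hq
      exact (Nat.coprime_primes hpp (hS' q hq)).2 fun h => hp (h ▸ hq)
    have hpos : 0 < ∏ q ∈ S, q := prod_pos fun q hq => (hS' q hq).pos
    rw [prod_insert hp, prod_insert hp, ← ih hS', rr, ← card_product]
    refine card_bij' (fun n _ => (n % p, n % ∏ q ∈ S, q))
      (fun x _ => (Nat.chineseRemainder hcop x.1 x.2 : ℕ)) ?_ ?_ ?_ ?_
    · intro n hn
      rw [mem_filter, mem_range] at hn
      rw [mem_product, mem_filter, mem_filter, mem_range, mem_range]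
      refine ⟨⟨Nat.mod_lt _ hpp.pos, ?_⟩, Nat.mod_lt _ hpos, fun q hq => ?_⟩
      · exact (per_mod hQ p _ _ (Nat.mod_modEq n p)).2 (hn.2 p (mem_insert_self _ _))
      · refine (per_mod hQ q _ n ?_).2 (hn.2 q (mem_insert_of_mem hq))
        exact (Nat.mod_modEq n (∏ q ∈ S, q)).of_dvd (dvd_prod_of_mem _ hq)
    · intro x hx
      rw [mem_product, mem_filter, mem_filter, mem_range, mem_range] at hx
      obtain ⟨⟨h1, h2⟩, h3, h4⟩ := hx
      have e1 := (Nat.chineseRemainder hcop x.1 x.2).2.1
      have e2 := (Nat.chineseRemainder hcop x.1 x.2).2.2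
      rw [mem_filter, mem_range]
      refine ⟨Nat.chineseRemainder_lt_mul hcop _ _ hpp.ne_zero hpos.ne', fun q hq => ?_⟩
      rcases mem_insert.1 hq with rfl | hq
      · exact (per_mod hQ q _ _ e1).2 h2
      · exact (per_mod hQ q _ _ (e2.of_dvd (dvd_prod_of_mem _ hq))).2 (h4 q hq)
    · intro n hn
      rw [mem_filter, mem_range] at hn
      have e1 := (Nat.chineseRemainder hcop (n % p) (n % ∏ q ∈ S, q)).2.1
      have e2 := (Nat.chineseRemainder hcop (n % p) (n % ∏ q ∈ S, q)).2.2
      have h1 := e1.trans (Nat.mod_modEq n p)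
      have h2 := e2.trans (Nat.mod_modEq n (∏ q ∈ S, q))
      have h3 := (Nat.modEq_and_modEq_iff_modEq_mul hcop).1 ⟨h1, h2⟩
      exact Nat.ModEq.eq_of_lt_of_lt h3
        (Nat.chineseRemainder_lt_mul hcop _ _ hpp.ne_zero hpos.ne') hn.1
    · intro x hx
      rw [mem_product, mem_filter, mem_filter, mem_range, mem_range] at hx
      obtain ⟨⟨h1, h2⟩, h3, h4⟩ := hx
      have e1 := (Nat.chineseRemainder hcop x.1 x.2).2.1
      have e2 := (Nat.chineseRemainder hcop x.1 x.2).2.2
      apply Prod.ext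
      · exact Nat.ModEq.eq_of_lt_of_lt ((Nat.mod_modEq _ _).trans e1) (Nat.mod_lt _ hpp.pos) h1
      · exact Nat.ModEq.eq_of_lt_of_lt ((Nat.mod_modEq _ _).trans e2) (Nat.mod_lt _ hpos) h3

/-- the count of a periodic predicate in an interval -/
theorem per_count {P : ℕ → Prop} [DecidablePred P] {q : ℕ} (hq : 0 < q) (hP : ∀ n, P (n + q) ↔ P n) (M L : ℕ) :
    |(((Ico M (M + L)).filter P).card : ℝ) - L * ((((range q).filter P).card : ℝ) / q)| ≤
      (((range q).filter P).card : ℝ) := by
  have hper : Function.Periodic P q := fun n => propext (hP n)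
  obtain ⟨R, hR⟩ : ∃ R, R = ((range q).filter P).card := ⟨_, rfl⟩
  have h1 : ∀ M, ((Ico M (M + q)).filter P).card = R := by
    intro M
    rw [Nat.filter_Ico_card_eq_of_periodic M q P hper, hR, Nat.count_eq_card_filter_range]
  have h2 : ∀ k M, ((Ico M (M + q * k)).filter P).card = R * k := by
    intro k
    induction k with
    | zero => intro M; simp
    | succ k ih =>
      intro M
      have e : Ico M (M + q * (k + 1)) = Ico M (M + q * k) ∪ Ico (M + q * k) (M + q * k + q) := by
        rw [Ico_union_Ico_eq_Ico (by omega) (by omega)]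
        congr 1
        ring
      rw [e, filter_union, card_union_of_disjoint, ih, h1]
      · ring
      · exact disjoint_filter_filter (Ico_disjoint_Ico_consecutive _ _ _)
  rw [← hR]
  obtain ⟨k, hk⟩ : ∃ k, k = L / q := ⟨_, rfl⟩
  have hk1 : q * k ≤ L := hk ▸ Nat.mul_div_le L q
  have hk2 : L ≤ q * (k + 1) := hk ▸ (Nat.lt_mul_div_succ L hq).le
  have h3 : R * k ≤ ((Ico M (M + L)).filter P).card := by
    rw [← h2 k M]
    exact card_le_card (filter_subset_filter _ (Ico_subset_Ico_right (by omega)))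
  have h4 : ((Ico M (M + L)).filter P).card ≤ R * (k + 1) := by
    rw [← h2 (k + 1) M]
    exact card_le_card (filter_subset_filter _ (Ico_subset_Ico_right (by omega)))
  have hq0 : (0 : ℝ) < q := by exact_mod_cast hq
  have hR0 : (0 : ℝ) ≤ R := Nat.cast_nonneg _
  have h5 : (R : ℝ) * k ≤ L * ((R : ℝ) / q) := by
    rw [mul_div_assoc', le_div_iff₀ hq0]
    have : (q : ℝ) * k ≤ L := by exact_mod_cast hk1
    nlinarith
  have h6 : (L : ℝ) * ((R : ℝ) / q) ≤ R * (k + 1) := by
    rw [mul_div_assoc', div_le_iff₀ hq0]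
    have : (L : ℝ) ≤ q * (k + 1) := by exact_mod_cast hk2
    nlinarith
  have h3' : (R : ℝ) * k ≤ (((Ico M (M + L)).filter P).card : ℝ) := by exact_mod_cast h3
  have h4' : (((Ico M (M + L)).filter P).card : ℝ) ≤ R * (k + 1) := by exact_mod_cast h4
  rw [abs_le]
  constructor <;> linarith

/-- the count with conditions modulo different primes -/
theorem crt_count {Q : ℕ → ℕ → Prop} (hQ : Per Q) (S : Finset ℕ) (hS : ∀ p ∈ S, p.Prime)
    (M L : ℕ) :
    |(((Ico M (M + L)).filter fun n => ∀ p ∈ S, Q p n).card : ℝ) -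
      L * ∏ p ∈ S, ((rr Q p : ℝ) / p)| ≤ ∏ p ∈ S, (rr Q p : ℝ) := by
  have hpos : 0 < ∏ q ∈ S, q := prod_pos fun q hq => (hS q hq).pos
  have h := per_count (P := fun n => ∀ p ∈ S, Q p n) hpos (fun n => by
    refine forall₂_congr fun p hp => ?_
    refine per_mod hQ p _ _ ?_
    have : p ∣ ∏ q ∈ S, q := dvd_prod_of_mem _ hp
    exact (Nat.modEq_iff_dvd' (Nat.le_add_right _ _)).2 (by simpa using this) |>.symm) M L
  rw [crt_range hQ S hS] at h
  push_cast at h
  rwa [prod_div_distrib]

end Run7.h870.LI
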