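import Pool.Agent.Run7.h870.LI.Short

/-!
# At most five prime factors, in almost all intervals of length `K log X`
-/

set_option autoImplicit false
set_option linter.all false

namespace Run7.h870.LI

open Finset Filter
open Pool.Agent.Y882.SI Pool.Agent.Y882.KW
open scoped Classical

theorem five (a : ℤ) (ha : ¬ IsSquare (-a)) (z : ℝ) (hz : z < 1 / 5) :
    ∃ δ : ℝ, 0 < δ ∧ ∀ ε : ℝ, 0 < ε → ∃ K : ℝ, 0 < K ∧ ∃ X0 : ℕ, ∀ X : ℕ,
      X0 ≤ X → ∀ H : ℕ, K * Real.log X ≤ H → H ≤ X →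
      (((Icc 1 X).filter (fun N => ((gset a 5 ((X : ℝ) ^ z) N H).card : ℝ) <
        δ * H / Real.log X)).card : ℝ) ≤ ε * X := by
  obtain ⟨τ, hτ⟩ : ∃ τ : ℝ, τ = max (5 / 2 * z) (4999 / 10000) := ⟨_, rfl⟩
  have h1 : 5 / 2 * z ≤ τ := hτ ▸ le_max_left _ _
  have h2 : 4999 / 10000 ≤ τ := hτ ▸ le_max_right _ _
  have h3 : 2 * τ < 1 := by
    have : τ < 1 / 2 := by
      rw [hτ]
      exact max_lt (by linarith) (by norm_num)
    linarith
  have h := short_all a ha 5 τ (2 / 5 * τ) (9 / 10 * τ) (20 / 31) (2001 / 1000) (by linarith)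
    (by linarith) (by linarith) h3 (by linarith) (by linarith) (by norm_num)
    (cond_B τ (20 / 31) (by linarith) (by norm_num) (by norm_num)) (by norm_num) (by
      have h4 : 2001 / 1000 / (9 / 10 * τ) ≤ 445 / 100 := by
        rw [div_le_iff₀ (by linarith)]
        linarith
      norm_num at h4 ⊢
      linarith)
  obtain ⟨δ, hδ, H⟩ := h
  refine ⟨δ, hδ, fun ε hε => ?_⟩
  obtain ⟨K, hK, X0, HX⟩ := H ε hε
  refine ⟨K, hK, max X0 1, fun X hX H hH1 hH2 => ?_⟩
  refine le_trans ?_ (HX X ((le_max_left _ _).trans hX) H hH1 hH2)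
  have hX1 : (1 : ℝ) ≤ X := by exact_mod_cast (le_max_right X0 1).trans hX
  have h5 : ((Icc 1 X).filter (fun N => ((gset a 5 ((X : ℝ) ^ z) N H).card : ℝ) <
        δ * H / Real.log X)).card ≤
      ((Icc 1 X).filter (fun N => ((gset a 5 ((X : ℝ) ^ (2 / 5 * τ)) N H).card : ℝ) <
        δ * H / Real.log X)).card := by
    apply card_le_card
    intro N hN
    rw [mem_filter] at hN ⊢
    refine ⟨hN.1, lt_of_le_of_lt ?_ hN.2⟩
    exact_mod_cast gset_mono a 5 (Real.rpow_le_rpow_of_exponent_le hX1 (by linarith)) N H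
  exact_mod_cast h5

end Run7.h870.LI
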