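import Pool.Agent.Run7.h870.LI.Many

/-!
# Many almost prime values in almost all very short intervals
-/

set_option autoImplicit false
set_option linter.all false

namespace Run7.h870.LI

open Finset Filter
open Pool.Agent.Y882
open Pool.Agent.W23.DC
open Pool.Agent.Y882.SI Pool.Agent.Y882.PX Pool.Agent.Y882.KW
open scoped Classical

/-- positive weights outside the values with a square factor -/
theorem pos_le (a : ℤ) (ha : ¬ IsSquare (-a)) (r : ℕ) (ζ υ lam S : ℝ) (hζυ : ζ ≤ υ) (hυ0 : 0 < υ)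
    (hυ1 : υ ≤ 1) (hlam : 0 < lam) (hS : 2 < S) (hr : 1 / lam + S / υ ≤ r + 1) :
    ∃ X0 : ℕ, ∀ X : ℕ, X0 ≤ X → ∀ H N : ℕ, H ≤ X → N ≤ X →
      (pos (QF a) X ζ υ lam (lam / υ) H N).card ≤
        (gset a r ((X : ℝ) ^ ζ) N H).card + ((Icc 1 H).filter (fun j => Bad a X ζ υ (N + j))).card := by
  have ev4 : ∀ᶠ Y : ℕ in atTop, 5 + |(a : ℝ)| ≤ (Y : ℝ) ^ (S - 2) :=
    ((tendsto_rpow_atTop (by linarith)).comp tendsto_natCast_atTop_atTop).eventually_ge_atTop _
  obtain ⟨Y4, hY4⟩ := eventually_atTop.1 (ev4.and (eventually_ge_atTop 3))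
  refine ⟨Y4, fun X hX H N hHX hNX => ?_⟩
  obtain ⟨e4, e5⟩ := hY4 X hX
  have hXr : (3 : ℝ) ≤ X := by exact_mod_cast e5
  have hX0 : (0 : ℝ) < X := by linarith
  have g4 : pos (QF a) X ζ υ lam (lam / υ) H N ⊆
      (pos (QF a) X ζ υ lam (lam / υ) H N).filter (fun j => ¬ Bad a X ζ υ (N + j)) ∪
      (Icc 1 H).filter (fun j => Bad a X ζ υ (N + j)) := by
    intro j hj
    rw [mem_union, mem_filter, mem_filter]
    by_cases hb : Bad a X ζ υ (N + j)
    · right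
      unfold pos at hj
      exact ⟨(mem_filter.1 hj).1, hb⟩
    · exact Or.inl ⟨hj, hb⟩
  refine ((card_le_card g4).trans (card_union_le _ _)).trans ?_
  apply Nat.add_le_add_right
  apply card_le_card_of_injOn (fun j => N + j)
  · intro j hj
    show N + j ∈ _
    rw [mem_coe, mem_filter] at hj
    obtain ⟨hj1, hj2⟩ := hj
    unfold pos at hj1
    rw [mem_filter, mem_Icc] at hj1
    obtain ⟨⟨hj3, hj4⟩, hj5⟩ := hj1
    rw [QF_eval] at hj5
    unfold gset
    rw [mem_coe, mem_filter, mem_Ioc]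
    refine ⟨⟨by omega, by omega⟩, ?_⟩
    have hne : (((N + j : ℕ) : ℤ) ^ 2 + a) ≠ 0 := ne_zero_of ha _
    have hsize : ((((N + j : ℕ) : ℤ) ^ 2 + a).natAbs : ℝ) ≤ (X : ℝ) ^ S := by
      have u1 : ((((N + j : ℕ) : ℤ) ^ 2 + a).natAbs : ℝ) = |(((N + j : ℕ) : ℝ)) ^ 2 + a| := by
        rw [Nat.cast_natAbs]
        push_cast
        rfl
      rw [u1]
      have u2 : (((N + j : ℕ) : ℝ)) ≤ 2 * X := by
        have : N + j ≤ 2 * X := by omega
        exact_mod_cast this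
      have u3 : (((N + j : ℕ) : ℝ)) ^ 2 ≤ (2 * X) ^ 2 := pow_le_pow_left₀ (Nat.cast_nonneg _) u2 2
      have u4 : (1 : ℝ) ≤ (X : ℝ) ^ 2 := by nlinarith
      have u5 := abs_nonneg (a : ℝ)
      calc |(((N + j : ℕ) : ℝ)) ^ 2 + a| ≤ |(((N + j : ℕ) : ℝ)) ^ 2| + |(a : ℝ)| := abs_add_le _ _
        _ = (((N + j : ℕ) : ℝ)) ^ 2 + |(a : ℝ)| := by rw [abs_of_nonneg (by positivity)]
        _ ≤ (5 + |(a : ℝ)|) * (X : ℝ) ^ 2 := by nlinarith
        _ ≤ (X : ℝ) ^ (S - 2) * (X : ℝ) ^ 2 := mul_le_mul_of_nonneg_right e4 (by positivity)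
        _ = (X : ℝ) ^ S := by
            rw [← Real.rpow_natCast (X : ℝ) 2, ← Real.rpow_add hX0]
            congr 1
            push_cast
            ring
    have hres := almost X (by omega) ζ υ lam S r hζυ hυ0 hυ1 hlam hr
      (((N + j : ℕ) : ℤ) ^ 2 + a).natAbs (Int.natAbs_ne_zero.2 hne) hsize hj5 (by
        intro q hq hqd
        exact hj2 ⟨q, hq, Int.natCast_dvd.2 hqd⟩)
    exact ⟨hres.1, fun p hp hpd => hres.2 p hp (Int.natCast_dvd.1 hpd)⟩
  · intro x _ y _ hxy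
    simpa using hxy

/-- **Almost primes in almost all very short intervals**, lengths up to a small power -/
theorem short (a : ℤ) (ha : ¬ IsSquare (-a)) (r : ℕ) (τ ζ υ lam S : ℝ) (hζ : 0 < ζ)
    (h2 : 2 * ζ < τ) (h4 : τ ≤ 4 * ζ) (hτ : 2 * τ < 1) (hζυ : ζ ≤ υ) (hυτ : υ < τ)
    (hlam : 0 < lam)
    (hJ0 : ∫ x in ζ..υ, (lam - lam / υ * x) / (τ - x) / x < Real.log (τ / ζ - 1) / τ) (hS : 2 < S)
    (hr : 1 / lam + S / υ ≤ r + 1) :
    ∃ δ : ℝ, 0 < δ ∧ ∀ ε : ℝ, 0 < ε → ∃ K σ : ℝ, 0 < K ∧ 0 < σ ∧ ∃ X0 : ℕ, ∀ X : ℕ,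
      X0 ≤ X → ∀ H : ℕ, K * Real.log X ≤ H → (H : ℝ) ≤ (X : ℝ) ^ σ →
      (((Icc 1 X).filter (fun N => ((gset a r ((X : ℝ) ^ ζ) N H).card : ℝ) <
        δ * H / Real.log X)).card : ℝ) ≤ ε * X := by
  have ha0 : a ≠ 0 := by
    rintro rfl
    exact ha ⟨0, by simp⟩
  have hυ0 : 0 < υ := by linarith
  have hυ1 : υ ≤ 1 := by linarith
  obtain ⟨δ, hδ, HM⟩ := many a ha τ ζ υ lam hζ h2 h4 hτ hζυ hυτ hlam hJ0
  obtain ⟨Y1, HP⟩ := pos_le a ha r ζ υ lam S hζυ hυ0 hυ1 hlam hS hr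
  obtain ⟨Y2, HB⟩ := bad_count a ha0 ζ υ hζ hζυ hυ1
  refine ⟨δ / 2, by positivity, fun ε hε => ?_⟩
  obtain ⟨K, σ, hK, hσ, hσ1, Y3, HM'⟩ := HM (ε / 2) (by positivity)
  refine ⟨K, σ, hK, hσ, ?_⟩
  have ev1 := evlog (2 / δ) 1 (show 0 < ζ / 2 by positivity)
  have ev2 := evlog (20 / ε) 0 (show 0 < ζ / 2 by positivity)
  obtain ⟨Y4, hY4⟩ := eventually_atTop.1 (ev1.and (ev2.and (eventually_ge_atTop 3)))
  refine ⟨max (max Y1 Y2) (max Y3 Y4), fun X hX H hH1 hH2 => ?_⟩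
  have hX1 : Y1 ≤ X := ((le_max_left _ _).trans (le_max_left _ _)).trans hX
  have hX2 : Y2 ≤ X := ((le_max_right _ _).trans (le_max_left _ _)).trans hX
  have hX3 : Y3 ≤ X := ((le_max_left _ _).trans (le_max_right _ _)).trans hX
  obtain ⟨e1, e2, e3⟩ := hY4 X (((le_max_right _ _).trans (le_max_right _ _)).trans hX)
  rw [pow_one] at e1
  rw [pow_zero, mul_one] at e2
  have hXr : (3 : ℝ) ≤ X := by exact_mod_cast e3
  have hX0 : (0 : ℝ) < X := by linarith
  have hX1r : (1 : ℝ) ≤ X := by linarith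
  have hlX : 0 < Real.log X := Real.log_pos (by linarith)
  have hHr : (0 : ℝ) < H := lt_of_lt_of_le (by positivity) hH1
  have hHX : H ≤ X := by
    have h1 : (H : ℝ) ≤ X := by
      refine hH2.trans ?_
      calc (X : ℝ) ^ σ ≤ (X : ℝ) ^ (1 : ℝ) :=
            Real.rpow_le_rpow_of_exponent_le hX1r hσ1
        _ = X := Real.rpow_one _
    exact_mod_cast h1
  obtain ⟨t, ht⟩ : ∃ t, t = (X : ℝ) ^ (ζ / 2) := ⟨_, rfl⟩
  have ht0 : 0 < t := by rw [ht]; positivity
  rw [← ht] at e1 e2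
  have hA := HM' X hX3 H hH1 hH2
  have hB := bad_pos (Bad a X ζ υ) X H t ht0
  have hBc := HB X hX2 (X + H)
  obtain ⟨A1, hA1⟩ : ∃ A1, A1 = (Icc 1 X).filter (fun N => ((pos (QF a) X ζ υ lam (lam / υ) H
    N).card : ℝ) < δ * H / Real.log X) := ⟨_, rfl⟩
  obtain ⟨A2, hA2⟩ : ∃ A2, A2 = (Icc 1 X).filter (fun N => (H : ℝ) / t <
      (((Icc 1 H).filter (fun j => Bad a X ζ υ (N + j))).card : ℝ)) := ⟨_, rfl⟩
  rw [← hA1] at hA
  rw [← hA2] at hB
  have hsub : (Icc 1 X).filter (fun N => ((gset a r ((X : ℝ) ^ ζ) N H).card : ℝ) <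
        δ / 2 * H / Real.log X) ⊆ A1 ∪ A2 := by
    intro N hN
    rw [mem_filter] at hN
    rw [mem_union]
    by_contra hcon
    push Not at hcon
    obtain ⟨hc1, hc2⟩ := hcon
    have g1 : δ * H / Real.log X ≤ ((pos (QF a) X ζ υ lam (lam / υ) H N).card : ℝ) := by
      by_contra h'
      exact hc1 (by rw [hA1, mem_filter]; exact ⟨hN.1, not_le.1 h'⟩)
    have g2 : (((Icc 1 H).filter (fun j => Bad a X ζ υ (N + j))).card : ℝ) ≤ (H : ℝ) / t := by
      by_contra h'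
      exact hc2 (by rw [hA2, mem_filter]; exact ⟨hN.1, not_le.1 h'⟩)
    have g3 := HP X hX1 H N hHX (mem_Icc.1 hN.1).2
    have g3r : ((pos (QF a) X ζ υ lam (lam / υ) H N).card : ℝ) ≤
        ((gset a r ((X : ℝ) ^ ζ) N H).card : ℝ) +
          (((Icc 1 H).filter (fun j => Bad a X ζ υ (N + j))).card : ℝ) := by exact_mod_cast g3
    have g6 : (H : ℝ) / t ≤ δ / 2 * H / Real.log X := by
      rw [div_le_div_iff₀ ht0 hlX]
      have := mul_le_mul_of_nonneg_left e1 (show 0 ≤ δ / 2 * H by positivity)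
      calc (H : ℝ) * Real.log X = δ / 2 * H * (2 / δ * Real.log X) := by field_simp
        _ ≤ _ := this
    have g7 : δ * H / Real.log X = δ / 2 * H / Real.log X + δ / 2 * H / Real.log X := by ring
    linarith [hN.2]
  have r2 : (A2.card : ℝ) ≤ ε / 2 * X := by
    refine hB.trans ?_
    have hυζ : υ ≤ 1 - ζ := by linarith
    have u2 : (X : ℝ) ^ υ ≤ (X : ℝ) ^ (1 - ζ) := Real.rpow_le_rpow_of_exponent_le hX1r hυζ
    have u3 : (((X + H : ℕ) : ℝ)) / (X : ℝ) ^ ζ ≤ 2 * (X : ℝ) ^ (1 - ζ) := by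
      have hHX' : (H : ℝ) ≤ X := by exact_mod_cast hHX
      rw [Real.rpow_sub hX0, Real.rpow_one, mul_div_assoc']
      apply div_le_div_of_nonneg_right _ (by positivity)
      push_cast
      linarith
    have u4 : t * (X : ℝ) ^ (1 - ζ) * t = X := by
      rw [ht, ← Real.rpow_add hX0, ← Real.rpow_add hX0]
      conv_rhs => rw [← Real.rpow_one (X : ℝ)]
      congr 1
      ring
    calc t * (((Icc 1 (X + H)).filter (Bad a X ζ υ)).card : ℝ) ≤
        t * (4 * ((((X + H : ℕ) : ℝ)) / (X : ℝ) ^ ζ) + 2 * (X : ℝ) ^ υ) :=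
          mul_le_mul_of_nonneg_left hBc ht0.le
      _ ≤ t * (4 * (2 * (X : ℝ) ^ (1 - ζ)) + 2 * (X : ℝ) ^ (1 - ζ)) := by gcongr
      _ = t * (X : ℝ) ^ (1 - ζ) * (ε / 2 * (20 / ε)) := by
          field_simp
          ring
      _ ≤ t * (X : ℝ) ^ (1 - ζ) * (ε / 2 * t) := by gcongr
      _ = ε / 2 * (t * (X : ℝ) ^ (1 - ζ) * t) := by ring
      _ = _ := by rw [u4]
  calc (((Icc 1 X).filter (fun N => ((gset a r ((X : ℝ) ^ ζ) N H).card : ℝ) <
        δ / 2 * H / Real.log X)).card : ℝ) ≤ ((A1 ∪ A2).card : ℝ) := by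
        exact_mod_cast card_le_card hsub
    _ ≤ A1.card + A2.card := by exact_mod_cast card_union_le _ _
    _ ≤ ε / 2 * X + ε / 2 * X := add_le_add hA r2
    _ = _ := by ring

/-- disjoint subintervals -/
theorem gset_sum (a : ℤ) (r : ℕ) (z : ℝ) (N H0 q H : ℕ) (hq : q * H0 ≤ H) :
    ∑ i ∈ range q, (gset a r z (N + i * H0) H0).card ≤ (gset a r z N H).card := by
  rw [← card_biUnion]
  · apply card_le_card
    intro n hn
    rw [mem_biUnion] at hn
    obtain ⟨i, hi, hn⟩ := hn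
    rw [mem_range] at hi
    unfold gset at hn ⊢
    rw [mem_filter, mem_Ioc] at hn ⊢
    refine ⟨⟨by omega, ?_⟩, hn.2⟩
    have h1 : (i + 1) * H0 ≤ q * H0 := Nat.mul_le_mul_right _ hi
    have h2 : (i + 1) * H0 = i * H0 + H0 := by ring
    omega
  · intro i _ j _ hij
    show Disjoint _ _
    rw [disjoint_left]
    intro n hn hn'
    unfold gset at hn hn'
    rw [mem_filter, mem_Ioc] at hn hn'
    rcases Nat.lt_or_ge i j with h | h
    · have h1 : (i + 1) * H0 ≤ j * H0 := Nat.mul_le_mul_right _ h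
      have h2 : (i + 1) * H0 = i * H0 + H0 := by ring
      omega
    · have h3 : j < i := lt_of_le_of_ne h (Ne.symm hij)
      have h1 : (j + 1) * H0 ≤ i * H0 := Nat.mul_le_mul_right _ h3
      have h2 : (j + 1) * H0 = j * H0 + H0 := by ring
      omega

/-- the counts for smaller bounds on the prime factors -/
theorem gset_mono (a : ℤ) (r : ℕ) {z z' : ℝ} (hz : z ≤ z') (N H : ℕ) :
    (gset a r z' N H).card ≤ (gset a r z N H).card := by
  apply card_le_card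
  intro n hn
  unfold gset at hn ⊢
  rw [mem_filter] at hn ⊢
  exact ⟨hn.1, hn.2.1, fun p hp hd => hz.trans (hn.2.2 p hp hd)⟩

/-- **Almost primes in almost all very short intervals**, all lengths -/
theorem short_all (a : ℤ) (ha : ¬ IsSquare (-a)) (r : ℕ) (τ ζ υ lam S : ℝ) (hζ : 0 < ζ)
    (h2 : 2 * ζ < τ) (h4 : τ ≤ 4 * ζ) (hτ : 2 * τ < 1) (hζυ : ζ ≤ υ) (hυτ : υ < τ)
    (hlam : 0 < lam)
    (hJ0 : ∫ x in ζ..υ, (lam - lam / υ * x) / (τ - x) / x < Real.log (τ / ζ - 1) / τ) (hS : 2 < S)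
    (hr : 1 / lam + S / υ ≤ r + 1) :
    ∃ δ : ℝ, 0 < δ ∧ ∀ ε : ℝ, 0 < ε → ∃ K : ℝ, 0 < K ∧ ∃ X0 : ℕ, ∀ X : ℕ,
      X0 ≤ X → ∀ H : ℕ, K * Real.log X ≤ H → H ≤ X →
      (((Icc 1 X).filter (fun N => ((gset a r ((X : ℝ) ^ ζ) N H).card : ℝ) <
        δ * H / Real.log X)).card : ℝ) ≤ ε * X := by
  obtain ⟨δ, hδ, HS⟩ := short a ha r τ ζ υ lam S hζ h2 h4 hτ hζυ hυτ hlam hJ0 hS hr
  refine ⟨δ / 16, by positivity, fun ε hε => ?_⟩
  obtain ⟨K, σ, hK, hσ, Y1, HS'⟩ := HS (ε / 8) (by positivity)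
  refine ⟨4 * K + 4, by positivity, ?_⟩
  have ev1 := evlog (2 * K + 2) 1 hσ
  obtain ⟨Y2, hY2⟩ := eventually_atTop.1 (ev1.and (eventually_ge_atTop 3))
  refine ⟨max Y1 Y2, fun X hX H hH1 hHX => ?_⟩
  have hX1 : Y1 ≤ X := (le_max_left _ _).trans hX
  obtain ⟨_, e2⟩ := hY2 X ((le_max_right _ _).trans hX)
  obtain ⟨e1', _⟩ := hY2 (2 * X) (by
    have := (le_max_right Y1 Y2).trans hX
    omega)
  rw [pow_one] at e1'
  have hXr : (3 : ℝ) ≤ X := by exact_mod_cast e2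
  have hX0 : (0 : ℝ) < X := by linarith
  have hlX1 : 1 ≤ Real.log X := by
    rw [Real.le_log_iff_exp_le hX0]
    linarith [Real.exp_one_lt_d9]
  have hlX : 0 < Real.log X := by linarith
  obtain ⟨Z, hZ⟩ : ∃ Z, Z = 2 * X := ⟨_, rfl⟩
  rw [← hZ] at e1'
  have hZr : (Z : ℝ) = 2 * X := by rw [hZ]; push_cast; ring
  have hlZ1 : Real.log X ≤ Real.log Z := Real.log_le_log hX0 (by rw [hZr]; linarith)
  have hlZ2 : Real.log Z ≤ 2 * Real.log X := by
    rw [hZr, Real.log_mul (by norm_num) hX0.ne']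
    have : Real.log 2 ≤ Real.log X := Real.log_le_log (by norm_num) (by linarith)
    linarith
  have hlZ : 0 < Real.log Z := by linarith
  obtain ⟨H0, hH0⟩ : ∃ H0 : ℕ, H0 = ⌈K * Real.log Z⌉₊ := ⟨_, rfl⟩
  have hH01 : K * Real.log Z ≤ H0 := by rw [hH0]; exact Nat.le_ceil _
  have hH02 : (H0 : ℝ) ≤ (K + 1) * Real.log Z := by
    have := Nat.ceil_lt_add_one (show 0 ≤ K * Real.log Z by positivity)
    rw [← hH0] at this
    nlinarith
  have hH0pos : 0 < H0 := by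
    have : (0 : ℝ) < H0 := lt_of_lt_of_le (by positivity) hH01
    exact_mod_cast this
  have hH0r : (0 : ℝ) < H0 := by exact_mod_cast hH0pos
  have hmain := HS' Z (by omega) H0 hH01 (by
    refine hH02.trans (le_trans ?_ e1')
    nlinarith)
  obtain ⟨B, hB⟩ : ∃ B, B = (Icc 1 Z).filter (fun N => ((gset a r ((Z : ℝ) ^ ζ) N H0).card : ℝ) <
        δ * H0 / Real.log Z) := ⟨_, rfl⟩
  rw [← hB] at hmain
  obtain ⟨q, hq⟩ : ∃ q, q = H / H0 := ⟨_, rfl⟩
  have hq1 : q * H0 ≤ H := by rw [hq]; exact Nat.div_mul_le_self _ _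
  have hq2 : H < (q + 1) * H0 := by
    rw [hq]
    have h1 := Nat.div_add_mod H H0
    have h3 := Nat.mod_lt H hH0pos
    calc H = H0 * (H / H0) + H % H0 := h1.symm
      _ < H0 * (H / H0) + H0 := by omega
      _ = (H / H0 + 1) * H0 := by ring
  have hHH0 : H0 ≤ H := by
    have h1 : (H0 : ℝ) ≤ H := by
      refine hH02.trans (le_trans ?_ hH1)
      nlinarith
    exact_mod_cast h1
  have hqpos : 1 ≤ q := by
    rw [hq]
    exact (Nat.one_le_div_iff hH0pos).2 hHH0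
  have hqr : (1 : ℝ) ≤ q := by exact_mod_cast hqpos
  obtain ⟨bc, hbc⟩ : ∃ bc : ℕ → ℕ, bc = fun N => ((range q).filter fun i => N + i * H0 ∈ B).card :=
    ⟨_, rfl⟩
  obtain ⟨A, hA⟩ : ∃ A, A = (Icc 1 X).filter (fun N => ((gset a r ((X : ℝ) ^ ζ) N H).card : ℝ) <
        δ / 16 * H / Real.log X) := ⟨_, rfl⟩
  rw [← hA]
  -- a bad interval has many bad subintervals
  have hbad : ∀ N ∈ A, (q : ℝ) / 2 ≤ bc N := by
    intro N hN
    rw [hA, mem_filter, mem_Icc] at hN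
    obtain ⟨hN1, hN2⟩ := hN
    by_contra hcon
    push Not at hcon
    have h1 : ∀ i ∈ (range q).filter (fun i => ¬ N + i * H0 ∈ B),
        δ * H0 / Real.log Z ≤ ((gset a r ((X : ℝ) ^ ζ) (N + i * H0) H0).card : ℝ) := by
      intro i hi
      rw [mem_filter, mem_range] at hi
      have h3 : N + i * H0 ∈ Icc 1 Z := by
        rw [mem_Icc]
        have h5 : i * H0 ≤ q * H0 := Nat.mul_le_mul_right _ hi.1.le
        omega
      have h5 : δ * H0 / Real.log Z ≤ ((gset a r ((Z : ℝ) ^ ζ) (N + i * H0) H0).card : ℝ) := by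
        by_contra h6
        exact hi.2 (by rw [hB, mem_filter]; exact ⟨h3, not_le.1 h6⟩)
      refine h5.trans ?_
      exact_mod_cast gset_mono a r (Real.rpow_le_rpow hX0.le (by rw [hZr]; linarith) hζ.le) _ _
    have h3 : (((range q).filter fun i => ¬ N + i * H0 ∈ B).card : ℝ) * (δ * H0 / Real.log Z) ≤
        ((gset a r ((X : ℝ) ^ ζ) N H).card : ℝ) := by
      calc _ = ∑ i ∈ (range q).filter (fun i => ¬ N + i * H0 ∈ B), (δ * H0 / Real.log Z) := by
            rw [sum_const, nsmul_eq_mul]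
        _ ≤ ∑ i ∈ (range q).filter (fun i => ¬ N + i * H0 ∈ B),
            ((gset a r ((X : ℝ) ^ ζ) (N + i * H0) H0).card : ℝ) := sum_le_sum h1
        _ ≤ ∑ i ∈ range q, ((gset a r ((X : ℝ) ^ ζ) (N + i * H0) H0).card : ℝ) :=
            sum_le_sum_of_subset_of_nonneg (filter_subset _ _) fun _ _ _ => Nat.cast_nonneg _
        _ ≤ _ := by exact_mod_cast gset_sum a r ((X : ℝ) ^ ζ) N H0 q H hq1
    have h5 : (bc N : ℝ) + (((range q).filter fun i => ¬ N + i * H0 ∈ B).card : ℝ) = q := by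
      have h6 := card_filter_add_card_filter_not (s := range q) (fun i => N + i * H0 ∈ B)
      rw [card_range] at h6
      rw [hbc]
      exact_mod_cast h6
    have h6 : (q : ℝ) / 2 ≤ (((range q).filter fun i => ¬ N + i * H0 ∈ B).card : ℝ) := by linarith
    have h7 : (H : ℝ) / 2 ≤ q * H0 := by
      have h8 : (H : ℝ) < (q + 1) * H0 := by exact_mod_cast hq2
      have h9 : (q + 1 : ℝ) * H0 ≤ 2 * q * H0 := mul_le_mul_of_nonneg_right (by linarith) hH0r.le
      linarith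
    have h8 : δ * (H / 8) / Real.log X ≤ (q : ℝ) / 2 * (δ * H0 / Real.log Z) := by
      calc δ * (H / 8) / Real.log X = (H / 2) * (δ / 2) / (2 * Real.log X) := by
            field_simp
            norm_num
        _ ≤ (q * H0) * (δ / 2) / Real.log Z := by
            apply div_le_div₀ (by positivity) _ hlZ hlZ2
            exact mul_le_mul_of_nonneg_right h7 (by positivity)
        _ = _ := by ring
    have h9 : (q : ℝ) / 2 * (δ * H0 / Real.log Z) ≤
        (((range q).filter fun i => ¬ N + i * H0 ∈ B).card : ℝ) * (δ * H0 / Real.log Z) :=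
      mul_le_mul_of_nonneg_right h6 (by positivity)
    have h10 : δ / 16 * H / Real.log X ≤ δ * (H / 8) / Real.log X := by
      apply div_le_div_of_nonneg_right _ hlX.le
      have : 0 ≤ δ * (H : ℝ) := by positivity
      linarith
    linarith
  -- double counting
  have hdc : (A.card : ℝ) * (q / 2) ≤ q * B.card := by
    calc (A.card : ℝ) * (q / 2) = ∑ N ∈ A, ((q : ℝ) / 2) := by rw [sum_const, nsmul_eq_mul]
      _ ≤ ∑ N ∈ A, (bc N : ℝ) := sum_le_sum hbad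
      _ ≤ ∑ N ∈ Icc 1 X, (bc N : ℝ) := by
          apply sum_le_sum_of_subset_of_nonneg _ fun _ _ _ => Nat.cast_nonneg _
          rw [hA]
          exact filter_subset _ _
      _ = ∑ i ∈ range q, (((Icc 1 X).filter fun N => N + i * H0 ∈ B).card : ℝ) := by
          rw [hbc]
          simp_rw [card_filter]
          push_cast
          rw [sum_comm]
      _ ≤ ∑ i ∈ range q, (B.card : ℝ) := by
          apply sum_le_sum
          intro i _
          have h1 : ((Icc 1 X).filter fun N => N + i * H0 ∈ B).card ≤ B.card := by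
            apply card_le_card_of_injOn (fun N => N + i * H0)
            · intro N hN
              rw [mem_coe, mem_filter] at hN
              exact hN.2
            · intro x _ y _ hxy
              simpa using hxy
          exact_mod_cast h1
      _ = _ := by rw [sum_const, nsmul_eq_mul, card_range]
  have hqp : (0 : ℝ) < q := by linarith
  have h1 : (A.card : ℝ) ≤ 2 * B.card := by
    have h3 : (q : ℝ) * ((A.card : ℝ) / 2) ≤ q * B.card := by linarith
    have := le_of_mul_le_mul_left h3 hqp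
    linarith
  rw [hZr] at hmain
  have : 0 ≤ ε * (X : ℝ) := by positivity
  linarith

end Run7.h870.LI
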