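import Pool.Agent.Run7.h870.LI.Crt
import Pool.Agent.Y882.SI.Quad
import Pool.Agent.Erdos456.Mertens

/-!
# The densities of the pairs `n ^ 2 + a`, `(n + h) ^ 2 + a`, and their mean over `h`
-/

set_option autoImplicit false
set_option linter.all false

namespace Run7.h870.LI

open Finset
open Pool.Agent.Y882.SI Pool.Agent.Y882.PX
open scoped Classical

/-- `p` divides `n ^ 2 + a` -/
def Q1 (a : ℤ) (p n : ℕ) : Prop := (p : ℤ) ∣ (n : ℤ) ^ 2 + a

/-- `p` divides `n ^ 2 + a` or `(n + h) ^ 2 + a` -/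
def Q2 (a : ℤ) (h p n : ℕ) : Prop := Q1 a p n ∨ Q1 a p (n + h)

theorem per_Q1 (a : ℤ) : Per (Q1 a) := by
  intro p n
  unfold Q1
  have e : (((n + p : ℕ) : ℤ)) ^ 2 + a = ((n : ℤ) ^ 2 + a) + (p : ℤ) * (2 * n + p) := by
    push_cast
    ring
  rw [e]
  exact dvd_add_left (dvd_mul_right _ _)

theorem per_shift {Q : ℕ → ℕ → Prop} (hQ : Per Q) (h : ℕ) : Per fun p n => Q p (n + h) := by
  intro p n
  show Q p (n + p + h) ↔ Q p (n + h)
  rw [show n + p + h = n + h + p by ring]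
  exact hQ p _

theorem per_or {Q Q' : ℕ → ℕ → Prop} (hQ : Per Q) (hQ' : Per Q') :
    Per fun p n => Q p n ∨ Q' p n := fun p n => or_congr (hQ p n) (hQ' p n)

theorem per_not {Q : ℕ → ℕ → Prop} (hQ : Per Q) : Per fun p n => ¬ Q p n :=
  fun p n => not_congr (hQ p n)

theorem per_Q2 (a : ℤ) (h : ℕ) : Per (Q2 a h) := per_or (per_Q1 a) (per_shift (per_Q1 a) h)

theorem rr_window {Q : ℕ → ℕ → Prop} (hQ : Per Q) (p M : ℕ) :
    ((Ico M (M + p)).filter fun n => Q p n).card = rr Q p := by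
  rw [Nat.filter_Ico_card_eq_of_periodic M p (fun n => Q p n) (fun n => propext (hQ p n)), rr,
    Nat.count_eq_card_filter_range]

theorem rr_shift {Q : ℕ → ℕ → Prop} (hQ : Per Q) (p h : ℕ) :
    rr (fun p n => Q p (n + h)) p = rr Q p := by
  rw [← rr_window hQ p h, rr]
  refine card_bij' (fun n _ => n + h) (fun n _ => n - h) ?_ ?_ ?_ ?_
  · intro n hn
    rw [mem_filter, mem_range] at hn
    rw [mem_filter, mem_Ico]
    exact ⟨⟨by omega, by omega⟩, hn.2⟩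
  · intro n hn
    rw [mem_filter, mem_Ico] at hn
    rw [mem_filter, mem_range]
    refine ⟨by omega, ?_⟩
    show Q p (n - h + h)
    rw [Nat.sub_add_cancel hn.1.1]
    exact hn.2
  · intro n _
    show n + h - h = n
    omega
  · intro n hn
    rw [mem_filter, mem_Ico] at hn
    show n - h + h = n
    omega

theorem rr_not {Q : ℕ → ℕ → Prop} (p : ℕ) : rr (fun p n => ¬ Q p n) p = p - rr Q p := by
  have e : rr (fun p n => ¬ Q p n) p = (range p \ (range p).filter (fun n => Q p n)).card := by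
    unfold rr
    congr 1
    ext n
    simp only [mem_filter, mem_sdiff]
    tauto
  rw [e, card_sdiff_of_subset (filter_subset _ _), card_range, rr]

theorem rr_or (Q Q' : ℕ → ℕ → Prop) (p : ℕ) :
    rr (fun p n => Q p n ∨ Q' p n) p =
      ((range p).filter (fun n => Q p n) ∪ (range p).filter (fun n => Q' p n)).card := by
  unfold rr
  congr 1
  ext n
  simp only [mem_filter, mem_union]
  tauto

theorem rr_Q1 (a : ℤ) (p : ℕ) : rr (Q1 a) p = ro (QF a) 0 p := by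
  rw [ro_eq, rr]
  congr 1
  ext n
  rw [mem_filter, mem_filter, QF_eval, add_zero]
  rfl

theorem rr_Q1_le (a : ℤ) {p : ℕ} (hp : p.Prime) : rr (Q1 a) p ≤ 2 := by
  rw [rr_Q1]
  exact ro_quad_le a p hp

theorem rr_Q1_lt (a : ℤ) {p : ℕ} (hp : p.Prime) : rr (Q1 a) p < p := by
  by_cases h2 : p = 2
  · rw [rr_Q1, h2, ro_quad_two]
    norm_num
  · have := rr_Q1_le a hp
    have := hp.two_le
    omega

theorem rr_Q2_le (a : ℤ) (h p : ℕ) : rr (Q2 a h) p ≤ 2 * rr (Q1 a) p := by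
  have h1 := rr_shift (per_Q1 a) p h
  have h2 : rr (Q2 a h) p ≤ rr (Q1 a) p + rr (fun p n => Q1 a p (n + h)) p := by
    exact (rr_or (Q1 a) (fun p n => Q1 a p (n + h)) p).le.trans (card_union_le _ _)
  omega

theorem rr_Q2_ge (a : ℤ) (h p : ℕ) : rr (Q1 a) p ≤ rr (Q2 a h) p := by
  unfold rr
  exact card_le_card fun n hn => by
    rw [mem_filter] at hn ⊢
    exact ⟨hn.1, Or.inl hn.2⟩

/-- the prime numbers which divide both values -/
theorem common {a : ℤ} {h p n : ℕ} (hp : p.Prime) (h1 : Q1 a p n) (h2 : Q1 a p (n + h)) :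
    (p : ℤ) ∣ (h : ℤ) ∨ (p : ℤ) ∣ (h : ℤ) ^ 2 + 4 * a := by
  unfold Q1 at h1 h2
  have hpz : Prime (p : ℤ) := Nat.prime_iff_prime_int.1 hp
  have h3 : (p : ℤ) ∣ (h : ℤ) * (2 * n + h) := by
    have h4 := dvd_sub h2 h1
    have e : (((n + h : ℕ) : ℤ)) ^ 2 + a - ((n : ℤ) ^ 2 + a) = (h : ℤ) * (2 * n + h) := by
      push_cast
      ring
    rwa [e] at h4
  rcases hpz.dvd_or_dvd h3 with h4 | h4
  · exact Or.inl h4
  · right
    have e : (h : ℤ) ^ 2 + 4 * a = 4 * ((n : ℤ) ^ 2 + a) - (2 * n + h) * (2 * n - h) := by ring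
    rw [e]
    exact dvd_sub (h1.mul_left _) (h4.mul_right _)

theorem rr_Q2_eq {a : ℤ} {h p : ℕ} (hp : p.Prime) (h1 : ¬ (p : ℤ) ∣ (h : ℤ))
    (h2 : ¬ (p : ℤ) ∣ (h : ℤ) ^ 2 + 4 * a) : rr (Q2 a h) p = 2 * rr (Q1 a) p := by
  have e1 := rr_shift (per_Q1 a) p h
  have e2 : rr (Q2 a h) p = rr (Q1 a) p + rr (fun p n => Q1 a p (n + h)) p := by
    refine (rr_or (Q1 a) (fun p n => Q1 a p (n + h)) p).trans ?_
    apply card_union_of_disjoint
    rw [disjoint_left]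
    intro n hn hn'
    rw [mem_filter] at hn hn'
    rcases common hp hn.2 hn'.2 with h3 | h3
    · exact h1 h3
    · exact h2 h3
  omega

/-- the densities -/
noncomputable def V1 (a : ℤ) (P : Finset ℕ) : ℝ := ∏ p ∈ P, (1 - (rr (Q1 a) p : ℝ) / p)

noncomputable def V2 (a : ℤ) (h : ℕ) (P : Finset ℕ) : ℝ := ∏ p ∈ P, (1 - (rr (Q2 a h) p : ℝ) / p)

theorem fac_nonneg (Q : ℕ → ℕ → Prop) {p : ℕ} (hp : p.Prime) : 0 ≤ 1 - (rr Q p : ℝ) / p := by
  have hp0 : (0 : ℝ) < p := by exact_mod_cast hp.pos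
  rw [sub_nonneg, div_le_one hp0]
  exact_mod_cast rr_le Q p

theorem fac_le_one (Q : ℕ → ℕ → Prop) (p : ℕ) : 1 - (rr Q p : ℝ) / p ≤ 1 := by
  have : (0 : ℝ) ≤ (rr Q p : ℝ) / p := by positivity
  linarith

theorem V1_pos (a : ℤ) {P : Finset ℕ} (hP : ∀ p ∈ P, p.Prime) : 0 < V1 a P := by
  refine prod_pos fun p hp => ?_
  have hp0 : (0 : ℝ) < p := by exact_mod_cast (hP p hp).pos
  rw [sub_pos, div_lt_one hp0]
  exact_mod_cast rr_Q1_lt a (hP p hp)

theorem V2_nonneg (a : ℤ) (h : ℕ) {P : Finset ℕ} (hP : ∀ p ∈ P, p.Prime) : 0 ≤ V2 a h P :=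
  prod_nonneg fun p hp => fac_nonneg _ (hP p hp)

theorem V2_le_one (a : ℤ) (h : ℕ) {P : Finset ℕ} (hP : ∀ p ∈ P, p.Prime) : V2 a h P ≤ 1 :=
  prod_le_one (fun p hp => fac_nonneg _ (hP p hp)) fun p _ => fac_le_one _ p

/-- one large prime -/
theorem fac_two (a : ℤ) (h : ℕ) {p : ℕ} (hp : p.Prime) (h4 : 4 < p) :
    1 - (rr (Q2 a h) p : ℝ) / p ≤ (1 - (rr (Q1 a) p : ℝ) / p) ^ 2 *
      (1 + if (p : ℤ) ∣ (h : ℤ) ∨ (p : ℤ) ∣ (h : ℤ) ^ 2 + 4 * a then 4 / (p : ℝ) else 0) := by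
  have hp0 : (0 : ℝ) < p := by exact_mod_cast hp.pos
  have hp4 : (4 : ℝ) < p := by exact_mod_cast h4
  have hr : (rr (Q1 a) p : ℝ) ≤ 2 := by exact_mod_cast rr_Q1_le a hp
  have hr0 : (0 : ℝ) ≤ rr (Q1 a) p := Nat.cast_nonneg _
  obtain ⟨x, hx⟩ : ∃ x, x = (rr (Q1 a) p : ℝ) / p := ⟨_, rfl⟩
  have hx0 : 0 ≤ x := by rw [hx]; positivity
  have hx2 : x ≤ 2 / p := by rw [hx]; exact div_le_div_of_nonneg_right hr hp0.le
  obtain ⟨y, hy⟩ : ∃ y : ℝ, y = 1 / p := ⟨_, rfl⟩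
  have hy0 : 0 < y := by rw [hy]; positivity
  have hy4 : y < 1 / 4 := by rw [hy]; exact one_div_lt_one_div_of_lt (by norm_num) hp4
  have e2 : (2 : ℝ) / p = 2 * y := by rw [hy]; ring
  have e4 : (4 : ℝ) / p = 4 * y := by rw [hy]; ring
  rw [← hx, e4]
  rw [e2] at hx2
  split_ifs with hc
  · have h1 : x ≤ (rr (Q2 a h) p : ℝ) / p := by
      rw [hx]
      apply div_le_div_of_nonneg_right _ hp0.le
      exact_mod_cast rr_Q2_ge a h p
    have h2 : 1 ≤ (1 - x) * (1 + 4 * y) := by nlinarith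
    have h3 : 0 ≤ 1 - x := by linarith
    nlinarith
  · push Not at hc
    rw [rr_Q2_eq hp hc.1 hc.2]
    have e3 : ((2 * rr (Q1 a) p : ℕ) : ℝ) / p = 2 * x := by
      rw [hx]
      push_cast
      ring
    rw [e3]
    nlinarith

/-- the correction factor -/
noncomputable def KK (a : ℤ) (P : Finset ℕ) (h : ℕ) : ℝ :=
  ∏ p ∈ P, (1 + if (p : ℤ) ∣ (h : ℤ) ∨ (p : ℤ) ∣ (h : ℤ) ^ 2 + 4 * a then 4 / (p : ℝ) else 0)

theorem V2_le (a : ℤ) (h : ℕ) {P Pw : Finset ℕ} (hP : ∀ p ∈ P, p.Prime) (hw : Pw ⊆ P)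
    (h4 : ∀ p ∈ P \ Pw, 4 < p) :
    V2 a h P ≤ (V1 a P / V1 a Pw) ^ 2 * (V2 a h Pw * KK a (P \ Pw) h) := by
  have e1 : V2 a h P = V2 a h (P \ Pw) * V2 a h Pw := (prod_sdiff hw).symm
  have e2 : V1 a P = V1 a (P \ Pw) * V1 a Pw := (prod_sdiff hw).symm
  have h1 := V1_pos a (fun p hp => hP p (hw hp))
  have e3 : V1 a P / V1 a Pw = V1 a (P \ Pw) := by
    rw [e2, mul_div_cancel_right₀ _ h1.ne']
  rw [e1, e3]
  have h2 : V2 a h (P \ Pw) ≤ V1 a (P \ Pw) ^ 2 * KK a (P \ Pw) h := by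
    unfold V2 V1 KK
    rw [← prod_pow, ← prod_mul_distrib]
    refine prod_le_prod (fun p hp => fac_nonneg _ (hP p (mem_sdiff.1 hp).1)) fun p hp => ?_
    exact fac_two a h (hP p (mem_sdiff.1 hp).1) (h4 p hp)
  calc V2 a h (P \ Pw) * V2 a h Pw ≤ (V1 a (P \ Pw) ^ 2 * KK a (P \ Pw) h) * V2 a h Pw :=
        mul_le_mul_of_nonneg_right h2 (V2_nonneg a h fun p hp => hP p (hw hp))
    _ = _ := by ring

/-- the mean of `V2` over a period -/
theorem V2_period (a : ℤ) {P : Finset ℕ} (hP : ∀ p ∈ P, p.Prime) (M : ℕ) :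
    ∑ h ∈ Ico M (M + ∏ p ∈ P, p), V2 a h P = (∏ p ∈ P, p : ℕ) * V1 a P ^ 2 := by
  obtain ⟨q, hq⟩ : ∃ q, q = ∏ p ∈ P, p := ⟨_, rfl⟩
  have hq0 : 0 < q := hq ▸ prod_pos fun p hp => (hP p hp).pos
  have hqr : (0 : ℝ) < q := by exact_mod_cast hq0
  have hV : ∀ Q : ℕ → ℕ → Prop, Per Q → ∏ p ∈ P, (1 - (rr Q p : ℝ) / p) =
      (((range q).filter fun n => ∀ p ∈ P, ¬ Q p n).card : ℝ) / q := by
    intro Q hQ
    have h0 := crt_range (per_not hQ) P hP
    have h1 : ((range q).filter (fun n => ∀ p ∈ P, ¬ Q p n)).card =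
        ∏ p ∈ P, rr (fun p n => ¬ Q p n) p := by
      rw [← h0, hq]
      congr 1
      ext n
      simp only [mem_filter]
    rw [h1, hq]
    push_cast
    rw [← prod_div_distrib]
    refine prod_congr rfl fun p hp => ?_
    have hp0 : (p : ℝ) ≠ 0 := by exact_mod_cast (hP p hp).ne_zero
    rw [rr_not, Nat.cast_sub (rr_le Q p), sub_div, div_self hp0]
  obtain ⟨G, hG⟩ : ∃ G : ℕ → Prop, G = fun n => ∀ p ∈ P, ¬ Q1 a p n := ⟨_, rfl⟩
  have hGper : ∀ n, G (n + q) ↔ G n := by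
    intro n
    rw [hG]
    refine forall₂_congr fun p hp => not_congr ?_
    obtain ⟨k, hk⟩ : p ∣ q := hq ▸ dvd_prod_of_mem _ hp
    rw [hk]
    exact per_mul (per_Q1 a) p n k
  obtain ⟨R, hR⟩ : ∃ R, R = ((range q).filter G).card := ⟨_, rfl⟩
  have e1 : V1 a P = (R : ℝ) / q := by
    have h := hV (Q1 a) (per_Q1 a)
    rw [V1, h, hR, hG]
    congr!
  have hwin : ∀ M, ((Ico M (M + q)).filter G).card = R := by
    intro M
    rw [Nat.filter_Ico_card_eq_of_periodic M q G (fun n => propext (hGper n)), hR,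
      Nat.count_eq_card_filter_range]
  have e2 : ∀ h, V2 a h P = (((range q).filter fun n => G n ∧ G (n + h)).card : ℝ) / q := by
    intro h
    have h1 := hV (Q2 a h) (per_Q2 a h)
    rw [V2, h1]
    congr 3
    ext n
    rw [mem_filter, mem_filter, hG]
    refine and_congr_right fun _ => ?_
    constructor
    · intro h2
      exact ⟨fun p hp h3 => h2 p hp (Or.inl h3), fun p hp h3 => h2 p hp (Or.inr h3)⟩
    · rintro ⟨h2, h3⟩ p hp (h5 | h5)
      · exact h2 p hp h5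
      · exact h3 p hp h5
  rw [← hq, sum_congr rfl fun h _ => e2 h, ← sum_div, e1]
  have e3 : ∑ h ∈ Ico M (M + q), (((range q).filter fun n => G n ∧ G (n + h)).card : ℝ) =
      (R : ℝ) * R := by
    have h1 : ∑ h ∈ Ico M (M + q), ((range q).filter fun n => G n ∧ G (n + h)).card =
        ∑ n ∈ (range q).filter G, ((Ico M (M + q)).filter fun h => G (n + h)).card := by
      simp_rw [card_filter]
      rw [sum_comm]
      rw [sum_filter]
      refine sum_congr rfl fun n _ => ?_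
      by_cases hn : G n
      · rw [if_pos hn]
        refine sum_congr rfl fun h _ => ?_
        simp [hn]
      · rw [if_neg hn]
        refine sum_eq_zero fun h _ => ?_
        simp [hn]
    have h2 : ∀ n, ((Ico M (M + q)).filter fun h => G (n + h)).card = R := by
      intro n
      rw [← hwin (n + M)]
      refine card_bij' (fun h _ => n + h) (fun m _ => m - n) ?_ ?_ ?_ ?_
      · intro h hh
        rw [mem_filter, mem_Ico] at hh ⊢
        exact ⟨⟨by omega, by omega⟩, hh.2⟩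
      · intro m hm
        rw [mem_filter, mem_Ico] at hm ⊢
        refine ⟨⟨by omega, by omega⟩, ?_⟩
        have : n + (m - n) = m := by omega
        rw [this]
        exact hm.2
      · intro h _
        show n + h - n = h
        omega
      · intro m hm
        rw [mem_filter, mem_Ico] at hm
        show n + (m - n) = m
        omega
    rw [sum_congr rfl fun n _ => h2 n, sum_const, smul_eq_mul, ← hR] at h1
    exact_mod_cast h1
  rw [e3]
  field_simp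

/-- the mean of `V2` over an initial interval -/
theorem V2_sum (a : ℤ) {P : Finset ℕ} (hP : ∀ p ∈ P, p.Prime) (k : ℕ) :
    ∑ h ∈ Icc 1 k, V2 a h P ≤ ((k : ℝ) + (∏ p ∈ P, p : ℕ)) * V1 a P ^ 2 := by
  obtain ⟨q, hq⟩ : ∃ q, q = ∏ p ∈ P, p := ⟨_, rfl⟩
  have hq0 : 0 < q := hq ▸ prod_pos fun p hp => (hP p hp).pos
  have h1 : ∀ m M : ℕ, ∑ h ∈ Ico M (M + q * m), V2 a h P = (q * m : ℕ) * V1 a P ^ 2 := by
    intro m
    induction m with
    | zero => intro M; simp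
    | succ m ih =>
      intro M
      have e : Ico M (M + q * (m + 1)) = Ico M (M + q * m) ∪ Ico (M + q * m) (M + q * m + q) := by
        rw [Ico_union_Ico_eq_Ico (by omega) (by omega)]
        congr 1
        ring
      rw [e, sum_union (Ico_disjoint_Ico_consecutive _ _ _), ih, hq, V2_period a hP]
      push_cast
      ring
  have h2 : Icc 1 k ⊆ Ico 1 (1 + q * (k / q + 1)) := by
    intro h hh
    rw [mem_Icc] at hh
    rw [mem_Ico]
    have := Nat.lt_mul_div_succ k hq0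
    omega
  have h3 := sum_le_sum_of_subset_of_nonneg (f := fun h => V2 a h P) h2
    (fun h _ _ => V2_nonneg a h hP)
  rw [h1] at h3
  refine h3.trans ?_
  rw [← hq]
  apply mul_le_mul_of_nonneg_right _ (sq_nonneg _)
  have h4 : q * (k / q + 1) ≤ k + q := by
    have := Nat.mul_div_le k q
    rw [mul_add, mul_one]
    omega
  exact_mod_cast h4

end Run7.h870.LI
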